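import Pool.Agent.Helper2.SW.Res

/-!
# Project SW: the chain condition

A family of `δ` conditions has two members whose supports meet in a finite set `r` over which they
have the same type; their union is a common extension.
-/

set_option autoImplicit false

namespace Pool.Agent.Helper2.SW

open Cardinal Set Pool.Agent.Helper33.HM

/-! ### A weak form of the Delta-system lemma -/

/-- Among `δ` finite sets, which have at most countably many types over every finite set `r`, there
are two whose intersection is contained in a finite set `r` over which they have the same type. -/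
theorem exists_pair_type {α ι : Type} {δ : Cardinal.{0}} (hδ : δ.IsRegular) (hδ' : ℵ₀ < δ)
    (F : ι → Finset α) (Ty : Finset α → Type) [∀ r, Countable (Ty r)] (ty : ∀ r, ι → Ty r)
    (h : δ ≤ #ι) : ∃ (r : Finset α) (i j : ι), i ≠ j ∧ (∀ x ∈ F i, x ∈ F j → x ∈ r) ∧
      ty r i = ty r j := by
  classical
  have hcof : ℵ₀ < δ.ord.cof := by rwa [hδ.cof_ord]
  obtain ⟨n, hn⟩ := infinite_pigeonhole_card (fun i => (F i).card) δ h hδ.aleph0_le
    (mk_nat.trans_lt hcof)
  set T : Set (Finset α) := {r | δ ≤ #{i | (F i).card = n ∧ r ⊆ F i}} with hT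
  have hne : T.Nonempty := ⟨∅, by
    have h1 : (fun i => (F i).card) ⁻¹' {n} ⊆ {i | (F i).card = n ∧ ∅ ⊆ F i} :=
      fun i hi => ⟨hi, Finset.empty_subset _⟩
    exact hn.trans (mk_le_mk_of_subset h1)⟩
  obtain ⟨r, hr, hmin⟩ := WellFounded.has_min (measure fun r : Finset α => n - r.card).wf T hne
  have h2 : ∀ x, x ∉ r → #{i | (F i).card = n ∧ insert x r ⊆ F i} < δ := by
    intro x hx
    by_contra hcon
    have h1 : insert x r ∈ T := not_lt.1 hcon
    refine hmin _ h1 ?_
    have h3 : ∃ i, (F i).card = n ∧ insert x r ⊆ F i := by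
      by_contra h4
      push Not at h4
      have h5 : {i | (F i).card = n ∧ insert x r ⊆ F i} = ∅ :=
        Set.eq_empty_of_forall_notMem fun i hi => h4 i hi.1 hi.2
      rw [h5, mk_eq_zero] at hcon
      exact hcon hδ.pos
    obtain ⟨i, hi, hsub⟩ := h3
    have h6 := Finset.card_le_card hsub
    rw [Finset.card_insert_of_notMem hx, hi] at h6
    change n - (insert x r).card < n - r.card
    rw [Finset.card_insert_of_notMem hx]
    omega
  obtain ⟨a, t, hts, ht, hta⟩ := infinite_pigeonhole_set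
    (s := {i | (F i).card = n ∧ r ⊆ F i}) (fun i => ty r i.1) δ hr hδ.aleph0_le
    ((mk_le_aleph0 (α := Ty r)).trans_lt hcof)
  have htne : t.Nonempty := by
    rw [Set.nonempty_iff_ne_empty]
    rintro rfl
    rw [mk_eq_zero] at ht
    exact absurd (hδ.pos.trans_le ht) (lt_irrefl _)
  obtain ⟨i, hi⟩ := htne
  have hbad : #(({i} ∪ ⋃ x ∈ (↑(F i \ r) : Set α), {j | (F j).card = n ∧ insert x r ⊆ F j} :
      Set ι)) < δ := by
    refine (mk_union_le _ _).trans_lt (add_lt_of_lt hδ.aleph0_le ?_ ?_)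
    · rw [mk_singleton]
      exact one_lt_aleph0.trans_le hδ.aleph0_le
    · rw [card_biUnion_lt_iff_forall_of_isRegular hδ
        ((lt_aleph0_of_finite _).trans_le hδ.aleph0_le)]
      intro x hx
      exact h2 x (Finset.mem_sdiff.1 (Finset.mem_coe.1 hx)).2
  have hex : ∃ j ∈ t, j ∉ ({i} ∪ ⋃ x ∈ (↑(F i \ r) : Set α),
      {j | (F j).card = n ∧ insert x r ⊆ F j} : Set ι) := by
    by_contra hcon
    push Not at hcon
    exact absurd (ht.trans (mk_le_mk_of_subset hcon)) (not_le.2 hbad)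
  obtain ⟨j, hj, hj'⟩ := hex
  refine ⟨r, i, j, fun hij => hj' (Or.inl hij.symm), fun x hx hx' => ?_, ?_⟩
  · by_contra hxr
    refine hj' (Or.inr ?_)
    rw [Set.mem_iUnion₂]
    exact ⟨x, Finset.mem_coe.2 (Finset.mem_sdiff.2 ⟨hx, hxr⟩), (hts hj).1,
      Finset.insert_subset hx' (hts hj).2⟩
  · rw [hta hi, hta hj]

/-! ### The union of two conditions -/

section Union

variable {C S : Type}

open Classical in
/-- The union of two data with the same graph and the same height. -/
noncomputable def Dat.un (x y : Dat S) : Dat S where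
  E := x.E
  n := x.n
  u := x.u ∪ y.u
  r a k := if a ∈ x.u then x.r a k else if k < x.n then y.r a k else 0
  asym := x.asym
  out a k h := by
    by_cases ha : a ∈ x.u
    · rw [if_pos ha]
      exact x.out a k fun h' => h ⟨Finset.mem_union_left _ h'.1, h'.2⟩
    · rw [if_neg ha]
      by_cases hk : k < x.n
      · rw [if_pos hk]
        exact y.out a k fun h' => h ⟨Finset.mem_union_right _ h'.1, hk⟩
      · rw [if_neg hk]

theorem Dat.un_le_left (A : S → S → Prop) (x y : Dat S) : Dat.Le A (x.un y) x where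
  E := Finset.Subset.refl _
  n := le_rfl
  u _ ha := by
    classical
    exact Finset.mem_union_left _ ha
  r _ ha _ _ := if_pos ha
  p _ _ _ _ _ _ h1 h2 := absurd h2 (not_lt.2 h1)

theorem Dat.un_le_right (A : S → S → Prop) {x y : Dat S} (hE : x.E = y.E) (hn : x.n = y.n)
    (hr : ∀ a ∈ x.u, a ∈ y.u → ∀ k, k < y.n → x.r a k = y.r a k) :
    Dat.Le A (x.un y) y where
  E := hE.ge
  n := hn.ge
  u _ ha := by
    classical
    exact Finset.mem_union_right _ ha
  r a ha k hk := by
    by_cases h : a ∈ x.u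
    · have h1 : (x.un y).r a k = x.r a k := if_pos h
      rw [h1]
      exact hr a h ha k hk
    · have h1 : (x.un y).r a k = if k < x.n then y.r a k else 0 := if_neg h
      rw [h1, if_pos (hn ▸ hk)]
  p _ _ _ _ _ _ h1 h2 := absurd (h2.trans_eq hn) (not_lt.2 h1)

open Classical in
/-- The union of two conditions. -/
noncomputable def Raw.un (c : C) (p q : Raw C S) : Raw C S where
  c := c
  f s := if p.f s = Dat.emp then q.f s else if q.f s = Dat.emp then p.f s else
    (p.f s).un (q.f s)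
  fin := (p.fin.union q.fin).subset fun s hs => by
    by_cases h : p.f s = Dat.emp
    · right
      intro h'
      apply hs
      rw [if_pos h, h']
    · exact Or.inl h

theorem Raw.un_f_left (c : C) {p q : Raw C S} {s : S} (h : p.f s = Dat.emp) :
    (Raw.un c p q).f s = q.f s := if_pos h

theorem Raw.un_f_right (c : C) {p q : Raw C S} {s : S} (h : q.f s = Dat.emp) :
    (Raw.un c p q).f s = p.f s := by
  by_cases h' : p.f s = Dat.emp
  · rw [Raw.un_f_left c h', h, h']
  · exact (if_neg h').trans (if_pos h)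

theorem Raw.un_f (c : C) {p q : Raw C S} {s : S} (h : p.f s ≠ Dat.emp) (h' : q.f s ≠ Dat.emp) :
    (Raw.un c p q).f s = (p.f s).un (q.f s) := (if_neg h).trans (if_neg h')

theorem Raw.un_on {c : C} {p q : Raw C S} {Y : Set S} (hp : p.On Y) (hq : q.On Y) :
    (Raw.un c p q).On Y := by
  classical
  constructor
  · intro s hs
    by_cases h : p.f s = Dat.emp
    · rw [Raw.un_f_left c h] at hs
      exact hq.1 s hs
    · exact hp.1 s h
  · intro s x hx
    by_cases h : p.f s = Dat.emp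
    · rw [Raw.un_f_left c h] at hx
      exact hq.2 s x hx
    · by_cases h' : q.f s = Dat.emp
      · rw [Raw.un_f_right c h'] at hx
        exact hp.2 s x hx
      · rw [Raw.un_f c h h'] at hx
        rcases Finset.mem_union.1 hx with hx | hx
        · exact hp.2 s x hx
        · exact hq.2 s x hx

end Union

section Le

variable {C S : Type} [Preorder C] {A : S → S → S → Prop}

theorem Raw.un_le_left {c : C} {p q : Raw C S} (hc : c ≤ p.c) : (Raw.un c p q).Le A p := by
  refine ⟨hc, fun s => ?_⟩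
  by_cases h : p.f s = Dat.emp
  · rw [h]
    exact Dat.Le.emp _ _
  · by_cases h' : q.f s = Dat.emp
    · rw [Raw.un_f_right c h']
      exact Dat.Le.refl _ _
    · rw [Raw.un_f c h h']
      exact Dat.un_le_left _ _ _

theorem Raw.un_le_right {c : C} {p q : Raw C S} (hc : c ≤ q.c)
    (h : ∀ s, p.f s ≠ Dat.emp → q.f s ≠ Dat.emp → (p.f s).E = (q.f s).E ∧
      (p.f s).n = (q.f s).n ∧ ∀ a ∈ (p.f s).u, a ∈ (q.f s).u → ∀ k, k < (q.f s).n →
        (p.f s).r a k = (q.f s).r a k) : (Raw.un c p q).Le A q := by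
  refine ⟨hc, fun s => ?_⟩
  by_cases h1 : p.f s = Dat.emp
  · rw [Raw.un_f_left c h1]
    exact Dat.Le.refl _ _
  · by_cases h2 : q.f s = Dat.emp
    · rw [h2]
      exact Dat.Le.emp _ _
    · rw [Raw.un_f c h1 h2]
      obtain ⟨h3, h4, h5⟩ := h s h1 h2
      exact Dat.un_le_right _ h3 h4 h5

omit [Preorder C] in
theorem Raw.un_E (c : C) (p q : Raw C S) (s : S) :
    ((Raw.un c p q).f s).E = (p.f s).E ∨ ((Raw.un c p q).f s).E = (q.f s).E := by
  by_cases h1 : p.f s = Dat.emp
  · right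
    rw [Raw.un_f_left c h1]
  · left
    by_cases h2 : q.f s = Dat.emp
    · rw [Raw.un_f_right c h2]
    · rw [Raw.un_f c h1 h2]
      rfl

end Le

/-! ### The type of a condition over a finite set -/

/-- The types over `r`. -/
abbrev CTy {S : Type} (r : Finset S) : Type :=
  r → Finset (ℕ × ℕ) × ℕ × (r → List ℕ)

/-- The type of the condition `p` over `r`. -/
def Raw.ty {C S : Type} (r : Finset S) (p : Raw C S) : CTy r := fun s =>
  ((p.f s).E, (p.f s).n, fun x => (List.range (p.f s).n).map fun k => (p.f s).r x k)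

theorem Raw.ty_eq {C S : Type} {r : Finset S} {p q : Raw C S} (h : p.ty r = q.ty r) {s : S}
    (hs : s ∈ r) : (p.f s).E = (q.f s).E ∧ (p.f s).n = (q.f s).n ∧
      ∀ a ∈ r, ∀ k, k < (q.f s).n → (p.f s).r a k = (q.f s).r a k := by
  have h1 := congrFun h ⟨s, hs⟩
  have hE : (p.f s).E = (q.f s).E := congrArg Prod.fst h1
  have hn : (p.f s).n = (q.f s).n := congrArg (fun z => z.2.1) h1
  refine ⟨hE, hn, fun a ha k hk => ?_⟩
  have h2 : ((List.range (p.f s).n).map fun k => (p.f s).r a k) =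
      (List.range (q.f s).n).map fun k => (q.f s).r a k :=
    congrFun (congrArg (fun z => z.2.2) h1) ⟨a, ha⟩
  rw [hn] at h2
  exact List.map_inj_left.1 h2 k (List.mem_range.2 hk)

/-! ### The chain condition -/

/-- Conditions with compatible first components and with the same type over a finite set which
contains the common part of the supports have a common extension. -/
theorem exists_le_le {C S J : Type} [Preorder C] [LinearOrder S] {T : Pat J}
    {Z : S → J → Set (Raw C S)} {Y : Set S} {p q : Raw C S} (hp : Valid T Z p) (hq : Valid T Z q)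
    (hpY : p.On Y) (hqY : q.On Y) {c : C} (hcp : c ≤ p.c) (hcq : c ≤ q.c) {r : Finset S}
    (hr : ∀ x ∈ p.supp, x ∈ q.supp → x ∈ r) (hty : p.ty r = q.ty r) :
    ∃ z : Raw C S, Valid T Z z ∧ z.On Y ∧ z.Le lt3 p ∧ z.Le lt3 q := by
  have h1 : (Raw.un c p q).Le lt3 p := Raw.un_le_left hcp
  have h2 : (Raw.un c p q).Le lt3 q := by
    refine Raw.un_le_right hcq fun s hs hs' => ?_
    obtain ⟨h3, h4, h5⟩ := Raw.ty_eq hty (hr s (Or.inl hs) (Or.inl hs'))
    exact ⟨h3, h4, fun a ha ha' k hk => h5 a (hr a (Or.inr ⟨s, ha⟩) (Or.inr ⟨s, ha'⟩)) k hk⟩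
  refine ⟨Raw.un c p q, ?_, Raw.un_on hpY hqY, h1, h2⟩
  rintro s j ⟨g, hg⟩
  rcases Raw.un_E c p q s with h | h
  · rw [h] at hg
    obtain ⟨b, hb, hb'⟩ := hp s j ⟨g, hg⟩
    exact ⟨b, hb, h1.trans hb'⟩
  · rw [h] at hg
    obtain ⟨b, hb, hb'⟩ := hq s j ⟨g, hg⟩
    exact ⟨b, hb, h2.trans hb'⟩

/-- the chain condition, for the valid conditions with support in `Y` -/
theorem cc_on {C S J : Type} [Preorder C] [LinearOrder S] (T : Pat J)
    (Z : S → J → Set (Raw C S)) {δ : Cardinal.{0}} (hδ : δ.IsRegular) (hδ' : ℵ₀ < δ)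
    (hC : IsKnaster δ C) (Y : Set S) (A : Set (Raw C S)) (hA : ∀ p ∈ A, Valid T Z p ∧ p.On Y)
    (h : ∀ p ∈ A, ∀ q ∈ A, p ≠ q →
      ¬ ∃ r : Raw C S, Valid T Z r ∧ r.On Y ∧ r.Le lt3 p ∧ r.Le lt3 q) : #A < δ := by
  by_contra hcon
  obtain ⟨B, hB, hB'⟩ := hC.knaster A (fun p => p.1.c) (not_lt.1 hcon)
  obtain ⟨r, i, j, hij, hr, hty⟩ := exists_pair_type hδ hδ'
    (fun p : B => p.1.1.supp_finite.toFinset) CTy (fun r p => p.1.1.ty r) hB
  obtain ⟨c, hc1, hc2⟩ := hB' i.1 i.2 j.1 j.2
  have h1 := hA _ i.1.2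
  have h2 := hA _ j.1.2
  refine h _ i.1.2 _ j.1.2 (fun h3 => hij (Subtype.ext (Subtype.ext h3))) ?_
  refine exists_le_le h1.1 h2.1 h1.2 h2.2 hc1 hc2 (fun x hx hx' => ?_) hty
  exact hr x ((Set.Finite.mem_toFinset _).2 hx) ((Set.Finite.mem_toFinset _).2 hx')

theorem cc_ps {C S J : Type} [Preorder C] [LinearOrder S] (T : Pat J)
    (Z : S → J → Set (Raw C S)) {δ : Cardinal.{0}} (hδ : δ.IsRegular) (hδ' : ℵ₀ < δ)
    (hC : IsKnaster δ C) : CC δ (PS T Z) := by
  intro A hA
  rw [← mk_image_eq (f := fun p : PS T Z => p.1) (s := A) Subtype.val_injective]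
  refine cc_on T Z hδ hδ' hC Set.univ _ ?_ ?_
  · rintro _ ⟨p, -, rfl⟩
    exact ⟨p.2, fun _ _ => Set.mem_univ _, fun _ _ _ => Set.mem_univ _⟩
  · rintro _ ⟨p, hp, rfl⟩ _ ⟨q, hq, rfl⟩ hpq ⟨z, hz, -, h1, h2⟩
    exact hA p hp q hq (fun h => hpq (by rw [h])) ⟨⟨z, hz⟩, h1, h2⟩

end Pool.Agent.Helper2.SW
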