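import Pool.Agent.Helper2.SW.Defs2

/-! # Project SW: small representations of truth values -/

set_option autoImplicit false

namespace Pool.Agent.Helper2.SW

open Cardinal Set Pool.Agent.Helper33.HM

/-- A truth value is generated by a small set. -/
theorem exists_small {P : Type} [Preorder P] {δ : Cardinal.{0}} (hc : CC δ P) (U : RO P) :
    ∃ A : Set P, #A < δ ∧ RO.gen A = U := by
  set F : Set (Set P) := {A | (∀ p ∈ A, p ∈ U) ∧
    ∀ p ∈ A, ∀ q ∈ A, p ≠ q → ¬ ∃ r : P, r ≤ p ∧ r ≤ q} with hF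
  have hz : ∃ m, Maximal (· ∈ F) m := by
    apply zorn_subset
    intro c hcF hch
    refine ⟨⋃₀ c, ⟨?_, ?_⟩, fun s hs => subset_sUnion_of_mem hs⟩
    · rintro p ⟨s, hs, hp⟩
      exact (hcF hs).1 p hp
    · rintro p ⟨s, hs, hp⟩ q ⟨t, ht, hq⟩ hpq
      rcases hch.total hs ht with h | h
      · exact (hcF ht).2 p (h hp) q hq hpq
      · exact (hcF hs).2 p hp q (h hq) hpq
  obtain ⟨A, hA, hmax⟩ := hz
  refine ⟨A, hc A hA.2, ?_⟩
  apply RO.ext'
  intro p
  rw [RO.mem_gen]
  constructor
  · intro h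
    apply RO.mem_reg
    intro q hq
    obtain ⟨r, hr, a, ha, hra⟩ := h q hq
    exact ⟨r, hr, RO.mem_lower hra (hA.1 a ha)⟩
  · intro hp q hq
    by_contra hcon
    push Not at hcon
    have hqU : q ∈ U := RO.mem_lower hq hp
    have hqA : q ∉ A := fun h => hcon q le_rfl q h le_rfl
    have hin : insert q A ∈ F := by
      refine ⟨?_, ?_⟩
      · rintro a (rfl | ha)
        · exact hqU
        · exact hA.1 a ha
      · rintro a (rfl | ha) b (rfl | hb) hab
        · exact absurd rfl hab
        · rintro ⟨r, hr1, hr2⟩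
          exact hcon r hr1 b hb hr2
        · rintro ⟨r, hr1, hr2⟩
          exact hcon r hr2 a ha hr1
        · exact hA.2 a ha b hb hab
    exact hqA (hmax hin (subset_insert q A) (mem_insert q A))

end Pool.Agent.Helper2.SW
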