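import Pool.Agent.Helper2.SW.Defs2

/-!
# Project SW: copies over a root, hits
-/

set_option autoImplicit false

namespace Pool.Agent.Helper2.SW

open Set

/-- Permutations which carry the copies `a` and `b` to the copies `0` and `1`. -/
structure IsoTo {C I J : Type} (Z : I → J → Set (Raw C I)) (R : Set I) (Y : ℕ → Set I)
    [LT I] (c : ℕ → ℕ → ℕ → Set (Raw C I)) (a b : ℕ) (σ : Equiv.Perm I) : Prop where
  root : ∀ x ∈ R, σ x = x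
  left : ∀ x, x ∈ Y a ↔ σ x ∈ Y 0
  right : ∀ x, x ∈ Y b ↔ σ x ∈ Y 1
  mono_left : ∀ x ∈ R ∪ Y a, ∀ y ∈ R ∪ Y a, x < y → σ x < σ y
  mono_right : ∀ x ∈ R ∪ Y b, ∀ y ∈ R ∪ Y b, x < y → σ x < σ y
  code_left : ∀ s ∈ R ∪ Y a, ∀ j p, p ∈ Z s j ↔ p.perm σ ∈ Z (σ s) j
  code_right : ∀ s ∈ R ∪ Y b, ∀ j p, p ∈ Z s j ↔ p.perm σ ∈ Z (σ s) j
  name_left : ∀ k l p, p ∈ c a k l ↔ p.perm σ ∈ c 0 k l
  name_right : ∀ k l p, p ∈ c b k l ↔ p.perm σ ∈ c 1 k l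

/-- A root `R` and copies `Y a` above it. -/
structure IsCopies {C I J : Type} [LT I] (Z : I → J → Set (Raw C I)) (R : Set I)
    (Y : ℕ → Set I) (c : ℕ → ℕ → ℕ → Set (Raw C I)) : Prop where
  root : Closed Z R
  closed : ∀ a, Closed Z (R ∪ Y a)
  lt_root : ∀ a, ∀ x ∈ R, ∀ y ∈ Y a, x < y
  lt_copy : ∀ a b, a < b → ∀ x ∈ Y a, ∀ y ∈ Y b, x < y
  on : ∀ a k l, ∀ p ∈ c a k l, p.On (R ∪ Y a)
  iso : ∀ a b, a ≠ b → ∃ σ : Equiv.Perm I, IsoTo Z R Y c a b σ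

/-- `q` is below an element of `N`. -/
def Hits {C S : Type} [LE C] [LT S] (q : Raw C S) (N : Set (Raw C S)) : Prop :=
  ∃ b ∈ N, q.Le lt3 b

end Pool.Agent.Helper2.SW
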