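import Pool.Agent.Helper2.SW.NB
import Pool.Agent.Helper2.SW.CC
import Pool.Agent.Helper2.SW.SRep
import Pool.Agent.Helper95.SW.Clo
import Pool.Agent.Helper95.SW.Copies

/-! # Project SW: the non-existence theorem -/

set_option autoImplicit false
set_option linter.unusedSectionVars false

namespace Pool.Agent.Helper2.SW

open Cardinal Set Pool.Agent.Helper33.HM

section

variable {C I J : Type} [Preorder C] [LinearOrder I] {T : Pat J} {Z : I → J → Set (Raw C I)}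

theorem Hits.of_le {q r : Raw C I} {N : Set (Raw C I)} (h : Hits q N) (hr : r.Le lt3 q) :
    Hits r N := by
  obtain ⟨b, hb, hq⟩ := h
  exact ⟨b, hb, hr.trans hq⟩

/-- `N` is a small set of raw conditions which represents `U`. -/
private def Rp (T : Pat J) (Z : I → J → Set (Raw C I)) (δ : Cardinal.{0}) (U : RO (PS T Z))
    (N : Set (Raw C I)) : Prop :=
  #N < δ ∧ (∀ q : PS T Z, Hits q.1 N → q ∈ U) ∧
    ∀ q : PS T Z, q ∈ U → ∃ r : PS T Z, r ≤ q ∧ Hits r.1 N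

private theorem exists_rp {δ : Cardinal.{0}} (hc : CC δ (PS T Z)) (U : RO (PS T Z)) :
    ∃ N, Rp T Z δ U N := by
  obtain ⟨A, hA, rfl⟩ := exists_small hc U
  refine ⟨Subtype.val '' A, ?_, ?_, ?_⟩
  · exact mk_image_le.trans_lt hA
  · rintro q ⟨b, ⟨a, ha, rfl⟩, hq⟩
    rw [RO.mem_gen]
    intro t ht
    have hta : t ≤ a := (show t.1.Le lt3 q.1 from ht).trans hq
    exact ⟨t, le_rfl, a, ha, hta⟩
  · intro q hq
    obtain ⟨r, hr, a, ha, hra⟩ := RO.mem_gen.1 hq q le_rfl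
    exact ⟨r, hr, a.1, ⟨a, ha, rfl⟩, hra⟩

private theorem mk_supps {δ : Cardinal.{0}} (hδ : δ.IsRegular) (hδ' : ℵ₀ < δ)
    {N : Set (Raw C I)} (hN : #N < δ) : #(⋃ p ∈ N, p.supp : Set I) < δ := by
  rw [card_biUnion_lt_iff_forall_of_isRegular hδ hN]
  intro p _
  exact (lt_aleph0_iff_finite.2 (Raw.supp_finite p)).trans hδ'

private theorem mk_ctbl {δ : Cardinal.{0}} (hδ : δ.IsRegular) (hδ' : ℵ₀ < δ) {ι : Type}
    [Countable ι] {N : ι → Set (Raw C I)} (hN : ∀ i, #(N i) < δ) :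
    #(⋃ i, ⋃ p ∈ N i, p.supp : Set I) < δ := by
  rw [card_iUnion_lt_iff_forall_of_isRegular hδ (mk_le_aleph0.trans_lt hδ')]
  exact fun i => mk_supps hδ hδ' (hN i)

/-- Hitting the codes of finitely many stages. -/
private theorem exists_hits (D : Finset I) (j : J) {q : PS T Z}
    (h : ∀ s ∈ D, q ∈ ev T Z s j) : ∃ r : PS T Z, r ≤ q ∧ ∀ s ∈ D, Hits r.1 (Z s j) := by
  classical
  induction D using Finset.induction_on generalizing q with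
  | empty => exact ⟨q, le_rfl, by simp⟩
  | insert s D _ ih =>
    obtain ⟨r, hr, a, ha, hra⟩ := RO.mem_gen.1 (h s (Finset.mem_insert_self _ _)) q le_rfl
    obtain ⟨t, ht, h2⟩ := ih (q := r) fun s' hs' =>
      RO.mem_lower hr (h s' (Finset.mem_insert_of_mem hs'))
    refine ⟨t, ht.trans hr, ?_⟩
    intro s' hs'
    rcases Finset.mem_insert.1 hs' with rfl | hs'
    · exact ⟨a.1, ha, (show t.1.Le lt3 r.1 from ht).trans hra⟩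
    · exact h2 s' hs'

theorem no_witness [WellFoundedLT I] [Countable J]
    {δ : Cardinal.{0}} (hδ : IsInaccessible δ) (hI : IsSuccType δ I) (hC : IsKnaster δ C)
    (hZ : CodeOK T δ Z) (G : ℕ → ℕ → RO (PS T Z)) (c : I → ℕ → ℕ → RO (PS T Z))
    (W : J → RO (PS T Z)) (p0 : PS T Z) (h0 : p0 ∈ fnV c) (h1 : p0 ∈ chV G c)
    (h2 : ∀ j (h : ℕ → ℕ), p0 ∈ (W j ⊓
      ⨅ v, ⨅ w, ⨅ _ : v < T.N j ∧ w < T.N j ∧ T.arc j v w, G (h v) (h w))ᶜ)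
    (h4 : ∀ q, q ≤ p0 → ∀ D : Finset I, ∃ r, r ≤ q ∧ ∃ j, r ∈ W j ∧ ∀ s ∈ D, r ∈ ev T Z s j) :
    False := by
  have hreg : δ.IsRegular := hδ.isRegular
  have hδ' : ℵ₀ < δ := hδ.aleph0_lt
  have hcc : CC δ (PS T Z) := cc_ps T Z hreg hδ' hC
  choose G' hG' using fun a b => exists_rp hcc (G a b)
  choose W' hW' using fun j => exists_rp hcc (W j)
  choose c' hc' using fun ξ k l => exists_rp hcc (c ξ k l)
  -- the common part
  set X0 : Set I := p0.1.supp ∪ ((⋃ e : ℕ × ℕ, ⋃ p ∈ G' e.1 e.2, p.supp) ∪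
    ⋃ j, ⋃ p ∈ W' j, p.supp) with hX0
  have hX0s : #X0 < δ := by
    refine (mk_union_le _ _).trans_lt (add_lt_of_lt hδ'.le
      ((lt_aleph0_iff_finite.2 (Raw.supp_finite _)).trans hδ') ?_)
    refine (mk_union_le _ _).trans_lt (add_lt_of_lt hδ'.le ?_ ?_)
    · exact mk_ctbl hreg hδ' fun e : ℕ × ℕ => (hG' e.1 e.2).1
    · exact mk_ctbl hreg hδ' fun j => (hW' j).1
  set B : Set I := {s | Cl Z X0 s} with hB
  have hBs : #B < δ := cl_small hreg hδ' hZ.small hX0s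
  set X : I → Set I := fun ξ => {s | Cl Z (B ∪ ⋃ e : ℕ × ℕ, ⋃ p ∈ c' ξ e.1 e.2, p.supp) s}
    with hX
  have hXs : ∀ ξ, #(X ξ) < δ := by
    intro ξ
    refine cl_small hreg hδ' hZ.small ?_
    refine (mk_union_le _ _).trans_lt (add_lt_of_lt hδ'.le hBs ?_)
    exact mk_ctbl hreg hδ' fun e : ℕ × ℕ => (hc' ξ e.1 e.2).1
  obtain ⟨R, Y, ξ, hξ, -, hBR, hcop⟩ := exists_copies hδ hI hC.card Z hZ.below hZ.small B X hXs
    (fun ξ => cl_closed _) (fun ξ s hs => Cl.base (Or.inl hs)) c'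
    (fun ξ k l => (hc' ξ k l).1) (fun ξ k l p hp => Raw.on_iff.2 fun s hs =>
      Cl.base (Or.inr (mem_iUnion.2 ⟨(k, l), mem_biUnion hp hs⟩)))
  have hX0R : X0 ⊆ R := fun s hs => hBR (Cl.base hs)
  refine no_copies (T := T) hcop G' (fun a b p hp => Raw.on_iff.2 fun s hs => hX0R
      (Or.inr (Or.inl (mem_iUnion.2 ⟨(a, b), mem_biUnion hp hs⟩)))) W'
    (fun j p hp => Raw.on_iff.2 fun s hs => hX0R
      (Or.inr (Or.inr (mem_iUnion.2 ⟨j, mem_biUnion hp hs⟩)))) p0.1 p0.2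
    (Raw.on_iff.2 fun s hs => hX0R (Or.inl hs)) ?_ ?_ ?_ ?_ ?_
  · -- H0
    intro a k l l' q hq hqp hl hl'
    by_contra hne
    obtain ⟨Q, rfl⟩ : ∃ Q : PS T Z, Q.1 = q := ⟨⟨q, hq⟩, rfl⟩
    have e1 : Q ∈ c (ξ a) k l := (hc' _ _ _).2.1 Q hl
    have e2 : Q ∈ c (ξ a) k l' := (hc' _ _ _).2.1 Q hl'
    have e3 := RO.mem_iInf.1 (RO.mem_iInf.1 (RO.mem_iInf.1 (RO.mem_iInf.1
      (RO.mem_iInf.1 h0.1 (ξ a)) k) l) l') hne
    exact RO.mem_compl.1 e3 Q hqp ⟨e1, e2⟩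
  · -- H0'
    intro a k q hq hqp
    obtain ⟨Q, rfl⟩ : ∃ Q : PS T Z, Q.1 = q := ⟨⟨q, hq⟩, rfl⟩
    have e1 := RO.mem_iInf.1 (RO.mem_iInf.1 h0.2 (ξ a)) k
    rw [RO.mem_iSup] at e1
    obtain ⟨r, hr, l, hl⟩ := e1 Q hqp
    obtain ⟨t, ht, h5⟩ := (hc' _ _ _).2.2 r hl
    exact ⟨t.1, t.2, ht.trans hr, l, h5⟩
  · -- H1
    intro q hq hqp
    obtain ⟨Q, rfl⟩ : ∃ Q : PS T Z, Q.1 = q := ⟨⟨q, hq⟩, rfl⟩
    have e1 := RO.mem_iInf.1 (RO.mem_iInf.1 (RO.mem_iInf.1 h1 (ξ 0)) (ξ 1)) (hξ (by norm_num))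
    rw [RO.mem_iSup] at e1
    obtain ⟨r, hr, m, hm⟩ := e1 Q hqp
    refine ⟨r.1, r.2, hr, m, ?_⟩
    intro k hk r' hr' hle
    obtain ⟨R', rfl⟩ : ∃ R' : PS T Z, R'.1 = r' := ⟨⟨r', hr'⟩, rfl⟩
    have e2 := RO.mem_iInf.1 (RO.mem_iInf.1 hm k) hk
    rw [RO.mem_iSup] at e2
    obtain ⟨t, ht, a, ha⟩ := e2 R' hle
    rw [RO.mem_iSup] at ha
    obtain ⟨u, hu, b, hb⟩ := ha t le_rfl
    obtain ⟨⟨hb1, hb2⟩, hb3⟩ := hb
    obtain ⟨u1, hu1, h5⟩ := (hc' _ _ _).2.2 u hb1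
    obtain ⟨u2, hu2, h6⟩ := (hc' _ _ _).2.2 u1 (RO.mem_lower hu1 hb2)
    obtain ⟨u3, hu3, h7⟩ := (hG' _ _).2.2 u2 (RO.mem_lower (hu2.trans hu1) hb3)
    exact ⟨u3.1, u3.2, (((hu3.trans hu2).trans hu1).trans hu).trans ht, a, b,
      h5.of_le (hu3.trans hu2), h6.of_le hu3, h7⟩
  · -- H2
    intro j q hq hqp hqW f hf
    obtain ⟨Q, rfl⟩ : ∃ Q : PS T Z, Q.1 = q := ⟨⟨q, hq⟩, rfl⟩
    refine RO.mem_compl.1 (h2 j f) Q hqp ⟨(hW' j).2.1 Q hqW, ?_⟩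
    refine RO.mem_iInf.2 fun v => RO.mem_iInf.2 fun w => RO.mem_iInf.2 fun hvw => ?_
    exact (hG' _ _).2.1 Q (hf v w hvw.1 hvw.2.1 hvw.2.2)
  · -- H4
    intro q hq hqp D
    obtain ⟨Q, rfl⟩ : ∃ Q : PS T Z, Q.1 = q := ⟨⟨q, hq⟩, rfl⟩
    obtain ⟨r, hr, j, hj, hs⟩ := h4 Q hqp D
    obtain ⟨t, ht, h5⟩ := (hW' j).2.2 r hj
    obtain ⟨u, hu, h6⟩ := exists_hits D j (q := t) fun s hsD => RO.mem_lower ht (hs s hsD)
    exact ⟨u.1, u.2, (hu.trans ht).trans hr, j, h5.of_le hu, h6⟩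

end

end Pool.Agent.Helper2.SW
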