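import Pool.Agent.Helper2.SW.Bwo0
import Pool.Agent.Helper2.SW.NC

/-!
# Project SW: the Boolean valued well-order, assembly
-/

set_option autoImplicit false

namespace Pool.Agent.Helper2.SW

open Cardinal Set Pool.Agent.Helper33.HM

theorem book_bwo {C I : Type} [Preorder C] [OrderTop C] [LinearOrder I] [WellFoundedLT I]
    {T : Pat Wd} {δ : Cardinal.{0}} (hδ : IsInaccessible δ) (hI : IsSuccType δ I)
    (hC : IsKnaster δ C) {Z : I → Wd → Set (Raw C I)} {A : I → ℕ → Set (Raw C I)}
    {pr : I → I × I} (h : Book T δ Z A pr) : Nonempty (BWO (PS T Z) I T) :=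
  book_bwo_of h (no_witness hδ hI hC h.ok)

end Pool.Agent.Helper2.SW
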