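import Pool.Agent.Helper2.SW.Defs2

/-!
# Project SW: the Levy collapse

The component `C` of the poset makes every nonzero ordinal below the inaccessible cardinal `δ`
countable. The conditions are the functions with a finite domain. The names of its generic functions are
lifted to the poset.
-/

set_option autoImplicit false

namespace Pool.Agent.Helper2.SW

open Cardinal Set Pool.Agent.Helper33.HM

/-- The values of a function from `ℕ` onto `X`. -/
structure OntoV {P : Type} [Preorder P] {X : Type} (F : ℕ → X → RO P) : Prop where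
  disj : ∀ n b b', b ≠ b' → F n b ⊓ F n b' = ⊥
  tot : ∀ n, ⨆ b, F n b = ⊤
  onto : ∀ b, ⨆ n, F n b = ⊤

/-! ### Functions with a finite domain -/

/-- Functions with a finite domain and with values in `V x` at `x`. -/
def Fpf {X : Type} (V : X → Type) : Type :=
  {p : Finset (Σ x, V x) // ∀ a ∈ p, ∀ b ∈ p, a.1 = b.1 → a = b}

section Fpf

variable {X : Type} {V : X → Type}

instance : Preorder (Fpf V) where
  le p q := q.1 ⊆ p.1
  le_refl p := Finset.Subset.refl p.1
  le_trans _ _ _ h h' := h'.trans h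

theorem Fpf.le_iff {p q : Fpf V} : p ≤ q ↔ q.1 ⊆ p.1 := Iff.rfl

instance : OrderTop (Fpf V) where
  top := ⟨∅, by simp⟩
  le_top _ := Finset.empty_subset _

open Classical in
/-- The domain. -/
noncomputable def Fpf.dom (p : Fpf V) : Finset X := p.1.image Sigma.fst

theorem Fpf.mem_dom {p : Fpf V} {x : X} : x ∈ p.dom ↔ ∃ y : V x, (⟨x, y⟩ : Σ x, V x) ∈ p.1 := by
  classical
  unfold Fpf.dom
  rw [Finset.mem_image]
  constructor
  · rintro ⟨⟨x', y⟩, h, rfl⟩
    exact ⟨y, h⟩
  · rintro ⟨y, h⟩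
    exact ⟨_, h, rfl⟩

open Classical in
/-- The extension by the value `y` at `x`. -/
noncomputable def Fpf.ins (p : Fpf V) {x : X} (hx : x ∉ p.dom) (y : V x) : Fpf V :=
  ⟨insert ⟨x, y⟩ p.1, by
    intro a ha b hb hab
    rcases Finset.mem_insert.1 ha with ha1 | ha1
    · rcases Finset.mem_insert.1 hb with hb1 | hb1
      · rw [ha1, hb1]
      · rw [ha1] at hab
        exact absurd (Fpf.mem_dom.2 ⟨b.2, hb1⟩) (hab ▸ hx)
    · rcases Finset.mem_insert.1 hb with hb1 | hb1
      · rw [hb1] at hab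
        exact absurd (Fpf.mem_dom.2 ⟨a.2, ha1⟩) (hab ▸ hx)
      · exact p.2 a ha1 b hb1 hab⟩

theorem Fpf.ins_le (p : Fpf V) {x : X} (hx : x ∉ p.dom) (y : V x) : p.ins hx y ≤ p := by
  classical
  exact Finset.subset_insert _ _

theorem Fpf.mem_ins (p : Fpf V) {x : X} (hx : x ∉ p.dom) (y : V x) :
    (⟨x, y⟩ : Σ x, V x) ∈ (p.ins hx y).1 := by
  classical
  exact Finset.mem_insert_self _ _

/-- Two conditions are compatible if they agree. -/
theorem Fpf.exists_le {p q : Fpf V} (h : ∀ a ∈ p.1, ∀ b ∈ q.1, a.1 = b.1 → a = b) :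
    ∃ r : Fpf V, r ≤ p ∧ r ≤ q := by
  classical
  refine ⟨⟨p.1 ∪ q.1, ?_⟩, Finset.subset_union_left, Finset.subset_union_right⟩
  intro a ha b hb hab
  rcases Finset.mem_union.1 ha with ha | ha <;> rcases Finset.mem_union.1 hb with hb | hb
  · exact p.2 a ha b hb hab
  · exact h a ha b hb hab
  · exact (h b hb a ha hab.symm).symm
  · exact q.2 a ha b hb hab

/-- The values of the generic function at `x`. -/
def Fpf.val (x : X) (y : V x) : RO (Fpf V) := RO.gen {p | (⟨x, y⟩ : Σ x, V x) ∈ p.1}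

theorem Fpf.val_inf (x : X) (y y' : V x) (h : y ≠ y') : Fpf.val x y ⊓ Fpf.val x y' = ⊥ := by
  by_contra hcon
  obtain ⟨p, hp, hp'⟩ := RO.ne_bot_iff.1 hcon
  obtain ⟨r, hr, a, ha, hra⟩ := hp p le_rfl
  obtain ⟨r', hr', a', ha', hra'⟩ := hp' r hr
  have h1 : (⟨x, y⟩ : Σ x, V x) ∈ r'.1 := hr' (hra ha)
  have h2 : (⟨x, y'⟩ : Σ x, V x) ∈ r'.1 := hra' ha'
  have h3 := r'.2 _ h1 _ h2 rfl
  exact h (by simpa using h3)

theorem Fpf.mem_val {p : Fpf V} {x : X} {y : V x} (h : (⟨x, y⟩ : Σ x, V x) ∈ p.1) :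
    p ∈ Fpf.val x y := fun q hq => ⟨q, le_rfl, p, h, hq⟩

/-! ### The chain condition -/

/-- Among `δ` conditions with `n` elements, `δ` ones are pairwise compatible. -/
theorem Fpf.exists_compat {δ : Cardinal.{0}} (hδ : δ.IsRegular)
    (hV : ∀ x, #(V x) < δ) (n : ℕ) : ∀ (A : Type) (c : A → Fpf V), δ ≤ #A →
    (∀ a, (c a).1.card = n) → ∃ B : Set A, δ ≤ #B ∧ ∀ a ∈ B, ∀ b ∈ B,
      ∀ u ∈ (c a).1, ∀ v ∈ (c b).1, u.1 = v.1 → u = v := by
  classical
  induction n with
  | zero =>
    intro A c hA hc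
    refine ⟨Set.univ, by rwa [mk_univ], fun a _ b _ u hu => ?_⟩
    rw [Finset.card_eq_zero.1 (hc a)] at hu
    simp at hu
  | succ n ih =>
    intro A c hA hc
    have hcof : ∀ x, #(V x) < δ.ord.cof := fun x => by rw [hδ.cof_ord]; exact hV x
    by_cases hx : ∃ x, δ ≤ #{a | x ∈ (c a).dom}
    · obtain ⟨x, hx⟩ := hx
      have h1 : ∀ a : {a | x ∈ (c a).dom}, ∃ y : V x, (⟨x, y⟩ : Σ x, V x) ∈ (c a.1).1 :=
        fun a => Fpf.mem_dom.1 a.2
      choose y hy using h1
      obtain ⟨y0, hy0⟩ := infinite_pigeonhole_card y δ hx hδ.aleph0_le (hcof x)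
      obtain ⟨B, hB, hB'⟩ := ih (y ⁻¹' {y0})
        (fun a => ⟨(c a.1.1).1.erase ⟨x, y0⟩, fun u hu v hv huv =>
          (c a.1.1).2 u (Finset.mem_of_mem_erase hu) v (Finset.mem_of_mem_erase hv) huv⟩) hy0
        (by
          intro a
          have h2 : (⟨x, y0⟩ : Σ x, V x) ∈ (c a.1.1).1 := by
            have h3 := hy a.1
            rwa [show y a.1 = y0 from a.2] at h3
          change ((c a.1.1).1.erase ⟨x, y0⟩).card = n
          rw [Finset.card_erase_of_mem h2, hc]
          rfl)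
      refine ⟨(fun a : (y ⁻¹' {y0} : Set _) => a.1.1) '' B, ?_, ?_⟩
      · rw [mk_image_eq]
        · exact hB
        · intro a b hab
          exact Subtype.ext (Subtype.ext hab)
      · rintro _ ⟨a, ha, rfl⟩ _ ⟨b, hb, rfl⟩ u hu v hv huv
        have hmem : ∀ a : (y ⁻¹' {y0} : Set _), (⟨x, y0⟩ : Σ x, V x) ∈ (c a.1.1).1 := by
          intro a
          have h3 := hy a.1
          rwa [show y a.1 = y0 from a.2] at h3
        by_cases hu' : u = ⟨x, y0⟩
        · subst hu'
          exact (c b.1.1).2 _ (hmem b) _ hv huv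
        · by_cases hv' : v = ⟨x, y0⟩
          · subst hv'
            exact (c a.1.1).2 _ hu _ (hmem a) huv
          · exact hB' a ha b hb u (Finset.mem_erase.2 ⟨hu', hu⟩) v (Finset.mem_erase.2 ⟨hv', hv⟩)
              huv
    · push Not at hx
      obtain ⟨B, hB⟩ := zorn_subset {B : Set A | ∀ a ∈ B, ∀ b ∈ B, a ≠ b →
        Disjoint (c a).dom (c b).dom} (by
          intro 𝒞 h𝒞 hchain
          refine ⟨⋃₀ 𝒞, ?_, fun s hs => Set.subset_sUnion_of_mem hs⟩
          rintro a ⟨s, hs, ha⟩ b ⟨t, ht, hb⟩ hab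
          rcases hchain.total hs ht with h | h
          · exact h𝒞 ht a (h ha) b hb hab
          · exact h𝒞 hs a ha b (h hb) hab)
      refine ⟨B, ?_, ?_⟩
      · by_contra hcon
        rw [not_le] at hcon
        have h1 : #(B ∪ ⋃ a ∈ B, ⋃ x ∈ (↑(c a).dom : Set X), {b | x ∈ (c b).dom} : Set A) < δ := by
          refine (mk_union_le _ _).trans_lt (add_lt_of_lt hδ.aleph0_le hcon ?_)
          rw [card_biUnion_lt_iff_forall_of_isRegular hδ hcon]
          intro a ha
          rw [card_biUnion_lt_iff_forall_of_isRegular hδ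
            ((lt_aleph0_of_finite _).trans_le hδ.aleph0_le)]
          intro x _
          exact hx x
        have h2 : ∃ a, a ∉ (B ∪ ⋃ a ∈ B, ⋃ x ∈ (↑(c a).dom : Set X), {b | x ∈ (c b).dom} :
            Set A) := by
          by_contra h3
          push Not at h3
          rw [Set.eq_univ_of_forall h3, mk_univ] at h1
          exact absurd hA (not_le.2 h1)
        obtain ⟨a, ha⟩ := h2
        rw [Set.mem_union, not_or] at ha
        have h3 : ∀ b ∈ B, Disjoint (c a).dom (c b).dom := by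
          intro b hb
          rw [Finset.disjoint_left]
          intro x hxa hxb
          refine ha.2 ?_
          rw [Set.mem_iUnion₂]
          refine ⟨b, hb, ?_⟩
          rw [Set.mem_iUnion₂]
          exact ⟨x, Finset.mem_coe.2 hxb, hxa⟩
        have h4 : insert a B ⊆ B := by
          refine hB.2 ?_ (Set.subset_insert _ _)
          rintro u hu v hv huv
          rcases Set.mem_insert_iff.1 hu with hu1 | hu1
          · rcases Set.mem_insert_iff.1 hv with hv1 | hv1
            · exact absurd (hu1.trans hv1.symm) huv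
            · rw [hu1]
              exact h3 v hv1
          · rcases Set.mem_insert_iff.1 hv with hv1 | hv1
            · rw [hv1]
              exact (h3 u hu1).symm
            · exact hB.1 u hu1 v hv1 huv
        exact ha.1 (h4 (Set.mem_insert _ _))
      · intro a ha b hb u hu v hv huv
        by_cases hab : a = b
        · subst hab
          exact (c a).2 u hu v hv huv
        · exfalso
          have h5 := hB.1 a ha b hb hab
          rw [Finset.disjoint_left] at h5
          refine h5 (Fpf.mem_dom.2 ⟨u.2, hu⟩) ?_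
          rw [huv]
          exact Fpf.mem_dom.2 ⟨v.2, hv⟩

theorem Fpf.isKnaster {δ : Cardinal.{0}} (hδ : δ.IsRegular) (hδ' : ℵ₀ < δ) (hX : #X ≤ δ)
    (hV : ∀ x, #(V x) < δ) : IsKnaster δ (Fpf V) where
  card := by
    have h1 : #(Σ x, V x) ≤ δ := by
      rw [mk_sigma]
      refine (sum_le_mk_mul_iSup _).trans ?_
      calc #X * ⨆ x, #(V x) ≤ δ * δ := mul_le_mul' hX (ciSup_le' fun x => (hV x).le)
        _ = δ := mul_eq_self hδ.aleph0_le
    have h2 : #(Σ x, V x) ≤ #δ.ord.ToType := by rwa [mk_ord_toType]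
    obtain ⟨f⟩ := h2
    have : Infinite δ.ord.ToType := by
      rw [infinite_iff, mk_ord_toType]
      exact hδ.aleph0_le
    calc #(Fpf V) ≤ #(Finset (Σ x, V x)) := mk_subtype_le _
      _ ≤ #(Finset δ.ord.ToType) := mk_le_of_injective (Finset.map_injective f)
      _ = #δ.ord.ToType := mk_finset_of_infinite _
      _ = δ := mk_ord_toType δ
  knaster A c hA := by
    obtain ⟨n, hn⟩ := infinite_pigeonhole_card (fun a => (c a).1.card) δ hA hδ.aleph0_le
      (by rw [hδ.cof_ord, mk_nat]; exact hδ')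
    obtain ⟨B, hB, hB'⟩ := Fpf.exists_compat hδ hV n
      ((fun a => (c a).1.card) ⁻¹' {n}) (fun a => c a.1) hn (fun a => a.2)
    refine ⟨Subtype.val '' B, ?_, ?_⟩
    · rw [mk_image_eq Subtype.val_injective]
      exact hB
    · rintro _ ⟨a, ha, rfl⟩ _ ⟨b, hb, rfl⟩
      exact Fpf.exists_le (hB' a ha b hb)

end Fpf

/-! ### The Levy collapse -/

/-- The Levy collapse. -/
theorem exists_col {δ : Cardinal.{0}} (hδ : IsInaccessible δ) :
    ∃ (C : Type) (_ : Preorder C) (_ : OrderTop C), IsKnaster δ C ∧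
      ∀ α : Ordinal.{0}, α ≠ 0 → α < δ.ord → ∃ F : ℕ → α.ToType → RO C, OntoV F := by
  classical
  let V : δ.ord.ToType × ℕ → Type := fun x =>
    (Ordinal.typein (α := δ.ord.ToType) (· < ·) x.1).ToType
  refine ⟨Fpf V, inferInstance, inferInstance, Fpf.isKnaster hδ.isRegular hδ.1 ?_ ?_, ?_⟩
  · rw [mk_prod, mk_ord_toType, mk_nat, lift_id, lift_id]
    exact (mul_eq_left hδ.1.le hδ.1.le aleph0_ne_zero).le
  · intro x
    change #(Ordinal.typein (α := δ.ord.ToType) (· < ·) x.1).ToType < δ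
    rw [← Ordinal.card_type (α := (Ordinal.typein (α := δ.ord.ToType) (· < ·) x.1).ToType)
      (· < ·), Ordinal.type_toType]
    exact lt_ord.1 (Ordinal.typein_lt_self x.1)
  · intro α hα hαδ
    obtain ⟨d, hd⟩ := Ordinal.typein_surj (α := δ.ord.ToType) (· < ·)
      (o := α) (by rwa [Ordinal.type_toType])
    subst hd
    refine ⟨fun n b => Fpf.val (V := V) (d, n) b, ?_, ?_, ?_⟩
    · intro n b b' hb
      exact Fpf.val_inf (V := V) (d, n) b b' hb
    · intro n
      refine top_unique fun p _ => ?_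
      rw [RO.mem_iSup]
      intro q hq
      by_cases h : (d, n) ∈ q.dom
      · obtain ⟨y, hy⟩ := Fpf.mem_dom.1 h
        exact ⟨q, le_rfl, y, Fpf.mem_val hy⟩
      · have : Nonempty (Ordinal.typein (α := δ.ord.ToType) (· < ·) d).ToType :=
          Ordinal.nonempty_toType_iff.2 hα
        let y : V (d, n) := Classical.arbitrary (Ordinal.typein (α := δ.ord.ToType) (· < ·) d).ToType
        exact ⟨q.ins h y, q.ins_le h y, y, Fpf.mem_val (q.mem_ins h y)⟩
    · intro b
      refine top_unique fun p _ => ?_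
      rw [RO.mem_iSup]
      intro q hq
      obtain ⟨n, hn⟩ : ∃ n : ℕ, (d, n) ∉ q.dom := by
        have h1 : ((fun n : ℕ => (d, n)) ⁻¹' (↑q.dom : Set (δ.ord.ToType × ℕ))).Finite :=
          q.dom.finite_toSet.preimage (fun a _ b _ hab => (Prod.ext_iff.1 hab).2)
        obtain ⟨n, hn⟩ := h1.exists_notMem
        exact ⟨n, fun h => hn h⟩
      exact ⟨q.ins hn b, q.ins_le hn b, n, Fpf.mem_val (q.mem_ins hn b)⟩

/-! ### Lifting -/

section Lift

variable {C S J : Type} [Preorder C] [LT S] {T : Pat J} {Z : S → J → Set (Raw C S)}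

/-- The component `C` of a condition is strengthened. -/
def PS.upd (p : PS T Z) (c : C) (hc : c ≤ p.1.c) : PS T Z :=
  ⟨⟨c, p.1.f, p.1.fin⟩, fun s j h => by
    obtain ⟨b, hb, hpb⟩ := p.2 s j h
    exact ⟨b, hb, hc.trans hpb.1, hpb.2⟩⟩

theorem PS.upd_le (p : PS T Z) (c : C) (hc : c ≤ p.1.c) : p.upd c hc ≤ p :=
  ⟨hc, fun _ => Dat.Le.refl _ _⟩

/-- Truth values of `C` as truth values of the poset. -/
def liftC (T : Pat J) (Z : S → J → Set (Raw C S)) (U : RO C) : RO (PS T Z) where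
  carrier := {p | p.1.c ∈ U}
  lower p hp q hq := RO.mem_lower hq.1 hp
  reg p hp := by
    refine RO.mem_reg fun c hc => ?_
    obtain ⟨r, hr, hr'⟩ := hp (p.upd c hc) (p.upd_le c hc)
    exact ⟨r.1.c, hr.1, hr'⟩

theorem mem_liftC {U : RO C} {p : PS T Z} : p ∈ liftC T Z U ↔ p.1.c ∈ U := Iff.rfl

theorem liftC_inf (U U' : RO C) (h : U ⊓ U' = ⊥) : liftC T Z U ⊓ liftC T Z U' = ⊥ := by
  refine le_bot_iff.1 fun p hp => ?_
  have h1 : p.1.c ∈ U ⊓ U' := ⟨hp.1, hp.2⟩
  rw [h] at h1
  exact absurd h1 (RO.not_mem_bot _)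

theorem liftC_iSup {ι : Type} (U : ι → RO C) (h : ⨆ i, U i = ⊤) :
    ⨆ i, liftC T Z (U i) = ⊤ := by
  refine top_unique fun p _ => ?_
  rw [RO.mem_iSup]
  intro q _
  have h1 : q.1.c ∈ ⨆ i, U i := by
    rw [h]
    exact RO.mem_top _
  obtain ⟨c, hc, i, hi⟩ := RO.mem_iSup.1 h1 q.1.c le_rfl
  exact ⟨q.upd c hc, q.upd_le c hc, i, hi⟩

end Lift

/-- Names for the component `C` give names for the poset. -/
theorem onto_lift {C S J : Type} [Preorder C] [LT S] (T : Pat J) (Z : S → J → Set (Raw C S))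
    {X : Type} {F : ℕ → X → RO C} (hF : OntoV F) : ∃ F' : ℕ → X → RO (PS T Z), OntoV F' :=
  ⟨fun n b => liftC T Z (F n b), fun n b b' hb => liftC_inf _ _ (hF.disj n b b' hb),
    fun n => liftC_iSup _ (hF.tot n), fun b => liftC_iSup _ (hF.onto b)⟩

end Pool.Agent.Helper2.SW
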