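import Pool.Agent.Helper2.SW.Book
import Pool.Agent.Helper2.SW.Bwo
import Pool.Agent.Helper2.SW.NC
import Pool.Agent.Helper2.SW.CC
import Pool.Agent.Helper2.SW.Col
import Pool.Agent.Helper95.SW.Cnt
import Pool.Agent.Helper20.SW.Tour2
import Pool.Agent.Helper23.SC.Inac

/-!
# Project SW: the forcing

For a supercompact cardinal `κ` there are an inaccessible cardinal `δ < κ` and a poset `P` with
`#P < κ` and the `δ`-chain condition which collapses the ordinals below `δ` and has the Boolean
valued well-order of the reals.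
-/

set_option autoImplicit false

namespace Pool.Agent.Helper2.SW

open Cardinal Set Pool.Agent.Helper33.HM Pool.Agent.Helper23.XB Pool.Agent.Helper23.SC
open Pool.Agent.Helper20.SW (TW)

theorem exists_forcing {κ : Cardinal.{0}} (hκ : Supercompact κ) :
    ∃ (δ : Cardinal.{0}) (P : Type) (_ : Preorder P) (_ : OrderTop P), IsInaccessible δ ∧
      #P < κ ∧ CC δ P ∧
      (∀ α : Ordinal.{0}, α ≠ 0 → α < δ.ord → ∃ F : ℕ → α.ToType → RO P, OntoV F) ∧
      Nonempty (BWO P (Order.succ δ).ord.ToType TW) := by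
  obtain ⟨δ, hδκ, hδ⟩ := exists_inaccessible_lt κ hκ
  have hκi := supercompact_inaccessible κ hκ
  have hδ0 : ℵ₀ < δ := hδ.aleph0_lt
  obtain ⟨C, _, _, hC, hcol⟩ := exists_col hδ
  have hI := isSuccType_ord hδ0.le
  have := hI.wf
  obtain ⟨Z, A, pr, hB⟩ := exists_book (C := C) TW hδ hI hC
  refine ⟨δ, PS TW Z, inferInstance, inferInstance, hδ, ?_, cc_ps TW Z hδ.isRegular hδ0 hC,
    ?_, book_bwo hδ hI hC hB⟩
  · have h1 : Order.succ δ < κ := hκi.isStrongLimit.isSuccLimit.succ_lt hδκ
    refine lt_of_le_of_lt ?_ h1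
    refine (mk_subtype_le _).trans ?_
    exact mk_raw (hδ0.le.trans (Order.le_succ δ)) (hC.card.trans (Order.le_succ δ))
      (by rw [mk_toType, card_ord])
  · intro α h0 hα
    obtain ⟨F, hF⟩ := hcol α h0 hα
    exact onto_lift TW Z hF

end Pool.Agent.Helper2.SW
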