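import Pool.Agent.Helper2.SW.MergeLt

/-!
# Project SW: the truth values of the conditions with support in a closed set

`Red P Q`: `Q` is a complete suborder of `P`, with a reduction `π : P → Q`. The regular open sets of
`Q` are lifted to regular open sets of `P`; the lift commutes with all operations. This is applied to
the valid conditions with support in a closed set `X`.
-/

set_option autoImplicit false

namespace Pool.Agent.Helper2.SW

open Set Pool.Agent.Helper33.HM

/-! ### Reductions -/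

/-- `e` is a complete embedding of `Q` in `P`, with the reduction `π`. -/
structure Red {P Q : Type} [Preorder P] [Preorder Q] (π : P → Q) (e : Q → P) : Prop where
  mono : ∀ p p', p ≤ p' → π p ≤ π p'
  emono : ∀ q q', q ≤ q' → e q ≤ e q'
  le : ∀ p, p ≤ e (π p)
  pe : ∀ q, π (e q) ≤ q
  ep : ∀ q, q ≤ π (e q)
  amal : ∀ p q, q ≤ π p → ∃ r, r ≤ p ∧ r ≤ e q

namespace Red

variable {P Q : Type} [Preorder P] [Preorder Q] {π : P → Q} {e : Q → P} (h : Red π e)

/-- The regular open set of the conditions whose reduction is in `U`. -/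
def lift (U : RO Q) : RO P where
  carrier := {p | π p ∈ U}
  lower p hp q hq := RO.mem_lower (h.mono q p hq) hp
  reg p hp := RO.mem_reg fun t ht => by
    obtain ⟨r, hr, hr'⟩ := h.amal p t ht
    obtain ⟨r', hr1, hr2⟩ := hp r hr
    exact ⟨π r', (h.mono _ _ (hr1.trans hr')).trans (h.pe t), hr2⟩

theorem mem_lift {U : RO Q} {p : P} : p ∈ h.lift U ↔ π p ∈ U := Iff.rfl

theorem lift_le_iff {U V : RO Q} : h.lift U ≤ h.lift V ↔ U ≤ V := by
  constructor
  · intro h1 q hq
    have h2 : e q ∈ h.lift U := show π (e q) ∈ U from RO.mem_lower (h.pe q) hq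
    exact RO.mem_lower (h.ep q) (h1 _ h2)
  · exact fun h1 p hp => h1 _ hp

theorem lift_mono {U V : RO Q} (hUV : U ≤ V) : h.lift U ≤ h.lift V := h.lift_le_iff.2 hUV

theorem lift_injective : Function.Injective h.lift := fun _ _ hUV =>
  le_antisymm (h.lift_le_iff.1 hUV.le) (h.lift_le_iff.1 hUV.ge)

theorem lift_inj {U V : RO Q} : h.lift U = h.lift V ↔ U = V := h.lift_injective.eq_iff

theorem lift_top : h.lift ⊤ = ⊤ := rfl

theorem lift_bot : h.lift ⊥ = ⊥ := rfl

theorem lift_inf (U V : RO Q) : h.lift (U ⊓ V) = h.lift U ⊓ h.lift V := rfl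

theorem lift_iInf {ι : Sort*} (f : ι → RO Q) : h.lift (⨅ i, f i) = ⨅ i, h.lift (f i) := by
  apply RO.ext'
  intro p
  rw [mem_lift, RO.mem_iInf, RO.mem_iInf]
  rfl

theorem lift_compl (U : RO Q) : h.lift Uᶜ = (h.lift U)ᶜ := by
  apply RO.ext'
  intro p
  rw [mem_lift, RO.mem_compl, RO.mem_compl]
  constructor
  · exact fun h1 r hr => h1 _ (h.mono _ _ hr)
  · intro h1 t ht htU
    obtain ⟨r, hr, hr'⟩ := h.amal p t ht
    exact h1 r hr (show π r ∈ U from RO.mem_lower ((h.mono _ _ hr').trans (h.pe t)) htU)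

theorem lift_himp (U V : RO Q) : h.lift (U ⇨ V) = h.lift U ⇨ h.lift V := by
  apply RO.ext'
  intro p
  rw [mem_lift, RO.mem_himp, RO.mem_himp]
  constructor
  · exact fun h1 r hr hrU => h1 _ (h.mono _ _ hr) hrU
  · intro h1 t ht htU
    refine RO.mem_reg fun t' ht' => ?_
    obtain ⟨r, hr, hr'⟩ := h.amal p t' (ht'.trans ht)
    have h2 : π r ≤ t' := (h.mono _ _ hr').trans (h.pe t')
    exact ⟨π r, h2, h1 r hr (show π r ∈ U from RO.mem_lower (h2.trans ht') htU)⟩

theorem lift_iSup {ι : Sort*} (f : ι → RO Q) : h.lift (⨆ i, f i) = ⨆ i, h.lift (f i) := by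
  have h1 : h.lift (⨆ i, f i) = (h.lift (⨆ i, f i)ᶜ)ᶜ := by
    rw [lift_compl, compl_compl]
  rw [h1, compl_iSup, lift_iInf]
  simp_rw [lift_compl]
  rw [compl_iInf]
  simp_rw [compl_compl]

theorem lift_sup (U V : RO Q) : h.lift (U ⊔ V) = h.lift U ⊔ h.lift V := by
  have h1 : h.lift (U ⊔ V) = (h.lift (U ⊔ V)ᶜ)ᶜ := by
    rw [lift_compl, compl_compl]
  rw [h1, compl_sup, lift_inf, lift_compl, lift_compl, compl_inf, compl_compl, compl_compl]

theorem lift_gen (A : Set Q) : h.lift (RO.gen A) = RO.gen (e '' A) := by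
  apply RO.ext'
  intro p
  rw [mem_lift, RO.mem_gen, RO.mem_gen]
  constructor
  · intro h1 r hr
    obtain ⟨t, ht, a, ha, hta⟩ := h1 _ (h.mono _ _ hr)
    obtain ⟨r', hr1, hr2⟩ := h.amal r t ht
    exact ⟨r', hr1, e a, ⟨a, ha, rfl⟩, hr2.trans (h.emono _ _ hta)⟩
  · intro h1 t ht
    obtain ⟨r, hr, hr'⟩ := h.amal p t ht
    obtain ⟨r', hr1, _, ⟨a, ha, rfl⟩, hra⟩ := h1 r hr
    exact ⟨π r', (h.mono _ _ (hr1.trans hr')).trans (h.pe t), a, ha,
      (h.mono _ _ hra).trans (h.pe a)⟩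

theorem lift_eqv (x y : ℕ → RO Q) :
    h.lift (eqv x y) = eqv (fun n => h.lift (x n)) (fun n => h.lift (y n)) := by
  unfold eqv
  rw [lift_iInf]
  simp_rw [lift_inf, lift_himp]

theorem lift_bit (b : Bool) (U : RO Q) : h.lift (bit b U) = bit b (h.lift U) := by
  cases b
  · exact h.lift_compl U
  · rfl

theorem lift_pre (j : Wd) (x y : ℕ → RO Q) :
    h.lift (pre j x y) = pre j (fun n => h.lift (x n)) (fun n => h.lift (y n)) := by
  unfold pre
  rw [lift_iInf]
  simp_rw [lift_inf, lift_bit]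

end Red

/-! ### The conditions with a property -/

section PV

variable {C S J : Type} [Preorder C] [LT S]

/-- The poset of the raw conditions with the property `V`. -/
def PV (V : Raw C S → Prop) : Type := {p : Raw C S // V p}

instance (V : Raw C S → Prop) : Preorder (PV V) where
  le p q := p.1.Le lt3 q.1
  le_refl p := Raw.Le.refl p.1
  le_trans _ _ _ h h' := h.trans h'

theorem PV.le_iff {V : Raw C S → Prop} {p q : PV V} : p ≤ q ↔ p.1.Le lt3 q.1 := Iff.rfl

/-- Valid conditions with support in `X`. -/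
def VX (T : Pat J) (Z : S → J → Set (Raw C S)) (X : Set S) (p : Raw C S) : Prop :=
  Valid T Z p ∧ p.On X

/-- Validity depends only on the codes of the stages of the condition. -/
theorem valid_congr {T : Pat J} {Z Z' : S → J → Set (Raw C S)} {p : Raw C S}
    (h : ∀ s, p.f s ≠ Dat.emp → Z s = Z' s) (hp : Valid T Z p) : Valid T Z' p := by
  intro s j hj
  rw [← h s (cp_ne_emp hj)]
  exact hp s j hj

theorem VX_congr {T : Pat J} {Z Z' : S → J → Set (Raw C S)} {X : Set S}
    (h : ∀ s ∈ X, Z s = Z' s) : VX T Z X = VX T Z' X := by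
  funext p
  apply propext
  constructor
  · exact fun h1 => ⟨valid_congr (fun s hs => h s (h1.2.1 s hs)) h1.1, h1.2⟩
  · exact fun h1 => ⟨valid_congr (fun s hs => (h s (h1.2.1 s hs)).symm) h1.1, h1.2⟩

/-- The truth values of the subset of `ℕ` coded by `A`, for the poset given by `V`. -/
def rlzV (V : Raw C S → Prop) (A : ℕ → Set (Raw C S)) (n : ℕ) : RO (PV V) :=
  RO.gen {p | p.1 ∈ A n}

end PV

/-! ### The conditions with support in a closed set -/

section PX

variable {C S J : Type} [Preorder C] [LinearOrder S] {T : Pat J} {Z : S → J → Set (Raw C S)}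
  {X : Set S}

/-- The reduction of a condition to `X`. -/
noncomputable def redX (hX : Closed Z X) (p : PS T Z) : PV (VX T Z X) :=
  ⟨p.1.res X, valid_res hX p.2, res_on X p.1⟩

/-- The embedding of the conditions on `X`. -/
def embX (q : PV (VX T Z X)) : PS T Z := ⟨q.1, q.2.1⟩

theorem red_redX (hX : Closed Z X) : Red (redX (T := T) hX) embX where
  mono p p' h := res_mono (show p.1.Le lt3 p'.1 from h) X
  emono q q' h := h
  le p := le_res lt3 X p.1
  pe q := by
    change (q.1.res X).Le lt3 q.1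
    rw [res_of_on q.2.2]
    exact Raw.Le.refl _
  ep q := by
    change q.1.Le lt3 (q.1.res X)
    rw [res_of_on q.2.2]
    exact Raw.Le.refl _
  amal p q h := by
    obtain ⟨r, h1, h2, h3, -⟩ := merge_lt (p := p.1) (q := q.1) p.2 q.2.1 q.2.2 h
    exact ⟨⟨r, h1⟩, h2, h3⟩

/-- The set of the conditions generated by raw conditions with support in `X` is lifted. -/
theorem lift_gen_raw (hX : Closed Z X) {N : Set (Raw C S)} (hN : ∀ p ∈ N, Valid T Z p → p.On X) :
    (red_redX (T := T) hX).lift (RO.gen {p | p.1 ∈ N}) = RO.gen {p : PS T Z | p.1 ∈ N} := by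
  rw [Red.lift_gen]
  congr 1
  ext p
  constructor
  · rintro ⟨q, hq, rfl⟩
    exact hq
  · intro hp
    exact ⟨⟨p.1, p.2, hN _ hp p.2⟩, hp, rfl⟩

theorem lift_rlz {S : Type} [LinearOrder S] {Z : S → Wd → Set (Raw C S)} {T : Pat Wd}
    {X : Set S} (hX : Closed Z X) {A : ℕ → Set (Raw C S)}
    (hA : ∀ n, ∀ p ∈ A n, Valid T Z p → p.On X) (n : ℕ) :
    (red_redX (T := T) hX).lift (rlzV (VX T Z X) A n) = rlz T Z A n :=
  lift_gen_raw hX (hA n)

end PX

section FstV

variable {C I : Type} [Preorder C] [LinearOrder I]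

/-- The value, for the poset given by `V`, of: the set coded by `A b` is different from the sets
coded by `A b'`, `b' < b`. -/
def fstV (V : Raw C I → Prop) (A : I → ℕ → Set (Raw C I)) (b : I) : RO (PV V) :=
  ⨅ b', ⨅ _ : b' < b, (eqv (rlzV V (A b')) (rlzV V (A b)))ᶜ

/-- The value, for the poset given by `V`, of: `j` does not belong to the set of the pair `pr`. -/
def evV (V : Raw C I → Prop) (A : I → ℕ → Set (Raw C I)) (pr : I × I) (j : Wd) : RO (PV V) :=
  (fstV V A pr.1 ⊓ fstV V A pr.2 ⊓ pre j (rlzV V (A pr.1)) (rlzV V (A pr.2)))ᶜ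

variable {T : Pat Wd} {Z : I → Wd → Set (Raw C I)} {X : Set I} (hX : Closed Z X)
  {A : I → ℕ → Set (Raw C I)}

theorem lift_fstV (b : I) (hA : ∀ b', b' ≤ b → ∀ n, ∀ p ∈ A b' n, Valid T Z p → p.On X) :
    (red_redX (T := T) hX).lift (fstV (VX T Z X) A b) = fst T Z A b := by
  unfold fstV fst
  rw [Red.lift_iInf]
  refine iInf_congr fun b' => ?_
  rw [Red.lift_iInf]
  refine iInf_congr fun hb' => ?_
  rw [Red.lift_compl, Red.lift_eqv]
  congr 2
  · funext n
    exact lift_rlz hX (hA b' hb'.le) n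
  · funext n
    exact lift_rlz hX (hA b le_rfl) n

theorem lift_evV (pr : I × I) (hlt : pr.1 < pr.2) (j : Wd)
    (hA : ∀ b', b' ≤ pr.2 → ∀ n, ∀ p ∈ A b' n, Valid T Z p → p.On X) :
    (red_redX (T := T) hX).lift (evV (VX T Z X) A pr j) =
      (fst T Z A pr.1 ⊓ fst T Z A pr.2 ⊓ pre j (rlz T Z (A pr.1)) (rlz T Z (A pr.2)))ᶜ := by
  unfold evV
  rw [Red.lift_compl, Red.lift_inf, Red.lift_inf, Red.lift_pre,
    lift_fstV hX pr.1 fun b' hb' => hA b' (hb'.trans hlt.le), lift_fstV hX pr.2 hA]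
  congr 3
  · funext n
    exact lift_rlz hX (hA pr.1 hlt.le) n
  · funext n
    exact lift_rlz hX (hA pr.2 le_rfl) n

include hX in
/-- If the codes `N` of a stage generate the event in the small poset, they generate it in the
poset. -/
theorem ev_of_evV (pr : I × I) (hlt : pr.1 < pr.2) (j : Wd)
    (hA : ∀ b', b' ≤ pr.2 → ∀ n, ∀ p ∈ A b' n, Valid T Z p → p.On X) {N : Set (Raw C I)}
    (hN : ∀ p ∈ N, Valid T Z p → p.On X)
    (h : RO.gen {p : PV (VX T Z X) | p.1 ∈ N} = evV (VX T Z X) A pr j) :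
    RO.gen {p : PS T Z | p.1 ∈ N} =
      (fst T Z A pr.1 ⊓ fst T Z A pr.2 ⊓ pre j (rlz T Z (A pr.1)) (rlz T Z (A pr.2)))ᶜ := by
  rw [← lift_evV hX pr hlt j hA, ← h, lift_gen_raw hX hN]

end FstV

section PX

variable {C S J : Type} [Preorder C] [LinearOrder S] {T : Pat J} {Z : S → J → Set (Raw C S)}
  {X : Set S}

/-- The two posets of the conditions with support in `X ⊆ Y`. -/
theorem red_VX {Y : Set S} (hXY : X ⊆ Y) (hX : Closed Z X) :
    Red (P := PV (VX T Z Y)) (Q := PV (VX T Z X))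
      (fun p => ⟨p.1.res X, valid_res hX p.2.1, res_on X p.1⟩)
      (fun q => ⟨q.1, q.2.1, q.2.2.mono hXY⟩) where
  mono p p' h := res_mono (show p.1.Le lt3 p'.1 from h) X
  emono q q' h := h
  le p := le_res lt3 X p.1
  pe q := by
    change (q.1.res X).Le lt3 q.1
    rw [res_of_on q.2.2]
    exact Raw.Le.refl _
  ep q := by
    change q.1.Le lt3 (q.1.res X)
    rw [res_of_on q.2.2]
    exact Raw.Le.refl _
  amal p q h := by
    obtain ⟨r, h1, h2, h3, h4⟩ := merge_lt (p := p.1) (q := q.1) p.2.1 q.2.1 q.2.2 h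
    exact ⟨⟨r, h1, h4 Y p.2.2 (q.2.2.mono hXY)⟩, h2, h3⟩

end PX

end Pool.Agent.Helper2.SW
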