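import Pool.Agent.Helper48.SW.Enum
import Pool.Agent.Helper2.SW.Lift
import Pool.Agent.Helper2.SW.CC
import Pool.Agent.Helper2.SW.SRep

/-!
# Project SW, module Book: the bookkeeping
-/

set_option autoImplicit false

namespace Pool.Agent.Helper2.SW

open Cardinal Set Pool.Agent.Helper33.HM

variable {C I : Type} [Preorder C] [LinearOrder I]

/-- The codes `N` are good codes for the stage `s` of the poset given by `V`. -/
def GoodN (δ : Cardinal.{0}) (A : I → ℕ → Set (Raw C I)) (pr : I × I) (V : Raw C I → Prop)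
    (N : Wd → Set (Raw C I)) : Prop :=
  ∀ j, #(N j) < δ ∧ (∀ p ∈ N j, V p) ∧ RO.gen {p : PV V | p.1 ∈ N j} = evV V A pr j

theorem cc_VX {J : Type} (T : Pat J) (Z : I → J → Set (Raw C I)) {δ : Cardinal.{0}}
    (hδ : δ.IsRegular) (hδ' : ℵ₀ < δ) (hC : IsKnaster δ C) (X : Set I) :
    CC δ (PV (VX T Z X)) := by
  intro A hA
  rw [← mk_image_eq (f := fun p : PV (VX T Z X) => p.1) (s := A) Subtype.val_injective]
  refine cc_on T Z hδ hδ' hC X _ ?_ ?_
  · rintro _ ⟨p, -, rfl⟩
    exact p.2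
  · rintro _ ⟨p, hp, rfl⟩ _ ⟨q, hq, rfl⟩ hpq ⟨z, hz, hz', h1, h2⟩
    exact hA p hp q hq (fun h => hpq (by rw [h])) ⟨⟨z, hz, hz'⟩, h1, h2⟩

theorem exists_goodN (T : Pat Wd) (Z : I → Wd → Set (Raw C I)) {δ : Cardinal.{0}}
    (hδ : δ.IsRegular) (hδ' : ℵ₀ < δ) (hC : IsKnaster δ C) (A : I → ℕ → Set (Raw C I))
    (pr : I × I) (X : Set I) : ∃ N, GoodN δ A pr (VX T Z X) N := by
  choose B hB hB' using fun j => exists_small (cc_VX T Z hδ hδ' hC X)
    (evV (VX T Z X) A pr j)
  refine ⟨fun j => (fun p : PV (VX T Z X) => p.1) '' B j, fun j => ⟨?_, ?_, ?_⟩⟩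
  · exact mk_image_le.trans_lt (hB j)
  · rintro _ ⟨p, -, rfl⟩
    exact p.2
  · rw [← hB' j]
    congr 1
    ext p
    constructor
    · rintro ⟨q, hq, hqp⟩
      have : q = p := Subtype.ext hqp
      rwa [← this]
    · exact fun hp => ⟨p, hp, rfl⟩

theorem exists_book {C I : Type} [Preorder C] [OrderTop C] [LinearOrder I] [WellFoundedLT I]
    (T : Pat Wd) {δ : Cardinal.{0}} (hδ : IsInaccessible δ) (hI : IsSuccType δ I)
    (hC : IsKnaster δ C) : ∃ Z A pr, Book (C := C) (I := I) T δ Z A pr := by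
  classical
  have hω : ℵ₀ < δ := hδ.aleph0_lt
  have hreg : δ.IsRegular := hδ.isRegular
  obtain ⟨A, pr, hA1, hA2, hA3, hA4, hA5⟩ := exists_enum hδ hI hC.card
  let F : (s : I) → ((t : I) → t < s → Wd → Set (Raw C I)) → Wd → Set (Raw C I) := fun s f =>
    Classical.choose (exists_goodN T (fun t => if h : t < s then f t h else fun _ => ∅) hreg hω hC
      A (pr s) (Iio s))
  let Z : I → Wd → Set (Raw C I) := WellFounded.fix (wellFounded_lt (α := I)) F
  have hZ : ∀ s, GoodN δ A (pr s) (VX T Z (Iio s)) (Z s) := by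
    intro s
    have h1 : Z s = F s (fun t _ => Z t) := WellFounded.fix_eq _ _ _
    have h2 : VX T (fun t => if t < s then Z t else fun _ => ∅) (Iio s) = VX T Z (Iio s) :=
      VX_congr fun t ht => if_pos ht
    have h3 : GoodN δ A (pr s) (VX T (fun t => if t < s then Z t else fun _ => ∅) (Iio s))
        (F s (fun t _ => Z t)) :=
      Classical.choose_spec (exists_goodN T (fun t => if h : t < s then Z t else fun _ => ∅) hreg hω
        hC A (pr s) (Iio s))
    rw [h2, ← h1] at h3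
    exact h3
  have hon : ∀ s j, ∀ b ∈ Z s j, b.On (Iio s) := fun s j b hb => ((hZ s j).2.1 b hb).2
  have hcl : ∀ s, Closed Z (Iio s) := fun s t ht j b hb =>
    (hon t j b hb).mono (Iio_subset_Iio (le_of_lt ht))
  refine ⟨Z, A, pr, ?_⟩
  refine ⟨⟨hon, fun s j => (hZ s j).1, fun s j b hb => ((hZ s j).2.1 b hb).1⟩, hA2, hA3, ?_, ?_⟩
  · intro x
    choose B hB hB' using fun n => exists_small (cc_ps T Z hreg hω hC) (x n)
    obtain ⟨b, hb⟩ := hA5 (fun n => (fun p : PS T Z => p.1) '' B n)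
      fun n => mk_image_le.trans_lt (hB n)
    refine ⟨b, ?_⟩
    funext n
    rw [← hB' n, rlz, hb]
    congr 1
    ext p
    constructor
    · rintro ⟨q, hq, hqp⟩
      have : q = p := Subtype.ext hqp
      rwa [← this]
    · exact fun hp => ⟨p, hp, rfl⟩
  · intro s j
    exact ev_of_evV (hcl s) (pr s) (hA2 s) j (fun b' hb' n p hp _ => hA4 s b' hb' n p hp)
      (fun p hp _ => hon s j p hp) (hZ s j).2.2

end Pool.Agent.Helper2.SW
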