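import Pool.Agent.Helper2.SW.Stage

/-!
# Project SW: the Boolean valued well-order
-/

set_option autoImplicit false

namespace Pool.Agent.Helper2.SW

open Cardinal Set Pool.Agent.Helper33.HM

section Val

variable {P : Type} [Preorder P]

/-- A condition which is not in `U` has an extension in the complement. -/
theorem exists_compl {U : RO P} {p : P} (h : ¬ p ∈ U) : ∃ q, q ≤ p ∧ q ∈ Uᶜ := by
  by_contra hcon
  refine h (RO.mem_reg fun q hq => ?_)
  by_contra hq'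
  exact hcon ⟨q, hq, RO.mem_compl.2 fun r hr hrU => hq' ⟨r, hr, hrU⟩⟩

theorem mem_eqv {x y : ℕ → RO P} {p : P} :
    p ∈ eqv x y ↔ ∀ n, ∀ q, q ≤ p → (q ∈ x n ↔ q ∈ y n) := by
  unfold eqv
  rw [RO.mem_iInf]
  refine forall_congr' fun n => ?_
  rw [RO.mem_inf, RO.mem_himp, RO.mem_himp]
  exact ⟨fun h q hq => ⟨h.1 q hq, h.2 q hq⟩, fun h => ⟨fun q hq => (h q hq).1,
    fun q hq => (h q hq).2⟩⟩

theorem eqv_refl (x : ℕ → RO P) (p : P) : p ∈ eqv x x := mem_eqv.2 fun _ _ _ => Iff.rfl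

theorem eqv_symm {x y : ℕ → RO P} {p : P} (h : p ∈ eqv x y) : p ∈ eqv y x :=
  mem_eqv.2 fun n q hq => (mem_eqv.1 h n q hq).symm

theorem eqv_trans {x y z : ℕ → RO P} {p : P} (h : p ∈ eqv x y) (h' : p ∈ eqv y z) :
    p ∈ eqv x z :=
  mem_eqv.2 fun n q hq => (mem_eqv.1 h n q hq).trans (mem_eqv.1 h' n q hq)

theorem bit_congr {x y : ℕ → RO P} {p : P} (h : p ∈ eqv x y) (b : Bool) (n : ℕ)
    (hp : p ∈ bit b (x n)) : p ∈ bit b (y n) := by
  cases b with
  | true => exact (mem_eqv.1 h n p le_rfl).1 hp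
  | false =>
    exact RO.mem_compl.2 fun q hq hqy => RO.mem_compl.1 hp q hq ((mem_eqv.1 h n q hq).2 hqy)

theorem mem_pre {j : Wd} {x y : ℕ → RO P} {p : P} :
    p ∈ pre j x y ↔ ∀ k : Fin j.length, p ∈ bit (j.get k).1 (x k) ∧ p ∈ bit (j.get k).2 (y k) := by
  unfold pre
  rw [RO.mem_iInf]
  exact forall_congr' fun k => RO.mem_inf

theorem pre_congr {x y x' y' : ℕ → RO P} {p : P} (h : p ∈ eqv x x') (h' : p ∈ eqv y y') {j : Wd}
    (hp : p ∈ pre j x y) : p ∈ pre j x' y' :=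
  mem_pre.2 fun k => ⟨bit_congr h _ _ (mem_pre.1 hp k).1, bit_congr h' _ _ (mem_pre.1 hp k).2⟩

/-- Two different sets are different at a position which is decided by an extension. -/
theorem exists_diff {x z : ℕ → RO P} {p : P} (h : p ∈ (eqv x z)ᶜ) :
    ∃ q, q ≤ p ∧ ∃ n, ∀ b : Bool, ∀ t, t ≤ q → t ∈ bit b (x n) → ¬ t ∈ bit b (z n) := by
  have h1 : ¬ p ∈ eqv x z := RO.mem_compl.1 h p le_rfl
  rw [mem_eqv] at h1
  push Not at h1
  obtain ⟨n, q, hq, h2⟩ := h1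
  rcases h2 with ⟨h2, h3⟩ | ⟨h2, h3⟩
  · obtain ⟨r, hr, h4⟩ := exists_compl h3
    refine ⟨r, hr.trans hq, n, fun b t ht => ?_⟩
    cases b with
    | true => exact fun _ h5 => RO.mem_compl.1 h4 t ht h5
    | false => exact fun h5 _ => RO.mem_compl.1 h5 t le_rfl (RO.mem_lower (ht.trans hr) h2)
  · obtain ⟨r, hr, h4⟩ := exists_compl h2
    refine ⟨r, hr.trans hq, n, fun b t ht => ?_⟩
    cases b with
    | true => exact fun h5 _ => RO.mem_compl.1 h4 t ht h5
    | false => exact fun _ h5 => RO.mem_compl.1 h5 t le_rfl (RO.mem_lower (ht.trans hr) h3)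

theorem exists_bit (U : RO P) (p : P) : ∃ q, q ≤ p ∧ ∃ b, q ∈ bit b U := by
  by_cases h : p ∈ U
  · exact ⟨p, le_rfl, true, h⟩
  · obtain ⟨q, hq, h'⟩ := exists_compl h
    exact ⟨q, hq, false, h'⟩

/-- The first bits of two sets are decided by an extension. -/
theorem exists_word (x y : ℕ → RO P) (n : ℕ) (p : P) :
    ∃ q, q ≤ p ∧ ∃ j : Wd, j.length = n ∧ q ∈ pre j x y := by
  have key : ∀ n, ∃ q, q ≤ p ∧ ∃ f : ℕ → Bool × Bool, ∀ k, k < n →
      q ∈ bit (f k).1 (x k) ∧ q ∈ bit (f k).2 (y k) := by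
    intro n
    induction n with
    | zero => exact ⟨p, le_rfl, fun _ => (true, true), fun k hk => absurd hk (Nat.not_lt_zero k)⟩
    | succ n ih =>
      obtain ⟨q, hq, f, hf⟩ := ih
      obtain ⟨r, hr, a, ha⟩ := exists_bit (x n) q
      obtain ⟨t, ht, b, hb⟩ := exists_bit (y n) r
      refine ⟨t, (ht.trans hr).trans hq, fun k => if k = n then (a, b) else f k, fun k hk => ?_⟩
      by_cases hkn : k = n
      · subst hkn
        simp only [if_true]
        exact ⟨RO.mem_lower ht ha, hb⟩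
      · simp only [if_neg hkn]
        have := hf k (by omega)
        exact ⟨RO.mem_lower (ht.trans hr) this.1, RO.mem_lower (ht.trans hr) this.2⟩
  obtain ⟨q, hq, f, hf⟩ := key n
  refine ⟨q, hq, List.ofFn fun k : Fin n => f k, by simp, mem_pre.2 fun k => ?_⟩
  have hk : (k : ℕ) < n := by
    have := k.2
    simpa using this
  have h1 := hf k hk
  simpa using h1

end Val

section

variable {C I : Type} [Preorder C] [LinearOrder I] {T : Pat Wd} {Z : I → Wd → Set (Raw C I)}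

variable (T Z) in
/-- The value of: `b` is the index of `x`. -/
def idx (A : I → ℕ → Set (Raw C I)) (x : ℕ → RO (PS T Z)) (b : I) : RO (PS T Z) :=
  eqv x (rlz T Z (A b)) ⊓ fst T Z A b

variable {A : I → ℕ → Set (Raw C I)}

theorem mem_fst {b : I} {p : PS T Z} : p ∈ fst T Z A b ↔
    ∀ b', b' < b → ∀ q, q ≤ p → ¬ q ∈ eqv (rlz T Z (A b')) (rlz T Z (A b)) := by
  unfold fst
  rw [RO.mem_iInf]
  refine forall_congr' fun b' => ?_
  rw [RO.mem_iInf]
  exact forall_congr' fun _ => RO.mem_compl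

theorem idx_not {x : ℕ → RO (PS T Z)} {b b' : I} {p : PS T Z} (hbb : b' ≠ b)
    (h : p ∈ idx T Z A x b) (h' : p ∈ idx T Z A x b') : False := by
  rcases lt_or_gt_of_ne hbb with hlt | hlt
  · exact mem_fst.1 h.2 b' hlt p le_rfl (eqv_trans (eqv_symm h'.1) h.1)
  · exact mem_fst.1 h'.2 b hlt p le_rfl (eqv_trans (eqv_symm h.1) h'.1)

theorem idx_exists [WellFoundedLT I] (hn : ∀ x : ℕ → RO (PS T Z), ∃ b, rlz T Z (A b) = x)
    (x : ℕ → RO (PS T Z)) (q : PS T Z) : ∃ r, r ≤ q ∧ ∃ b, r ∈ idx T Z A x b := by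
  set S : Set I := {b | ∃ r, r ≤ q ∧ r ∈ eqv x (rlz T Z (A b))} with hS
  have hne : S.Nonempty := by
    obtain ⟨b, hb⟩ := hn x
    exact ⟨b, q, le_rfl, by rw [hb]; exact eqv_refl _ _⟩
  have hwf : WellFounded ((· < ·) : I → I → Prop) := wellFounded_lt
  obtain ⟨r, hr, h1⟩ := hwf.min_mem S hne
  refine ⟨r, hr, hwf.min S hne, h1, mem_fst.2 fun b' hb' t ht h2 => ?_⟩
  refine hwf.not_lt_min S ?_ hb'
  exact ⟨t, ht.trans hr, eqv_trans (RO.mem_lower ht h1) (eqv_symm h2)⟩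

/-- A stage with other indices does not disturb the initial words. -/
theorem stage_dec {δ : Cardinal.{0}} {pr : I → I × I} (hB : Book T δ Z A pr)
    {x y : ℕ → RO (PS T Z)} {b b' : I} (hbb : ¬ b < b') {q : PS T Z}
    (hx : q ∈ idx T Z A x b) (hy : q ∈ idx T Z A y b') (s : I) :
    ∃ r, r ≤ q ∧ ∃ n : ℕ, ∀ j : Wd, n ≤ j.length → ∀ t, t ≤ r → t ∈ pre j x y →
      t ∈ ev T Z s j := by
  set F := fst T Z A (pr s).1 ⊓ fst T Z A (pr s).2 with hF
  by_cases hq : q ∈ F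
  · have hne : (pr s).1 ≠ b ∨ (pr s).2 ≠ b' := by
      by_contra hcon
      push Not at hcon
      refine hbb ?_
      rw [← hcon.1, ← hcon.2]
      exact hB.lt s
    rcases hne with hne | hne
    · have h1 : q ∈ (eqv x (rlz T Z (A (pr s).1)))ᶜ := by
        refine RO.mem_compl.2 fun t ht h2 => ?_
        exact idx_not hne (RO.mem_lower ht hx) ⟨h2, RO.mem_lower ht hq.1⟩
      obtain ⟨r, hr, n, h3⟩ := exists_diff h1
      refine ⟨r, hr, n + 1, fun j hj t ht htp => ?_⟩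
      rw [hB.val, RO.mem_compl]
      intro u hu h4
      have h5 := (mem_pre.1 (RO.mem_lower hu htp) ⟨n, by omega⟩).1
      have h6 := (mem_pre.1 h4.2 ⟨n, by omega⟩).1
      exact h3 _ u (hu.trans ht) h5 h6
    · have h1 : q ∈ (eqv y (rlz T Z (A (pr s).2)))ᶜ := by
        refine RO.mem_compl.2 fun t ht h2 => ?_
        exact idx_not hne (RO.mem_lower ht hy) ⟨h2, RO.mem_lower ht hq.2⟩
      obtain ⟨r, hr, n, h3⟩ := exists_diff h1
      refine ⟨r, hr, n + 1, fun j hj t ht htp => ?_⟩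
      rw [hB.val, RO.mem_compl]
      intro u hu h4
      have h5 := (mem_pre.1 (RO.mem_lower hu htp) ⟨n, by omega⟩).2
      have h6 := (mem_pre.1 h4.2 ⟨n, by omega⟩).2
      exact h3 _ u (hu.trans ht) h5 h6
  · obtain ⟨r, hr, h1⟩ := exists_compl hq
    refine ⟨r, hr, 0, fun j _ t ht _ => ?_⟩
    rw [hB.val, RO.mem_compl]
    intro u hu h4
    exact RO.mem_compl.1 h1 u (hu.trans ht) h4.1

theorem stages_dec {δ : Cardinal.{0}} {pr : I → I × I} (hB : Book T δ Z A pr)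
    {x y : ℕ → RO (PS T Z)} {b b' : I} (hbb : ¬ b < b') {q : PS T Z}
    (hx : q ∈ idx T Z A x b) (hy : q ∈ idx T Z A y b') (D : Finset I) :
    ∃ r, r ≤ q ∧ ∃ n : ℕ, ∀ s ∈ D, ∀ j : Wd, n ≤ j.length → ∀ t, t ≤ r → t ∈ pre j x y →
      t ∈ ev T Z s j := by
  classical
  induction D using Finset.induction_on with
  | empty => exact ⟨q, le_rfl, 0, by simp⟩
  | insert s D _ ih =>
    obtain ⟨r, hr, n, h1⟩ := ih
    obtain ⟨r', hr', n', h2⟩ := stage_dec hB hbb (RO.mem_lower hr hx) (RO.mem_lower hr hy) s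
    refine ⟨r', hr'.trans hr, max n n', fun s' hs' j hj t ht htp => ?_⟩
    rcases Finset.mem_insert.1 hs' with rfl | hs'
    · exact h2 j ((le_max_right _ _).trans hj) t ht htp
    · exact h1 s' hs' j ((le_max_left _ _).trans hj) t (ht.trans hr') htp

end

/-- The assembly, from the non-existence of witnesses. -/
theorem book_bwo_of {C I : Type} [Preorder C] [LinearOrder I] [WellFoundedLT I]
    {T : Pat Wd} {δ : Cardinal.{0}} {Z : I → Wd → Set (Raw C I)} {A : I → ℕ → Set (Raw C I)}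
    {pr : I → I × I} (h : Book T δ Z A pr)
    (hNW : ∀ (G : ℕ → ℕ → RO (PS T Z)) (c : I → ℕ → ℕ → RO (PS T Z))
      (W : Wd → RO (PS T Z)) (p0 : PS T Z), p0 ∈ fnV c → p0 ∈ chV G c →
      (∀ j (h : ℕ → ℕ), p0 ∈ (W j ⊓
        ⨅ v, ⨅ w, ⨅ _ : v < T.N j ∧ w < T.N j ∧ T.arc j v w, G (h v) (h w))ᶜ) →
      (∀ q, q ≤ p0 → ∀ D : Finset I, ∃ r, r ≤ q ∧ ∃ j, r ∈ W j ∧ ∀ s ∈ D, r ∈ ev T Z s j) →
      False) : Nonempty (BWO (PS T Z) I T) := by
  refine ⟨⟨idx T Z A, ?_, ?_, ?_, ?_, ?_, ?_⟩⟩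
  · intro x b b' hbb
    rw [eq_bot_iff]
    intro p hp
    exact (idx_not hbb.symm hp.1 hp.2).elim
  · intro x
    rw [eq_top_iff]
    intro p _
    rw [RO.mem_iSup]
    intro q _
    exact idx_exists h.names x q
  · intro x y b p hp
    exact ⟨eqv_trans (eqv_symm hp.2) hp.1.1, hp.1.2⟩
  · intro x y b p hp
    exact eqv_trans hp.1.1 (eqv_symm hp.2.1)
  · intro b b' hbb
    obtain ⟨s, hs⟩ := h.surj b b' hbb
    refine ⟨gE T Z s, gR T Z s, fun x y => stage_phi h.ok.valid s _ x y fun j => ?_⟩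
    rw [h.val, compl_compl, hs]
    intro p hp
    exact ⟨⟨hp.1.1.2, hp.1.2.2⟩, pre_congr hp.1.1.1 hp.1.2.1 hp.2⟩
  · intro G c x y p hp
    by_contra hcon
    obtain ⟨p0, hp0, h1⟩ := exists_compl hcon
    have hp' := RO.mem_lower hp0 hp
    refine hNW G c (fun j => pre j x y) p0 hp'.1.1 hp'.1.2 ?_ ?_
    · intro j f
      exact RO.mem_iInf.1 (RO.mem_iInf.1 hp'.2 j) f
    · intro q hq D
      obtain ⟨q1, hq1, b, hb⟩ := idx_exists h.names x q
      obtain ⟨q2, hq2, b', hb'⟩ := idx_exists h.names y q1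
      have hb2 := RO.mem_lower hq2 hb
      have hnot : ¬ b < b' := by
        intro hlt
        refine RO.mem_compl.1 h1 q2 ((hq2.trans hq1).trans hq) ?_
        rw [RO.mem_iSup]
        intro t ht
        refine ⟨t, le_rfl, b, ?_⟩
        rw [RO.mem_iSup]
        intro t' ht'
        refine ⟨t', le_rfl, b', ?_⟩
        rw [RO.mem_iSup]
        intro u hu
        exact ⟨u, le_rfl, hlt, RO.mem_lower (hu.trans (ht'.trans ht)) hb2,
          RO.mem_lower (hu.trans (ht'.trans ht)) hb'⟩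
      obtain ⟨r, hr, n, h2⟩ := stages_dec h hnot hb2 hb' D
      obtain ⟨t, ht, j, hj, h3⟩ := exists_word x y n r
      exact ⟨t, ((ht.trans hr).trans hq2).trans hq1, j, h3,
        fun s hs => h2 s hs j hj.ge t ht h3⟩

end Pool.Agent.Helper2.SW
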