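import Pool.Agent.Helper33.HM.RO

/-!
# Project SW: the poset

`S` is the set of the stages and also of the indices of the chains. A datum at a stage is a finite
oriented graph `E` on `ℕ`, a height `n`, a finite set `u` of indices and the values `r s k` of the
index `s ∈ u` at the levels `k < n`. In an extension the values `r s k`, `r t k` of two adjacent
indices of `u` at the new levels `k` are joined by an arc. A condition consists of an element of the
poset `C` and of finitely many data; it is valid for the codes `Z` if for every copy of the tournament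
`T_j` in the graph at the stage `s` it is below an element of `Z s j`.
-/

set_option autoImplicit false

namespace Pool.Agent.Helper2.SW

open Cardinal Set Pool.Agent.Helper33.HM

/-! ### Tournaments -/

/-- A family of tournaments: the vertices of the `j`-th one are `0, …, N j - 1`. -/
structure Pat (J : Type) where
  N : J → ℕ
  arc : J → ℕ → ℕ → Prop
  three : ∀ j, 3 ≤ N j
  asym : ∀ j v w, arc j v w → ¬ arc j w v
  tot : ∀ j v w, v < N j → w < N j → v ≠ w → arc j v w ∨ arc j w v
  first : ∀ j, arc j 0 1
  /-- no vertex is a source -/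
  nosrc : ∀ j v, v < N j → ∃ w, w < N j ∧ arc j w v
  /-- no module with two elements -/
  notwin : ∀ j v w, v < N j → w < N j → v ≠ w →
    ∃ z, z < N j ∧ z ≠ v ∧ z ≠ w ∧ (arc j v z ↔ ¬ arc j w z)
  /-- no embeddings -/
  anti : ∀ i j (e : ℕ → ℕ), (∀ v, v < N j → e v < N i) →
    (∀ v w, v < N j → w < N j → arc j v w → arc i (e v) (e w)) → i = j

/-- The map `h` is a homomorphism of the `j`-th tournament to the relation `R`. -/
def Pat.Cp {J : Type} (T : Pat J) (j : J) {V : Type} (R : V → V → Prop) (h : ℕ → V) : Prop :=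
  ∀ v w, v < T.N j → w < T.N j → T.arc j v w → R (h v) (h w)

/-! ### Data -/

/-- The datum at a stage. -/
@[ext] structure Dat (S : Type) where
  E : Finset (ℕ × ℕ)
  n : ℕ
  u : Finset S
  r : S → ℕ → ℕ
  asym : ∀ a b, (a, b) ∈ E → (b, a) ∉ E
  out : ∀ s k, ¬ (s ∈ u ∧ k < n) → r s k = 0

/-- The empty datum. -/
def Dat.emp {S : Type} : Dat S := ⟨∅, 0, ∅, fun _ _ => 0, by simp, by simp⟩

/-- The datum `x` extends `y`, for the adjacency relation `A`. -/
structure Dat.Le {S : Type} (A : S → S → Prop) (x y : Dat S) : Prop where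
  E : y.E ⊆ x.E
  n : y.n ≤ x.n
  u : y.u ⊆ x.u
  r : ∀ s ∈ y.u, ∀ k, k < y.n → x.r s k = y.r s k
  p : ∀ s ∈ y.u, ∀ t ∈ y.u, A s t → ∀ k, y.n ≤ k → k < x.n → (x.r s k, x.r t k) ∈ x.E

open Classical in
/-- The restriction of a datum to the indices in `X`. -/
noncomputable def Dat.res {S : Type} (X : Set S) (x : Dat S) : Dat S where
  E := x.E
  n := x.n
  u := x.u.filter (· ∈ X)
  r s k := if s ∈ X then x.r s k else 0
  asym := x.asym
  out s k h := by
    by_cases hs : s ∈ X
    · rw [if_pos hs]
      exact x.out s k fun h' => h ⟨Finset.mem_filter.2 ⟨h'.1, hs⟩, h'.2⟩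
    · rw [if_neg hs]

/-! ### Raw conditions -/

/-- Raw conditions. -/
@[ext] structure Raw (C S : Type) where
  c : C
  f : S → Dat S
  fin : {s | f s ≠ Dat.emp}.Finite

namespace Raw

variable {C S : Type}

/-- The stages and the indices of `p` are in `X`. -/
def On (X : Set S) (p : Raw C S) : Prop :=
  (∀ s, p.f s ≠ Dat.emp → s ∈ X) ∧ ∀ s, ∀ x ∈ (p.f s).u, x ∈ X

/-- The support of `p`. -/
def supp (p : Raw C S) : Set S := {x | p.f x ≠ Dat.emp ∨ ∃ s, x ∈ (p.f s).u}

open Classical in
/-- The restriction of a condition to the stages and indices in `X`. -/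
noncomputable def res (X : Set S) (p : Raw C S) : Raw C S where
  c := p.c
  f s := if s ∈ X then (p.f s).res X else Dat.emp
  fin := p.fin.subset fun s hs h => hs (by
    split
    · rw [h]
      apply Dat.ext <;> simp [Dat.res, Dat.emp]
    · rfl)

/-- The order of the raw conditions; `A s` is the adjacency relation at the stage `s`. -/
def Le [LE C] (A : S → S → S → Prop) (p q : Raw C S) : Prop :=
  p.c ≤ q.c ∧ ∀ s, Dat.Le (A s) (p.f s) (q.f s)

end Raw

/-- The adjacency relation of the poset: the order of `S`. -/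
def lt3 {S : Type} [LT S] (_ s t : S) : Prop := s < t

section Valid

variable {C S J : Type} [LE C] [LT S] (T : Pat J)

/-- `p` is valid for the codes `Z`: if the graph at the stage `s` contains a copy of `T_j`, then `p`
is below an element of `Z s j`. -/
def Valid (Z : S → J → Set (Raw C S)) (p : Raw C S) : Prop :=
  ∀ s j, (∃ h : ℕ → ℕ, T.Cp j (fun a b => (a, b) ∈ (p.f s).E) h) → ∃ b ∈ Z s j, p.Le lt3 b

end Valid

/-- The poset of the valid conditions. -/
def PS {C S J : Type} [LE C] [LT S] (T : Pat J) (Z : S → J → Set (Raw C S)) : Type :=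
  {p : Raw C S // Valid T Z p}

end Pool.Agent.Helper2.SW
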