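import Pool.Agent.Helper2.SW.Defs

/-!
# Project SW: the order, closed sets, permutations, and the statements about the poset
-/

set_option autoImplicit false

namespace Pool.Agent.Helper2.SW

open Cardinal Set Pool.Agent.Helper33.HM

/-! ### The order -/

theorem Dat.Le.refl {S : Type} (A : S → S → Prop) (x : Dat S) : Dat.Le A x x :=
  ⟨Finset.Subset.refl _, le_rfl, Finset.Subset.refl _, fun _ _ _ _ => rfl,
    fun _ _ _ _ _ _ h1 h2 => absurd h2 (not_lt.2 h1)⟩

theorem Dat.Le.trans {S : Type} {A : S → S → Prop} {x y z : Dat S} (h : Dat.Le A x y)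
    (h' : Dat.Le A y z) : Dat.Le A x z := by
  refine ⟨h'.E.trans h.E, h'.n.trans h.n, h'.u.trans h.u, ?_, ?_⟩
  · intro s hs k hk
    rw [h.r s (h'.u hs) k (hk.trans_le h'.n), h'.r s hs k hk]
  · intro s hs t ht hst k hk1 hk2
    by_cases hk : k < y.n
    · rw [h.r s (h'.u hs) k hk, h.r t (h'.u ht) k hk]
      exact h.E (h'.p s hs t ht hst k hk1 hk)
    · exact h.p s (h'.u hs) t (h'.u ht) hst k (not_lt.1 hk) hk2

theorem Dat.Le.emp {S : Type} (A : S → S → Prop) (x : Dat S) : Dat.Le A x Dat.emp :=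
  ⟨by simp [Dat.emp], Nat.zero_le _, by simp [Dat.emp], by simp [Dat.emp], by simp [Dat.emp]⟩

namespace Raw

variable {C S : Type} [Preorder C] {A : S → S → S → Prop}

theorem Le.refl (p : Raw C S) : p.Le A p := ⟨le_rfl, fun _ => Dat.Le.refl _ _⟩

theorem Le.trans {p q r : Raw C S} (h : p.Le A q) (h' : q.Le A r) : p.Le A r :=
  ⟨h.1.trans h'.1, fun s => (h.2 s).trans (h'.2 s)⟩

/-- The empty condition. -/
def emp [OrderTop C] : Raw C S := ⟨⊤, fun _ => Dat.emp, by simp⟩

end Raw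

section Poset

variable {C S J : Type} [Preorder C] [LT S] {T : Pat J} {Z : S → J → Set (Raw C S)}

instance : Preorder (PS T Z) where
  le p q := p.1.Le lt3 q.1
  le_refl p := Raw.Le.refl p.1
  le_trans _ _ _ h h' := h.trans h'

theorem PS.le_iff {p q : PS T Z} : p ≤ q ↔ p.1.Le lt3 q.1 := Iff.rfl

theorem valid_emp [OrderTop C] : Valid T Z (Raw.emp : Raw C S) := by
  rintro s j ⟨h, hh⟩
  have h3 := T.three j
  have := hh 0 1 (by omega) (by omega) (T.first j)
  simp [Raw.emp, Dat.emp] at this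

instance [OrderTop C] : OrderTop (PS T Z) where
  top := ⟨Raw.emp, valid_emp⟩
  le_top p := ⟨le_top, fun _ => Dat.Le.emp _ _⟩

/-! ### Closed sets -/

/-- The codes of the stages in `X` have their supports in `X`. -/
def Closed (Z : S → J → Set (Raw C S)) (X : Set S) : Prop :=
  ∀ s ∈ X, ∀ j, ∀ b ∈ Z s j, b.On X

/-- The least closed set containing `X`. -/
inductive Cl (Z : S → J → Set (Raw C S)) (X : Set S) : S → Prop
  | base {s : S} : s ∈ X → Cl Z X s
  | step {s t : S} {j : J} {b : Raw C S} : Cl Z X s → b ∈ Z s j → t ∈ b.supp → Cl Z X t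

end Poset

/-! ### Permutations -/

section Perm

variable {C S : Type}

/-- The datum with the indices permuted by `σ`. -/
def Dat.perm (σ : Equiv.Perm S) (x : Dat S) : Dat S where
  E := x.E
  n := x.n
  u := x.u.map σ.toEmbedding
  r s k := x.r (σ.symm s) k
  asym := x.asym
  out s k h := x.out _ _ fun h' => h ⟨by
    rw [Finset.mem_map]
    exact ⟨σ.symm s, h'.1, by simp⟩, h'.2⟩

theorem Dat.perm_emp (σ : Equiv.Perm S) : Dat.perm σ (Dat.emp : Dat S) = Dat.emp := by
  apply Dat.ext <;> simp [Dat.perm, Dat.emp]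

/-- The condition with the stages and the indices permuted by `σ`. -/
def Raw.perm (σ : Equiv.Perm S) (p : Raw C S) : Raw C S where
  c := p.c
  f s := (p.f (σ.symm s)).perm σ
  fin := (p.fin.image σ).subset fun s hs => ⟨σ.symm s, fun h => hs (by rw [h, Dat.perm_emp]),
    by simp⟩

end Perm

/-! ### Cardinals -/

/-- The well-order `I` has the type of the cardinal successor of `δ`. -/
structure IsSuccType (δ : Cardinal.{0}) (I : Type) [LinearOrder I] : Prop where
  wf : WellFoundedLT I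
  small : ∀ b : I, #(Iio b) ≤ δ
  bdd : ∀ s : Set I, #s ≤ δ → ∃ b, ∀ x ∈ s, x < b

/-- The poset `C` is small and has a strong chain condition. -/
structure IsKnaster (δ : Cardinal.{0}) (C : Type) [Preorder C] : Prop where
  card : #C ≤ δ
  knaster : ∀ (A : Type) (c : A → C), δ ≤ #A → ∃ B : Set A, δ ≤ #B ∧
    ∀ a ∈ B, ∀ b ∈ B, ∃ r, r ≤ c a ∧ r ≤ c b

/-- Every set of pairwise incompatible conditions has fewer than `δ` elements. -/
def CC (δ : Cardinal.{0}) (P : Type) [Preorder P] : Prop :=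
  ∀ A : Set P, (∀ p ∈ A, ∀ q ∈ A, p ≠ q → ¬ ∃ r : P, r ≤ p ∧ r ≤ q) → #A < δ

/-- The codes are small sets of valid conditions below the stage. -/
structure CodeOK {C I J : Type} [Preorder C] [LinearOrder I] (T : Pat J) (δ : Cardinal.{0})
    (Z : I → J → Set (Raw C I)) : Prop where
  below : ∀ s j, ∀ b ∈ Z s j, b.On (Iio s)
  small : ∀ s j, #(Z s j) < δ
  valid : ∀ s j, ∀ b ∈ Z s j, Valid T Z b

/-! ### Events -/

section Events

variable {C I J : Type} [Preorder C] [LinearOrder I] {T : Pat J} {Z : I → J → Set (Raw C I)}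

variable (T Z) in
/-- The value of: `j` does not belong to the set of the stage `s`. -/
def ev (s : I) (j : J) : RO (PS T Z) := RO.gen {p | p.1 ∈ Z s j}

variable (T Z) in
/-- The generic graph at the stage `s`. -/
def gE (s : I) (a b : ℕ) : RO (PS T Z) := RO.gen {p | (a, b) ∈ (p.1.f s).E}

variable (T Z) in
/-- The generic functions at the stage `s`: the value of `r x k = l`. -/
def gR (s x : I) (k l : ℕ) : RO (PS T Z) :=
  RO.gen {p | x ∈ (p.1.f s).u ∧ k < (p.1.f s).n ∧ (p.1.f s).r x k = l}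

variable (T Z) in
/-- The truth values of the subset of `ℕ` coded by `A`. -/
def rlz (A : ℕ → Set (Raw C I)) (n : ℕ) : RO (PS T Z) := RO.gen {p | p.1 ∈ A n}

end Events

/-! ### Truth values -/

section Val

variable {P : Type} [Preorder P]

/-- The value of: `x = y`, for sets of natural numbers. -/
def eqv (x y : ℕ → RO P) : RO P := ⨅ n, (x n ⇨ y n) ⊓ (y n ⇨ x n)

/-- Words: the letters are pairs of bits. -/
abbrev Wd : Type := List (Bool × Bool)

/-- `U` or its complement. -/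
def bit (b : Bool) (U : RO P) : RO P := bif b then U else Uᶜ

/-- The value of: the word `j` consists of the first bits of `x` and `y`. -/
def pre (j : Wd) (x y : ℕ → RO P) : RO P :=
  ⨅ k : Fin j.length, bit (j.get k).1 (x k) ⊓ bit (j.get k).2 (y k)

variable {I : Type} [LinearOrder I] (T : Pat Wd)

/-- The value of: `c` is a family of functions `c ξ : ℕ → ℕ`. -/
def fnV (c : I → ℕ → ℕ → RO P) : RO P :=
  (⨅ ξ, ⨅ k, ⨅ a, ⨅ b, ⨅ _ : a ≠ b, (c ξ k a ⊓ c ξ k b)ᶜ) ⊓ ⨅ ξ, ⨅ k, ⨆ a, c ξ k a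

/-- The value of: for `ξ < η` and almost all `k`, the pair `(c ξ k, c η k)` belongs to `G`. -/
def chV (G : ℕ → ℕ → RO P) (c : I → ℕ → ℕ → RO P) : RO P :=
  ⨅ ξ, ⨅ η, ⨅ _ : ξ < η, ⨆ m : ℕ, ⨅ k, ⨅ _ : m ≤ k, ⨆ a, ⨆ b, c ξ k a ⊓ c η k b ⊓ G a b

/-- The value of: `G` contains a homomorphic image `h` of the tournament `T_j`. -/
def cpV (G : ℕ → ℕ → RO P) (j : Wd) (h : ℕ → ℕ) : RO P :=
  ⨅ v, ⨅ w, ⨅ _ : v < T.N j ∧ w < T.N j ∧ T.arc j v w, G (h v) (h w)

/-- The value of: `G` and `c` are witnesses for `(x, y)`. -/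
def phi (G : ℕ → ℕ → RO P) (c : I → ℕ → ℕ → RO P) (x y : ℕ → RO P) : RO P :=
  fnV c ⊓ chV G c ⊓ ⨅ j, ⨅ h : ℕ → ℕ, (pre j x y ⊓ cpV T G j h)ᶜ

/-- The Boolean valued definition of the well-order: `Idx x b` is the value of: `b` is the index of
`x`. -/
structure BWO (P : Type) [Preorder P] (I : Type) [LinearOrder I] (T : Pat Wd) where
  Idx : (ℕ → RO P) → I → RO P
  disj : ∀ x b b', b ≠ b' → Idx x b ⊓ Idx x b' = ⊥
  tot : ∀ x, ⨆ b, Idx x b = ⊤
  ext : ∀ x y b, Idx x b ⊓ eqv x y ≤ Idx y b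
  inj : ∀ x y b, Idx x b ⊓ Idx y b ≤ eqv x y
  exist : ∀ b b' : I, b < b' → ∃ (G : ℕ → ℕ → RO P) (c : I → ℕ → ℕ → RO P),
    ∀ x y, Idx x b ⊓ Idx y b' ≤ phi T G c x y
  none : ∀ (G : ℕ → ℕ → RO P) (c : I → ℕ → ℕ → RO P) (x y : ℕ → RO P),
    phi T G c x y ≤ ⨆ b, ⨆ b', ⨆ _ : b < b', Idx x b ⊓ Idx y b'

end Val

section First

variable {C I : Type} [Preorder C] [LinearOrder I] {T : Pat Wd} {Z : I → Wd → Set (Raw C I)}

variable (T Z) in
/-- The value of: the set coded by `A b` is different from the sets coded by `A b'`, `b' < b`. -/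
def fst (A : I → ℕ → Set (Raw C I)) (b : I) : RO (PS T Z) :=
  ⨅ b', ⨅ _ : b' < b, (eqv (rlz T Z (A b')) (rlz T Z (A b)))ᶜ

/-- The bookkeeping: all names of subsets of `ℕ` are enumerated by `A`, and the set of the stage `s`
consists of the initial words of the pair of names with the indices `pr s`, if these indices are the
first ones. -/
structure Book (T : Pat Wd) (δ : Cardinal.{0}) (Z : I → Wd → Set (Raw C I))
    (A : I → ℕ → Set (Raw C I)) (pr : I → I × I) : Prop where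
  ok : CodeOK T δ Z
  lt : ∀ s, (pr s).1 < (pr s).2
  surj : ∀ b b', b < b' → ∃ s, pr s = (b, b')
  names : ∀ x : ℕ → RO (PS T Z), ∃ b, rlz T Z (A b) = x
  val : ∀ s j, ev T Z s j = (fst T Z A (pr s).1 ⊓ fst T Z A (pr s).2 ⊓
    pre j (rlz T Z (A (pr s).1)) (rlz T Z (A (pr s).2)))ᶜ

end First

end Pool.Agent.Helper2.SW
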