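import Pool.Agent.Helper2.SW.Defs2

/-!
# Project SW: density

A valid condition can be extended so that the datum at a given stage has a given index and a height
larger than a given number.
-/

set_option autoImplicit false

namespace Pool.Agent.Helper2.SW

open Cardinal Set Pool.Agent.Helper33.HM

/-! ### Changing the datum at one stage -/

section Set1

variable {C S J : Type}

open Classical in
/-- The condition with the datum `x` at the stage `s`. -/
noncomputable def Raw.put (p : Raw C S) (s : S) (x : Dat S) : Raw C S where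
  c := p.c
  f := Function.update p.f s x
  fin := (p.fin.union (Set.finite_singleton s)).subset fun t ht => by
    by_cases h : t = s
    · exact Or.inr h
    · left
      simpa [Function.update_of_ne h] using ht

@[simp] theorem Raw.put_same (p : Raw C S) (s : S) (x : Dat S) : (p.put s x).f s = x := by
  simp [Raw.put]

theorem Raw.put_ne (p : Raw C S) {s t : S} (h : t ≠ s) (x : Dat S) : (p.put s x).f t = p.f t := by
  classical
  unfold Raw.put
  exact Function.update_of_ne h _ _

theorem Raw.put_le [Preorder C] {A : S → S → S → Prop} (p : Raw C S) (s : S) {x : Dat S}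
    (hx : Dat.Le (A s) x (p.f s)) : (p.put s x).Le A p := by
  refine ⟨le_rfl, fun t => ?_⟩
  by_cases h : t = s
  · subst h
    rw [Raw.put_same]
    exact hx
  · rw [Raw.put_ne _ h]
    exact Dat.Le.refl _ _

theorem Valid.put [Preorder C] [LT S] {T : Pat J} {Z : S → J → Set (Raw C S)} {p : Raw C S}
    (hp : Valid T Z p) (s : S) {x : Dat S} (hx : Dat.Le (lt3 s) x (p.f s))
    (hc : ∀ j, (∃ h : ℕ → ℕ, T.Cp j (fun a b => (a, b) ∈ x.E) h) →
      ∃ h : ℕ → ℕ, T.Cp j (fun a b => (a, b) ∈ (p.f s).E) h) : Valid T Z (p.put s x) := by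
  intro t j hj
  have hle : (p.put s x).Le lt3 p := p.put_le s hx
  by_cases h : t = s
  · subst h
    rw [Raw.put_same] at hj
    obtain ⟨b, hb, hb'⟩ := hp t j (hc j hj)
    exact ⟨b, hb, hle.trans hb'⟩
  · rw [Raw.put_ne _ h] at hj
    obtain ⟨b, hb, hb'⟩ := hp t j hj
    exact ⟨b, hb, hle.trans hb'⟩

/-! ### Adding an index -/

open Classical in
/-- The datum with one more index. -/
noncomputable def Dat.addU (x : Dat S) (i : S) : Dat S where
  E := x.E
  n := x.n
  u := insert i x.u
  r := x.r
  asym := x.asym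
  out s k h := x.out s k fun h' => h ⟨Finset.mem_insert_of_mem h'.1, h'.2⟩

theorem Dat.addU_le (A : S → S → Prop) (x : Dat S) (i : S) : Dat.Le A (x.addU i) x :=
  ⟨Finset.Subset.refl _, le_rfl, by
    classical
    unfold Dat.addU
    intro j hj
    exact Finset.mem_insert_of_mem hj, fun _ _ _ _ => rfl,
    fun _ _ _ _ _ _ h1 h2 => absurd h2 (not_lt.2 h1)⟩

theorem exists_index [Preorder C] [LT S] {T : Pat J} {Z : S → J → Set (Raw C S)} {p : Raw C S}
    (hp : Valid T Z p) (s i : S) :
    ∃ q, Valid T Z q ∧ q.Le lt3 p ∧ i ∈ (q.f s).u ∧ (q.f s).n = (p.f s).n := by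
  refine ⟨p.put s ((p.f s).addU i), hp.put s (Dat.addU_le _ _ _) (fun j h => h),
    p.put_le s (Dat.addU_le _ _ _), ?_, ?_⟩
  · classical
    rw [Raw.put_same]
    unfold Dat.addU
    simp
  · rw [Raw.put_same]
    rfl

end Set1

/-! ### Adding a level -/

section Level

variable {C I J : Type} [LinearOrder I]

/-- A bound for the vertices of a finite graph. -/
def bdE (E : Finset (ℕ × ℕ)) : ℕ := (E.sup fun e => max e.1 e.2) + 1

theorem lt_bdE {E : Finset (ℕ × ℕ)} {a b : ℕ} (h : (a, b) ∈ E) : a < bdE E ∧ b < bdE E := by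
  have h1 : max a b ≤ E.sup fun e => max e.1 e.2 :=
    Finset.le_sup (f := fun e : ℕ × ℕ => max e.1 e.2) h
  unfold bdE
  have h2 := le_max_left a b
  have h3 := le_max_right a b
  omega

/-- The arcs of a transitive tournament on `{N, …, N + m - 1}`. -/
def trE (N m : ℕ) : Finset (ℕ × ℕ) :=
  ((Finset.range m ×ˢ Finset.range m).filter fun e => e.1 < e.2).image fun e => (N + e.1, N + e.2)

theorem mem_trE {N m a b : ℕ} : (a, b) ∈ trE N m ↔ N ≤ a ∧ a < b ∧ b < N + m := by
  unfold trE
  simp only [Finset.mem_image, Finset.mem_filter, Finset.mem_product, Finset.mem_range,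
    Prod.mk.injEq, Prod.exists]
  constructor
  · rintro ⟨c, d, ⟨⟨h1, h2⟩, h3⟩, h4, h5⟩
    omega
  · rintro ⟨h1, h2, h3⟩
    exact ⟨a - N, b - N, ⟨⟨by omega, by omega⟩, by omega⟩, by omega, by omega⟩

/-- The rank of `i` in `u`. -/
def rkU (u : Finset I) (i : I) : ℕ := (u.filter (· < i)).card

theorem rkU_lt {u : Finset I} {i j : I} (hi : i ∈ u) (h : i < j) : rkU u i < rkU u j := by
  unfold rkU
  apply Finset.card_lt_card
  refine ⟨fun x hx => ?_, fun hs => ?_⟩
  · rw [Finset.mem_filter] at hx ⊢
    exact ⟨hx.1, hx.2.trans h⟩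
  · have h1 := hs (Finset.mem_filter.2 ⟨hi, h⟩)
    rw [Finset.mem_filter] at h1
    exact lt_irrefl _ h1.2

theorem rkU_lt_card {u : Finset I} {i : I} (hi : i ∈ u) : rkU u i < u.card := by
  unfold rkU
  apply Finset.card_lt_card
  refine ⟨Finset.filter_subset _ _, fun hs => ?_⟩
  have h1 := hs hi
  rw [Finset.mem_filter] at h1
  exact lt_irrefl _ h1.2

/-- The datum with one more level. -/
def Dat.addL (x : Dat I) : Dat I where
  E := x.E ∪ trE (bdE x.E) x.u.card
  n := x.n + 1
  u := x.u
  r i k := if k = x.n then (if i ∈ x.u then bdE x.E + rkU x.u i else 0) else x.r i k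
  asym a b h h' := by
    rw [Finset.mem_union, mem_trE] at h h'
    rcases h with h | h <;> rcases h' with h' | h'
    · exact x.asym a b h h'
    · have := lt_bdE h
      omega
    · have := lt_bdE h'
      omega
    · omega
  out i k h := by
    by_cases hk : k = x.n
    · rw [if_pos hk]
      by_cases hi : i ∈ x.u
      · exact absurd ⟨hi, by omega⟩ h
      · rw [if_neg hi]
    · rw [if_neg hk]
      exact x.out i k fun h' => h ⟨h'.1, by omega⟩

theorem Dat.addL_le (x : Dat I) : Dat.Le (· < ·) x.addL x := by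
  refine ⟨Finset.subset_union_left, Nat.le_succ _, Finset.Subset.refl _, ?_, ?_⟩
  · intro s _ k hk
    simp only [Dat.addL]
    rw [if_neg (by omega)]
  · intro s hs t ht hst k hk hk'
    have hk2 : k = x.n := by
      simp only [Dat.addL] at hk'
      omega
    simp only [Dat.addL]
    rw [if_pos hk2, if_pos hk2, if_pos hs, if_pos ht, Finset.mem_union, mem_trE]
    right
    have h1 := rkU_lt hs hst
    have h2 := rkU_lt_card ht
    omega

theorem Dat.addL_copy {T : Pat J} (x : Dat I) {j : J} {h : ℕ → ℕ}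
    (hh : T.Cp j (fun a b => (a, b) ∈ x.addL.E) h) : T.Cp j (fun a b => (a, b) ∈ x.E) h := by
  have key : ∀ v w, v < T.N j → w < T.N j → T.arc j v w →
      (h v, h w) ∈ x.E ∨ (bdE x.E ≤ h v ∧ h v < h w) := by
    intro v w hv hw hvw
    have h1 := hh v w hv hw hvw
    simp only [Dat.addL] at h1
    rw [Finset.mem_union, mem_trE] at h1
    rcases h1 with h1 | h1
    · exact Or.inl h1
    · exact Or.inr ⟨h1.1, h1.2.1⟩
  have h3 := T.three j
  by_cases h0 : h 0 < bdE x.E
  · -- the copy is old
    have hold : ∀ v, v < T.N j → h v < bdE x.E := by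
      intro v hv
      by_cases hv0 : v = 0
      · rw [hv0]
        exact h0
      · rcases T.tot j v 0 hv (by omega) hv0 with ha | ha
        · rcases key v 0 hv (by omega) ha with hk | hk
          · exact (lt_bdE hk).1
          · omega
        · rcases key 0 v (by omega) hv ha with hk | hk
          · exact (lt_bdE hk).2
          · omega
    intro v w hv hw hvw
    rcases key v w hv hw hvw with hk | hk
    · exact hk
    · have := hold v hv
      omega
  · -- the copy is new
    exfalso
    have hnew : ∀ v, v < T.N j → bdE x.E ≤ h v := by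
      intro v hv
      by_cases hv0 : v = 0
      · rw [hv0]
        omega
      · rcases T.tot j v 0 hv (by omega) hv0 with ha | ha
        · rcases key v 0 hv (by omega) ha with hk | hk
          · have := (lt_bdE hk).2
            omega
          · exact hk.1
        · rcases key 0 v (by omega) hv ha with hk | hk
          · have := (lt_bdE hk).1
            omega
          · omega
    have hne : (Finset.range (T.N j)).Nonempty := ⟨0, Finset.mem_range.2 (by omega)⟩
    obtain ⟨v, hv, hmin⟩ := Finset.exists_min_image (Finset.range (T.N j)) h hne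
    rw [Finset.mem_range] at hv
    obtain ⟨w, hw, hwv⟩ := T.nosrc j v hv
    have h4 := hmin w (Finset.mem_range.2 hw)
    rcases key w v hw hv hwv with hk | hk
    · have := (lt_bdE hk).1
      have := hnew w hw
      omega
    · omega

variable [Preorder C] {T : Pat J} {Z : I → J → Set (Raw C I)}

theorem exists_level {p : Raw C I} (hp : Valid T Z p) (s : I) :
    ∃ q, Valid T Z q ∧ q.Le lt3 p ∧ (q.f s).u = (p.f s).u ∧ (q.f s).n = (p.f s).n + 1 := by
  refine ⟨p.put s (p.f s).addL, hp.put s (Dat.addL_le _) ?_, p.put_le s (Dat.addL_le _), ?_, ?_⟩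
  · rintro j ⟨h, hh⟩
    exact ⟨h, Dat.addL_copy _ hh⟩
  · rw [Raw.put_same]
    rfl
  · rw [Raw.put_same]
    rfl

theorem exists_height {p : Raw C I} (hp : Valid T Z p) (s : I) (k : ℕ) :
    ∃ q, Valid T Z q ∧ q.Le lt3 p ∧ (q.f s).u = (p.f s).u ∧ k ≤ (q.f s).n := by
  induction k with
  | zero => exact ⟨p, hp, Raw.Le.refl p, rfl, Nat.zero_le _⟩
  | succ k ih =>
    obtain ⟨q, h1, h2, h3, h4⟩ := ih
    obtain ⟨r, h5, h6, h7, h8⟩ := exists_level h1 s
    exact ⟨r, h5, h6.trans h2, h7.trans h3, by omega⟩

/-- A valid condition has an extension with a given index and a given level. -/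
theorem exists_ext {p : Raw C I} (hp : Valid T Z p) (s i : I) (k : ℕ) :
    ∃ q, Valid T Z q ∧ q.Le lt3 p ∧ i ∈ (q.f s).u ∧ k < (q.f s).n := by
  obtain ⟨q, h1, h2, h3, -⟩ := exists_index hp s i
  obtain ⟨r, h4, h5, h6, h7⟩ := exists_height h1 s (k + 1)
  exact ⟨r, h4, h5.trans h2, by rw [h6]; exact h3, by omega⟩

/-- The same for two indices. -/
theorem exists_ext2 {p : Raw C I} (hp : Valid T Z p) (s i j : I) (k : ℕ) :
    ∃ q, Valid T Z q ∧ q.Le lt3 p ∧ i ∈ (q.f s).u ∧ j ∈ (q.f s).u ∧ k < (q.f s).n := by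
  obtain ⟨q, h1, h2, h3, -⟩ := exists_index hp s i
  obtain ⟨r, h4, h5, h6, h7⟩ := exists_ext h1 s j k
  exact ⟨r, h4, h5.trans h2, (h5.2 s).u h3, h6, h7⟩

end Level

end Pool.Agent.Helper2.SW
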