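import Pool.Agent.Helper63.SM.Num
import Pool.Agent.Helper63.WR.Final
import Pool.Agent.Helper23.XB.E2a
import Pool.Agent.Helper2.SW.Defs2

/-!
# Project SW: the index of a real and the well-order in the model
-/

set_option autoImplicit false

namespace Pool.Agent.Helper2.SW

open Cardinal Filter Set Pool.Agent.Helper33.HM Pool.Agent.Helper33.HMG Pool.Agent.Helper32.HB
open Pool.Agent.Helper23.XB Pool.Agent.Helper63.WR Pool.Agent.Helper63.SM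

variable {P : Type} [Preorder P] [OrderTop P] {μ : Ordinal.{0}} {T : Pat Wd}

/-- `b` is the index of the real `x` of the model. -/
def Ix (B : BWO P μ.ToType T) (g : GG P) (x : ZFSet.{0}) (b : μ.ToType) : Prop :=
  ∃ τ ∈ g.N, g.val τ = x ∧ g.fc (B.Idx (rn τ) b)

theorem ae_ix (B : BWO P μ.ToType T) :
    ∀ᶠ g in aeM P, ∀ τ ∈ g.N, ∃ b, oI b ∈ g.N ∧ g.fc (B.Idx (rn τ) b) := by
  filter_upwards [ae_rq1 fun τ p x => ∃ b : μ.ToType, x = oI b ∧ p ∈ B.Idx (rn τ) b] with g hg τ hτ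
  obtain ⟨k, hk | hk⟩ := hg τ hτ
  · obtain ⟨x, hx, b, rfl, hb⟩ := hk
    exact ⟨b, hx, k, hb⟩
  · exfalso
    have h1 : g.pc k ∈ ⨆ b, B.Idx (rn τ) b := by
      rw [B.tot]
      exact RO.mem_top _
    obtain ⟨r, hr, b, hb⟩ := RO.mem_iSup.1 h1 _ le_rfl
    exact hk r hr _ ⟨b, rfl, hb⟩

theorem veq_le_eqv (σ τ : Nm P) : veq σ τ ≤ eqv (rn σ) (rn τ) := by
  refine le_iInf fun n => le_inf (le_himp_iff.2 ?_) (le_himp_iff.2 ?_)
  · exact vm_congr_right _ _ _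
  · rw [veq_comm]
    exact vm_congr_right _ _ _

theorem Ix.of_eq {B : BWO P μ.ToType T} {g : GG P} {x : ZFSet.{0}} {b : μ.ToType}
    (h : Ix B g x b) {τ : Nm P} (hτ : τ ∈ g.N) (hx : g.val τ = x) : g.fc (B.Idx (rn τ) b) := by
  obtain ⟨σ, hσ, hσx, hb⟩ := h
  have h1 : g.fc (veq σ τ) := (GG.fc_veq hσ hτ).2 (by rw [hσx, hx])
  exact GG.fc_mono (B.ext _ _ _) (GG.fc_inf.2 ⟨hb, GG.fc_mono (veq_le_eqv σ τ) h1⟩)

theorem ix_unique {B : BWO P μ.ToType T} {g : GG P} {x : ZFSet.{0}} {b b' : μ.ToType}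
    (h : Ix B g x b) (h' : Ix B g x b') : b = b' := by
  by_contra hne
  obtain ⟨τ, hτ, hx, hb⟩ := h'
  have h1 := GG.fc_inf.2 ⟨h.of_eq hτ hx, hb⟩
  rw [B.disj _ _ _ hne] at h1
  exact GG.not_fc_bot h1

theorem ae_ix_inj (B : BWO P μ.ToType T) : ∀ᶠ g in aeM P, ∀ x y b, x ⊆ ZFSet.omega →
    y ⊆ ZFSet.omega → Ix B g x b → Ix B g y b → x = y := by
  filter_upwards [ae_oN (P := P)] with g hg x y b hx hy h h'
  obtain ⟨σ, hσ, rfl, hb⟩ := h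
  obtain ⟨τ, hτ, rfl, hb'⟩ := h'
  have h1 : g.fc (eqv (rn σ) (rn τ)) := GG.fc_mono (B.inj _ _ b) (GG.fc_inf.2 ⟨hb, hb'⟩)
  have h2 : ∀ n, num n ∈ g.val σ ↔ num n ∈ g.val τ := by
    intro n
    have h3 := GG.fc_inf.1 (GG.fc_mono (iInf_le _ n) h1)
    rw [← val_oN hg n, ← GG.fc_vm (hg n) hσ, ← GG.fc_vm (hg n) hτ]
    exact ⟨GG.fc_mp h3.1, GG.fc_mp h3.2⟩
  ext z
  constructor
  · intro hz
    obtain ⟨n, rfl⟩ := mem_omega.1 (hx hz)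
    exact (h2 n).1 hz
  · intro hz
    obtain ⟨n, rfl⟩ := mem_omega.1 (hy hz)
    exact (h2 n).2 hz

theorem ae_wo (B : BWO P μ.ToType T) : ∀ᶠ g in aeM P, IsWellOrderOfReals g.M fun x y =>
    x ⊆ ZFSet.omega ∧ y ⊆ ZFSet.omega ∧ ∃ b b', b < b' ∧ Ix B g x b ∧ Ix B g y b' := by
  filter_upwards [ae_ix B, ae_ix_inj B] with g hix hinj
  have hex : ∀ x ∈ g.M, ∃ b, Ix B g x b := by
    intro x hx
    obtain ⟨τ, hτ, rfl⟩ := GG.mem_M.1 hx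
    obtain ⟨b, -, hb⟩ := hix τ hτ
    exact ⟨b, τ, hτ, rfl, hb⟩
  refine ⟨fun x _ y _ h => ⟨h.1, h.2.1⟩, ?_, ?_, ?_, ?_⟩
  · rintro x - ⟨-, -, b, b', hlt, h, h'⟩
    exact hlt.ne (ix_unique h h')
  · rintro x - y - z - ⟨hx, -, b, b', hlt, h, h'⟩ ⟨-, hz, c, c', hlt', h2, h2'⟩
    obtain rfl := ix_unique h' h2
    exact ⟨hx, hz, b, c', hlt.trans hlt', h, h2'⟩
  · intro x hx y hy hxo hyo
    obtain ⟨b, hb⟩ := hex x hx
    obtain ⟨b', hb'⟩ := hex y hy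
    rcases lt_trichotomy b b' with h | rfl | h
    · exact Or.inr (Or.inl ⟨hxo, hyo, b, b', h, hb, hb'⟩)
    · exact Or.inl (hinj x y b hxo hyo hb hb')
    · exact Or.inr (Or.inr ⟨hyo, hxo, b', b, h, hb', hb⟩)
  · rintro S hS hSo ⟨x0, hx0⟩
    obtain ⟨b0, hb0⟩ := hex x0 (hS hx0)
    obtain ⟨b, ⟨x, hx, hb⟩, hmin⟩ := WellFounded.has_min (wellFounded_lt (α := μ.ToType))
      {b | ∃ x ∈ S, Ix B g x b} ⟨b0, x0, hx0, hb0⟩
    refine ⟨x, hx, fun y hy => ?_⟩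
    obtain ⟨b', hb'⟩ := hex y (hS hy)
    rcases lt_trichotomy b b' with h | rfl | h
    · exact Or.inr ⟨hSo x hx, hSo y hy, b, b', h, hb, hb'⟩
    · exact Or.inl (hinj y x b (hSo y hy) (hSo x hx) hb' hb)
    · exact absurd h (hmin b' ⟨y, hy, hb'⟩)

end Pool.Agent.Helper2.SW
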