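import Pool.Agent.Helper2.SW.Asm
import Pool.Agent.Helper63.SM.Asm
import Pool.Agent.Helper98.SW.PhiW2
import Pool.Agent.Helper23.SC.Z2

/-!
# Project SW: the main theorem
-/

set_option autoImplicit false

namespace Pool.Agent.Helper2.SW

open Cardinal Pool.Agent.Helper33.HM Pool.Agent.Helper23.XB Pool.Agent.Helper23.SC
open Pool.Agent.Helper63.WR
open Pool.Agent.Helper87.Sym (Fml)

theorem main : ∃ φ : Fml, IsSigma1 φ ∧ φ.bd ≤ 3 ∧ ((∃ κ : Cardinal.{0}, Supercompact κ) →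
    ∃ M : Set ZFSet.{0}, M.Countable ∧ Pool.Agent.Helper32.HB.IsTransModelZFC M ∧
      (∃ k, Pool.Agent.Helper23.SC.IsSupercompactIn M k) ∧
      ∃ w2, IsOmega2In M w2 ∧ DefinesWellOrder φ M w2) := by
  obtain ⟨φ, h1, h2, h3⟩ := Pool.Agent.Helper98.SW.exists_formula
  refine ⟨φ, h1, h2, ?_⟩
  rintro ⟨κ, hκ⟩
  obtain ⟨δ, P, _, _, hδ, hP, hcc, hcol, hB⟩ := exists_forcing hκ
  refine Pool.Agent.Helper63.SM.model_of_bwo (P := P) h3 hδ hcc ?_ hB
    (fun M => ∃ k, Pool.Agent.Helper23.SC.IsSupercompactIn M k) ?_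
  · intro α h0 hα
    obtain ⟨F, hF⟩ := hcol α h0 hα
    exact ⟨F, hF.disj, hF.tot, hF.onto⟩
  · filter_upwards [ae_supercompact κ hκ hP] with g hg
    exact ⟨_, hg⟩

end Pool.Agent.Helper2.SW
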