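import Pool.Agent.Helper2.SW.Res

/-!
# Project SW: the merge lemma

`x` is a datum and `y` extends the restriction of `x` to `X`. The merge of `x` and `y` has the height
of `y`; at the new levels the indices of `x` outside `X` get fresh vertices. A copy of a tournament in
the merge is a copy in `y` or lies at one new level, and then it is a copy in the adjacency relation
of the indices of `x`.
-/

set_option autoImplicit false

namespace Pool.Agent.Helper2.SW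

open Set

/-! ### The merge of two data -/

namespace Dat

variable {S : Type}

open Classical in
/-- The value of the index `a` at the new level `k`: `fr a k` if `a` is not in `X`. -/
noncomputable def val (X : Set S) (fr : S → ℕ → ℕ) (y : Dat S) (a : S) (k : ℕ) : ℕ :=
  if a ∈ X then y.r a k else fr a k

open Classical in
/-- The arcs of the merge. -/
noncomputable def mE (D : S → S → Prop) (X : Set S) (fr : S → ℕ → ℕ) (x y : Dat S) :
    Finset (ℕ × ℕ) :=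
  y.E ∪ (((x.u ×ˢ x.u) ×ˢ Finset.Ico x.n y.n).filter fun z => D z.1.1 z.1.2).image
    fun z => (val X fr y z.1.1 z.2, val X fr y z.1.2 z.2)

/-- Numbers which are new for `x` and `y`. -/
structure Fresh (fr : S → ℕ → ℕ) (x y : Dat S) : Prop where
  inj : ∀ a ∈ x.u, ∀ k, ∀ b ∈ x.u, ∀ l, fr a k = fr b l → a = b ∧ k = l
  arcl : ∀ a k w, (fr a k, w) ∉ y.E
  arcr : ∀ a k w, (w, fr a k) ∉ y.E
  val : ∀ a k b l, b ∈ y.u → l < y.n → fr a k ≠ y.r b l

theorem exists_fresh (x y : Dat S) : ∃ fr, Fresh fr x y := by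
  classical
  obtain ⟨M, hM⟩ : ∃ M : ℕ, (∀ z ∈ y.E, z.1 < M ∧ z.2 < M) ∧
      ∀ b ∈ y.u, ∀ l, l < y.n → y.r b l < M := by
    refine ⟨(y.E.sup fun z => z.1 ⊔ z.2) ⊔ ((y.u ×ˢ Finset.range y.n).sup fun z => y.r z.1 z.2) + 1,
      fun z hz => ?_, fun b hb l hl => ?_⟩
    · have h1 : z.1 ⊔ z.2 ≤ y.E.sup fun z => z.1 ⊔ z.2 :=
        Finset.le_sup (f := fun z : ℕ × ℕ => z.1 ⊔ z.2) hz
      have h2 : z.1 ≤ z.1 ⊔ z.2 := le_sup_left
      have h3 : z.2 ≤ z.1 ⊔ z.2 := le_sup_right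
      have h4 : (y.E.sup fun z => z.1 ⊔ z.2) ≤ (y.E.sup fun z => z.1 ⊔ z.2) ⊔
        ((y.u ×ˢ Finset.range y.n).sup fun z => y.r z.1 z.2) := le_sup_left
      omega
    · have h1 : y.r b l ≤ (y.u ×ˢ Finset.range y.n).sup fun z => y.r z.1 z.2 :=
        Finset.le_sup (f := fun z : S × ℕ => y.r z.1 z.2) (b := (b, l))
          (Finset.mem_product.2 ⟨hb, Finset.mem_range.2 hl⟩)
      have h4 : ((y.u ×ˢ Finset.range y.n).sup fun z => y.r z.1 z.2) ≤
        (y.E.sup fun z => z.1 ⊔ z.2) ⊔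
        ((y.u ×ˢ Finset.range y.n).sup fun z => y.r z.1 z.2) := le_sup_right
      omega
  let e : S → ℕ := fun a => if h : a ∈ x.u then (x.u.equivFin ⟨a, h⟩ : ℕ) else 0
  have he : ∀ a ∈ x.u, ∀ b ∈ x.u, e a = e b → a = b := by
    intro a ha b hb hab
    simp only [e, dif_pos ha, dif_pos hb] at hab
    have h1 := x.u.equivFin.injective (Fin.ext hab)
    exact congrArg Subtype.val h1
  have hge : ∀ a k, M ≤ M + Nat.pair (e a) k := fun a k => Nat.le_add_right _ _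
  refine ⟨fun a k => M + Nat.pair (e a) k, ?_, ?_, ?_, ?_⟩
  · intro a ha k b hb l h
    have h1 : Nat.pair (e a) k = Nat.pair (e b) l := Nat.add_left_cancel h
    rw [Nat.pair_eq_pair] at h1
    exact ⟨he a ha b hb h1.1, h1.2⟩
  · intro a k w h
    have := (hM.1 _ h).1
    have h2 := hge a k
    simp only at this
    omega
  · intro a k w h
    have := (hM.1 _ h).2
    have h2 := hge a k
    simp only at this
    omega
  · intro a k b l hb hl h
    have := hM.2 b hb l hl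
    have h2 := hge a k
    omega

section merge

variable {D : S → S → Prop} {X : Set S} {fr : S → ℕ → ℕ} {x y : Dat S}

theorem mem_mE {v w : ℕ} : (v, w) ∈ mE D X fr x y ↔ (v, w) ∈ y.E ∨
    ∃ a b k, a ∈ x.u ∧ b ∈ x.u ∧ D a b ∧ x.n ≤ k ∧ k < y.n ∧ v = val X fr y a k ∧
      w = val X fr y b k := by
  classical
  unfold mE
  simp only [Finset.mem_union, Finset.mem_image, Finset.mem_filter, Finset.mem_product,
    Finset.mem_Ico, Prod.mk.injEq]
  refine or_congr Iff.rfl ⟨?_, ?_⟩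
  · rintro ⟨⟨⟨a, b⟩, k⟩, ⟨⟨⟨ha, hb⟩, hk⟩, hD⟩, h1, h2⟩
    exact ⟨a, b, k, ha, hb, hD, hk.1, hk.2, h1.symm, h2.symm⟩
  · rintro ⟨a, b, k, ha, hb, hD, hk, hk', h1, h2⟩
    exact ⟨⟨⟨a, b⟩, k⟩, ⟨⟨⟨ha, hb⟩, hk, hk'⟩, hD⟩, h1.symm, h2.symm⟩

theorem val_pos {a : S} (ha : a ∈ X) (k : ℕ) : val X fr y a k = y.r a k := if_pos ha

theorem val_neg {a : S} (ha : a ∉ X) (k : ℕ) : val X fr y a k = fr a k := if_neg ha

variable (hxy : Dat.Le D y (x.res X)) (hyX : ∀ a ∈ y.u, a ∈ X)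
  (hfr : Fresh fr x y) (hasy : ∀ a b, D a b → ¬ D b a)
  (htot : ∀ a ∈ x.u, a ∈ X → ∀ b ∈ x.u, b ∈ X → a ≠ b → D a b ∨ D b a)

include hxy in
/-- The old arcs at the new levels. -/
theorem old_arc {a b : S} (ha : a ∈ x.u) (hb : b ∈ x.u) (haX : a ∈ X) (hbX : b ∈ X)
    (hab : D a b) {k : ℕ} (hk : x.n ≤ k) (hk' : k < y.n) : (y.r a k, y.r b k) ∈ y.E :=
  hxy.p a (mem_res_u.2 ⟨ha, haX⟩) b (mem_res_u.2 ⟨hb, hbX⟩) hab k hk hk'

include hxy htot in
/-- The values at the new levels are different. -/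
theorem old_inj {a b : S} (ha : a ∈ x.u) (hb : b ∈ x.u) (haX : a ∈ X) (hbX : b ∈ X)
    {k : ℕ} (hk : x.n ≤ k) (hk' : k < y.n) (h : y.r a k = y.r b k) : a = b := by
  by_contra hne
  rcases htot a ha haX b hb hbX hne with h1 | h1
  · have h2 := old_arc hxy ha hb haX hbX h1 hk hk'
    rw [h] at h2
    exact y.irr _ h2
  · have h2 := old_arc hxy hb ha hbX haX h1 hk hk'
    rw [h] at h2
    exact y.irr _ h2

include hxy hfr htot in
theorem val_inj {a b : S} (ha : a ∈ x.u) (hb : b ∈ x.u) {k : ℕ} (hk : x.n ≤ k) (hk' : k < y.n)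
    (h : val X fr y a k = val X fr y b k) : a = b := by
  by_cases haX : a ∈ X <;> by_cases hbX : b ∈ X
  · rw [val_pos haX, val_pos hbX] at h
    exact old_inj hxy htot ha hb haX hbX hk hk' h
  · rw [val_pos haX, val_neg hbX] at h
    exact absurd h.symm (hfr.val b k a k (hxy.u (mem_res_u.2 ⟨ha, haX⟩)) hk')
  · rw [val_neg haX, val_pos hbX] at h
    exact absurd h (hfr.val a k b k (hxy.u (mem_res_u.2 ⟨hb, hbX⟩)) hk')
  · rw [val_neg haX, val_neg hbX] at h
    exact (hfr.inj a ha k b hb k h).1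

include hxy hfr in
/-- A fresh value determines the index and the level. -/
theorem val_fresh {a b : S} (ha : a ∈ x.u) (hb : b ∈ x.u) {k l : ℕ} (hl : l < y.n)
    (haX : a ∉ X) (h : fr a k = val X fr y b l) : a = b ∧ k = l := by
  by_cases hbX : b ∈ X
  · rw [val_pos hbX] at h
    exact absurd h (hfr.val a k b l (hxy.u (mem_res_u.2 ⟨hb, hbX⟩)) hl)
  · rw [val_neg hbX] at h
    exact hfr.inj a ha k b hb l h

include hxy in
/-- An arc of the merge is an arc of `y` or one of its ends is fresh. -/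
theorem arc_cases {v w : ℕ} (h : (v, w) ∈ mE D X fr x y) : (v, w) ∈ y.E ∨
    ∃ a b k, a ∈ x.u ∧ b ∈ x.u ∧ D a b ∧ x.n ≤ k ∧ k < y.n ∧ v = val X fr y a k ∧
      w = val X fr y b k ∧ (a ∉ X ∨ b ∉ X) := by
  rcases mem_mE.1 h with h | ⟨a, b, k, ha, hb, hab, hk, hk', hv, hw⟩
  · exact Or.inl h
  · by_cases haX : a ∈ X
    · by_cases hbX : b ∈ X
      · left
        rw [hv, hw, val_pos haX, val_pos hbX]
        exact old_arc hxy ha hb haX hbX hab hk hk'
      · exact Or.inr ⟨a, b, k, ha, hb, hab, hk, hk', hv, hw, Or.inr hbX⟩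
    · exact Or.inr ⟨a, b, k, ha, hb, hab, hk, hk', hv, hw, Or.inl haX⟩

include hxy hfr hasy htot in
theorem mE_asym (v w : ℕ) (h : (v, w) ∈ mE D X fr x y) : (w, v) ∉ mE D X fr x y := by
  intro h'
  rcases arc_cases hxy h with h1 | ⟨a, b, k, ha, hb, hab, hk, hk', hv, hw, hX⟩
  · rcases arc_cases hxy h' with h2 | ⟨a, b, k, ha, hb, hab, hk, hk', hv, hw, hX⟩
    · exact y.asym _ _ h1 h2
    · rcases hX with hX | hX
      · rw [hv, val_neg hX] at h1
        exact hfr.arcr _ _ _ h1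
      · rw [hw, val_neg hX] at h1
        exact hfr.arcl _ _ _ h1
  · rcases mem_mE.1 h' with h2 | ⟨a', b', k', ha', hb', hab', hk1, hk1', hv', hw'⟩
    · rcases hX with hX | hX
      · rw [hv, val_neg hX] at h2
        exact hfr.arcr _ _ _ h2
      · rw [hw, val_neg hX] at h2
        exact hfr.arcl _ _ _ h2
    · have hkk : k = k' := by
        rcases hX with hX | hX
        · rw [hv, val_neg hX] at hw'
          exact (val_fresh hxy hfr ha hb' hk1' hX hw').2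
        · rw [hw, val_neg hX] at hv'
          exact (val_fresh hxy hfr hb ha' hk1' hX hv').2
      subst hkk
      have h3 : a = b' := val_inj hxy hfr htot ha hb' hk hk' (hv.symm.trans hw')
      have h4 : b = a' := val_inj hxy hfr htot hb ha' hk hk' (hw.symm.trans hv')
      rw [← h3, ← h4] at hab'
      exact hasy _ _ hab hab'

open Classical in
/-- The merge of `x` and the extension `y` of `x.res X`, with the fresh vertices `fr`. -/
noncomputable def merge (D : S → S → Prop) (X : Set S) (fr : S → ℕ → ℕ) (x y : Dat S)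
    (has : ∀ v w, (v, w) ∈ mE D X fr x y → (w, v) ∉ mE D X fr x y) : Dat S where
  E := mE D X fr x y
  n := y.n
  u := y.u ∪ x.u
  r a k := if a ∈ X then y.r a k else if a ∈ x.u ∧ k < y.n then
    (if k < x.n then x.r a k else fr a k) else 0
  asym := has
  out a k h := by
    by_cases ha : a ∈ X
    · rw [if_pos ha]
      refine y.out a k fun h' => h ⟨Finset.mem_union_left _ h'.1, h'.2⟩
    · rw [if_neg ha, if_neg]
      exact fun h' => h ⟨Finset.mem_union_right _ h'.1, h'.2⟩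

variable {has : ∀ v w, (v, w) ∈ mE D X fr x y → (w, v) ∉ mE D X fr x y}

theorem merge_r_pos {a : S} (ha : a ∈ X) (k : ℕ) : (merge D X fr x y has).r a k = y.r a k :=
  if_pos ha

open Classical in
theorem merge_r_neg {a : S} (ha : a ∉ X) (k : ℕ) :
    (merge D X fr x y has).r a k = if a ∈ x.u ∧ k < y.n then
      (if k < x.n then x.r a k else fr a k) else 0 := if_neg ha

include hxy in
theorem merge_r_old {a : S} (ha : a ∈ x.u) {k : ℕ} (hk : k < x.n) :
    (merge D X fr x y has).r a k = x.r a k := by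
  classical
  by_cases h : a ∈ X
  · rw [merge_r_pos h, hxy.r a (mem_res_u.2 ⟨ha, h⟩) k hk, res_r h]
  · rw [merge_r_neg h, if_pos ⟨ha, hk.trans_le hxy.n⟩, if_pos hk]

theorem merge_r_new {a : S} (ha : a ∈ x.u) {k : ℕ} (hk : x.n ≤ k) (hk' : k < y.n) :
    (merge D X fr x y has).r a k = val X fr y a k := by
  classical
  by_cases h : a ∈ X
  · rw [merge_r_pos h, val_pos h]
  · rw [merge_r_neg h, if_pos ⟨ha, hk'⟩, if_neg (not_lt.2 hk), val_neg h]

include hxy in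
theorem merge_le_left : Dat.Le D (merge D X fr x y has) x where
  E := hxy.E.trans Finset.subset_union_left
  n := hxy.n
  u := by classical exact Finset.subset_union_right
  r a ha k hk := merge_r_old hxy ha hk
  p a ha b hb hab k hk hk' := by
    have hk'' : k < y.n := hk'
    rw [merge_r_new ha hk hk'', merge_r_new hb hk hk'']
    exact mem_mE.2 (Or.inr ⟨a, b, k, ha, hb, hab, hk, hk'', rfl, rfl⟩)

include hyX in
theorem merge_le_right : Dat.Le D (merge D X fr x y has) y where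
  E := Finset.subset_union_left
  n := le_rfl
  u := by classical exact Finset.subset_union_left
  r a ha k _ := merge_r_pos (hyX a ha) k
  p a ha b hb hab k hk hk' := absurd hk' (not_lt.2 hk)

include hxy hfr hasy htot in
/-- A copy of a tournament in the merge is in `y` or in the adjacency relation of the indices
of `x`. -/
theorem copy_merge {J : Type} {T : Pat J} {j : J}
    (h : ∃ h : ℕ → ℕ, T.Cp j (fun a b => (a, b) ∈ mE D X fr x y) h) :
    (∃ h : ℕ → ℕ, T.Cp j (fun a b => (a, b) ∈ y.E) h) ∨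
      (x.n < y.n ∧ ∃ e : ℕ → S, (∀ v, v < T.N j → e v ∈ x.u) ∧ T.Cp j D e) := by
  classical
  obtain ⟨φ, hφ⟩ := h
  by_cases hall : ∀ v w, v < T.N j → w < T.N j → T.arc j v w → (φ v, φ w) ∈ y.E
  · exact Or.inl ⟨φ, hall⟩
  right
  push Not at hall
  obtain ⟨v1, w1, hv1, hw1, hvw, hno⟩ := hall
  have hfresh : ∃ v0 a0 k0, v0 < T.N j ∧ a0 ∈ x.u ∧ a0 ∉ X ∧ x.n ≤ k0 ∧ k0 < y.n ∧
      φ v0 = fr a0 k0 := by
    rcases arc_cases hxy (hφ _ _ hv1 hw1 hvw) with h1 | ⟨a, b, k, ha, hb, hab, hk, hk', hv, hw, hX⟩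
    · exact absurd h1 hno
    · rcases hX with hX | hX
      · exact ⟨v1, a, k, hv1, ha, hX, hk, hk', by rw [hv, val_neg hX]⟩
      · exact ⟨w1, b, k, hw1, hb, hX, hk, hk', by rw [hw, val_neg hX]⟩
  obtain ⟨v0, a0, k0, hv0N, ha0, ha0X, hk0, hk0', hv0⟩ := hfresh
  have hψ : ∀ v, ∃ a, v < T.N j → a ∈ x.u ∧ φ v = val X fr y a k0 := by
    intro v
    by_cases hvN : v < T.N j
    · by_cases hv : v = v0
      · exact ⟨a0, fun _ => ⟨ha0, by rw [hv, hv0, val_neg ha0X]⟩⟩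
      · rcases T.tot j v v0 hvN hv0N hv with h1 | h1
        · rcases mem_mE.1 (hφ _ _ hvN hv0N h1) with h2 | ⟨a, b, k, ha, hb, hab, hk, hk', hv', hw'⟩
          · rw [hv0] at h2
            exact absurd h2 (hfr.arcr _ _ _)
          · rw [hv0] at hw'
            have := (val_fresh hxy hfr ha0 hb hk' ha0X hw').2
            exact ⟨a, fun _ => ⟨ha, by rw [hv', this]⟩⟩
        · rcases mem_mE.1 (hφ _ _ hv0N hvN h1) with h2 | ⟨a, b, k, ha, hb, hab, hk, hk', hv', hw'⟩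
          · rw [hv0] at h2
            exact absurd h2 (hfr.arcl _ _ _)
          · rw [hv0] at hv'
            have := (val_fresh hxy hfr ha0 ha hk' ha0X hv').2
            exact ⟨b, fun _ => ⟨hb, by rw [hw', this]⟩⟩
    · exact ⟨a0, fun h => absurd h hvN⟩
  choose ψ hψ using hψ
  refine ⟨by omega, ψ, fun v hv => (hψ v hv).1, fun v w hvN hwN hvw => ?_⟩
  obtain ⟨hψu, hψv⟩ := hψ v hvN
  obtain ⟨hψu', hψw⟩ := hψ w hwN
  have harc := hφ v w hvN hwN hvw
  have hne : ψ v ≠ ψ w := by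
    intro h
    rw [hψv, hψw, h] at harc
    exact mE_asym hxy hfr hasy htot _ _ harc harc
  by_cases hX : ψ v ∈ X ∧ ψ w ∈ X
  · rcases htot _ hψu hX.1 _ hψu' hX.2 hne with h1 | h1
    · exact h1
    · exfalso
      have h2 : (φ w, φ v) ∈ mE D X fr x y := by
        rw [hψv, hψw]
        exact mem_mE.2 (Or.inr ⟨ψ w, ψ v, k0, hψu', hψu, h1, hk0, hk0', rfl, rfl⟩)
      exact mE_asym hxy hfr hasy htot _ _ harc h2
  · have hX' : ψ v ∉ X ∨ ψ w ∉ X := by
      by_cases h1 : ψ v ∈ X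
      · exact Or.inr fun h2 => hX ⟨h1, h2⟩
      · exact Or.inl h1
    rcases mem_mE.1 harc with h2 | ⟨a, b, k, ha, hb, hab, hk, hk', hv', hw'⟩
    · exfalso
      rcases hX' with h3 | h3
      · rw [hψv, val_neg h3] at h2
        exact hfr.arcl _ _ _ h2
      · rw [hψw, val_neg h3] at h2
        exact hfr.arcr _ _ _ h2
    · have hkk : k = k0 := by
        rcases hX' with h3 | h3
        · rw [hψv, val_neg h3] at hv'
          exact (val_fresh hxy hfr hψu ha hk' h3 hv').2.symm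
        · rw [hψw, val_neg h3] at hw'
          exact (val_fresh hxy hfr hψu' hb hk' h3 hw').2.symm
      subst hkk
      rw [hψv] at hv'
      rw [hψw] at hw'
      rw [val_inj hxy hfr htot hψu ha hk hk' hv', val_inj hxy hfr htot hψu' hb hk hk' hw']
      exact hab

end merge

/-- The merge of two data. -/
theorem exists_merge {D : S → S → Prop} (hasy : ∀ a b, D a b → ¬ D b a) {X : Set S}
    {x y : Dat S} (hxy : Dat.Le D y (x.res X)) (hyX : ∀ a ∈ y.u, a ∈ X)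
    (htot : ∀ a ∈ x.u, a ∈ X → ∀ b ∈ x.u, b ∈ X → a ≠ b → D a b ∨ D b a) :
    ∃ z : Dat S, Dat.Le D z x ∧ Dat.Le D z y ∧ z.n = y.n ∧ (∀ a ∈ z.u, a ∈ y.u ∨ a ∈ x.u) ∧
      ∀ (J : Type) (T : Pat J) (j : J), (∃ h : ℕ → ℕ, T.Cp j (fun a b => (a, b) ∈ z.E) h) →
        (∃ h : ℕ → ℕ, T.Cp j (fun a b => (a, b) ∈ y.E) h) ∨
        (x.n < y.n ∧ ∃ e : ℕ → S, (∀ v, v < T.N j → e v ∈ x.u) ∧ T.Cp j D e) := by
  classical
  obtain ⟨fr, hfr⟩ := exists_fresh x y
  have has := mE_asym hxy hfr hasy htot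
  refine ⟨merge D X fr x y has, merge_le_left hxy, merge_le_right hyX, rfl, fun a ha => ?_,
    fun J T j h => copy_merge hxy hfr hasy htot h⟩
  exact Finset.mem_union.1 ha

end Dat

/-! ### The merge lemma -/

section

variable {C S J : Type} [Preorder C] [LT S] {T : Pat J} {Z : S → J → Set (Raw C S)}

/-- The merge lemma: `p` and an extension `q` of the restriction of `p` to `X` have a common
extension. -/
theorem merge_gen {A : S → S → S → Prop} (hasy : ∀ s x y, A s x y → ¬ A s y x) {X : Set S}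
    {p q : Raw C S} (hp : Valid T Z p) (hq : Valid T Z q) (hqX : q.On X)
    (hqp : q.Le A (p.res X))
    (hcode : ∀ s, (p.f s ≠ Dat.emp ∨ q.f s ≠ Dat.emp) → ∀ j, ∀ b ∈ Z s j, ∀ t,
      ∀ x ∈ (b.f t).u, ∀ y ∈ (b.f t).u, x < y → A t x y)
    (hframe : ∀ s ∈ X, ∀ x ∈ (p.f s).u, x ∈ X → ∀ y ∈ (p.f s).u, y ∈ X → x ≠ y →
      A s x y ∨ A s y x)
    (hemb : ∀ s ∈ X, ∀ j, (p.f s).n < (q.f s).n → ∀ e : ℕ → S,
      (∀ v, v < T.N j → e v ∈ (p.f s).u) → T.Cp j (A s) e →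
      ∃ b ∈ Z s j, p.Le lt3 b ∨ q.Le lt3 b) :
    ∃ r, Valid T Z r ∧ r.Le A p ∧ r.Le A q ∧ r.c = q.c ∧ ∀ Y : Set S, p.On Y → q.On Y → r.On Y := by
  classical
  have hloc : ∀ s, ∃ z : Dat S, s ∈ X → Dat.Le (A s) z (p.f s) ∧ Dat.Le (A s) z (q.f s) ∧
      z.n = (q.f s).n ∧ (∀ a ∈ z.u, a ∈ (q.f s).u ∨ a ∈ (p.f s).u) ∧
      ∀ (J : Type) (T : Pat J) (j : J), (∃ h : ℕ → ℕ, T.Cp j (fun a b => (a, b) ∈ z.E) h) →
        (∃ h : ℕ → ℕ, T.Cp j (fun a b => (a, b) ∈ (q.f s).E) h) ∨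
        ((p.f s).n < (q.f s).n ∧ ∃ e : ℕ → S, (∀ v, v < T.N j → e v ∈ (p.f s).u) ∧
          T.Cp j (A s) e) := by
    intro s
    by_cases hs : s ∈ X
    · have h1 := hqp.2 s
      rw [Raw.res_f_pos hs] at h1
      obtain ⟨z, hz⟩ := Dat.exists_merge (hasy s) h1 (hqX.2 s) (hframe s hs)
      exact ⟨z, fun _ => hz⟩
    · exact ⟨Dat.emp, fun h => absurd h hs⟩
  choose z hz using hloc
  let r : Raw C S := ⟨q.c, fun s => if s ∈ X ∧ (p.f s ≠ Dat.emp ∨ q.f s ≠ Dat.emp) then z s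
    else p.f s, (p.fin.union q.fin).subset fun s hs => by
      by_contra hne
      rw [Set.mem_union, not_or] at hne
      simp only [Set.mem_ofPred_eq, not_not] at hne
      apply hs
      rw [if_neg, hne.1]
      rintro ⟨-, h | h⟩
      · exact h hne.1
      · exact h hne.2⟩
  have hrc : r.c = q.c := rfl
  have hrB : ∀ s, s ∈ X → (p.f s ≠ Dat.emp ∨ q.f s ≠ Dat.emp) → r.f s = z s :=
    fun s h1 h2 => if_pos ⟨h1, h2⟩
  have hrN : ∀ s, ¬ (s ∈ X ∧ (p.f s ≠ Dat.emp ∨ q.f s ≠ Dat.emp)) → r.f s = p.f s :=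
    fun s h => if_neg h
  have hrp : r.Le A p := by
    refine ⟨hqp.1, fun s => ?_⟩
    by_cases h : s ∈ X ∧ (p.f s ≠ Dat.emp ∨ q.f s ≠ Dat.emp)
    · rw [hrB s h.1 h.2]
      exact (hz s h.1).1
    · rw [hrN s h]
      exact Dat.Le.refl _ _
  have hrq : r.Le A q := by
    refine ⟨le_rfl, fun s => ?_⟩
    by_cases h : s ∈ X ∧ (p.f s ≠ Dat.emp ∨ q.f s ≠ Dat.emp)
    · rw [hrB s h.1 h.2]
      exact (hz s h.1).2.1
    · rw [show q.f s = Dat.emp from ?_]
      · exact Dat.Le.emp _ _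
      · by_contra hne
        exact h ⟨hqX.1 s hne, Or.inr hne⟩
  refine ⟨r, fun s j h => ?_, hrp, hrq, hrc, fun Y hpY hqY => ⟨fun s hs => ?_, fun s a ha => ?_⟩⟩
  · by_cases hs : s ∈ X ∧ (p.f s ≠ Dat.emp ∨ q.f s ≠ Dat.emp)
    · rw [hrB s hs.1 hs.2] at h
      have key : ∀ b ∈ Z s j, (p.Le lt3 b ∨ q.Le lt3 b) → ∃ b ∈ Z s j, r.Le lt3 b := by
        rintro b hb (h1 | h1)
        · exact ⟨b, hb, Raw.le_of_le hrp h1 (hcode s hs.2 j b hb)⟩
        · exact ⟨b, hb, Raw.le_of_le hrq h1 (hcode s hs.2 j b hb)⟩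
      rcases (hz s hs.1).2.2.2.2 J T j h with h1 | ⟨h1, e, he, he'⟩
      · obtain ⟨b, hb, hqb⟩ := hq s j h1
        exact key b hb (Or.inr hqb)
      · obtain ⟨b, hb, hb'⟩ := hemb s hs.1 j h1 e he he'
        exact key b hb hb'
    · rw [hrN s hs] at h
      obtain ⟨b, hb, hpb⟩ := hp s j h
      exact ⟨b, hb, Raw.le_of_le hrp hpb (hcode s (Or.inl (cp_ne_emp h)) j b hb)⟩
  · by_cases h : s ∈ X ∧ (p.f s ≠ Dat.emp ∨ q.f s ≠ Dat.emp)
    · rcases h.2 with h1 | h1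
      · exact hpY.1 s h1
      · exact hqY.1 s h1
    · rw [hrN s h] at hs
      exact hpY.1 s hs
  · by_cases h : s ∈ X ∧ (p.f s ≠ Dat.emp ∨ q.f s ≠ Dat.emp)
    · rw [hrB s h.1 h.2] at ha
      rcases (hz s h.1).2.2.2.1 a ha with h1 | h1
      · exact hqY.2 s a h1
      · exact hpY.2 s a h1
    · rw [hrN s h] at ha
      exact hpY.2 s a ha

end

/-- The merge lemma. `A` is any asymmetric adjacency which agrees with the order on the codes of the
stages of `p` and `q`. -/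
theorem merge {C S J : Type} [Preorder C] [LT S] {T : Pat J} {Z : S → J → Set (Raw C S)}
    {A : S → S → S → Prop} (hA : ∀ s x y, A s x y → ¬ A s y x)
    {X : Set S} {p q : Raw C S} (hp : Valid T Z p) (hq : Valid T Z q) (hqX : q.On X)
    (hle : q.Le A (p.res X))
    (code : ∀ s j, p.f s ≠ Dat.emp ∨ q.f s ≠ Dat.emp → ∀ b ∈ Z s j, ∀ t, ∀ x ∈ (b.f t).u,
      ∀ y ∈ (b.f t).u, (A t x y ↔ x < y))
    (frame : ∀ s ∈ X, ∀ x ∈ (p.f s).u, ∀ y ∈ (p.f s).u, x ∈ X → y ∈ X → x ≠ y →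
      A s x y ∨ A s y x)
    (emb : ∀ s ∈ X, ∀ j, ∀ e : ℕ → S, (∀ v, v < T.N j → e v ∈ (p.f s).u) → T.Cp j (A s) e →
      (p.f s).n < (q.f s).n → ∃ b ∈ Z s j, q.Le lt3 b) :
    ∃ r : Raw C S, Valid T Z r ∧ r.Le A p ∧ r.Le A q ∧ ∀ Y : Set S, p.On Y → q.On Y → r.On Y := by
  obtain ⟨r, h1, h2, h3, -, h4⟩ := merge_gen hA hp hq hqX hle
    (fun s hs j b hb t x hx y hy hxy => (code s j hs b hb t x hx y hy).2 hxy)
    (fun s hs x hx hxX y hy hyX hne => frame s hs x hx y hy hxX hyX hne)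
    (fun s hs j hn e he he' => by
      obtain ⟨b, hb, hqb⟩ := emb s hs j e he he' hn
      exact ⟨b, hb, Or.inr hqb⟩)
  exact ⟨r, h1, h2, h3, h4⟩

end Pool.Agent.Helper2.SW
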