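import Pool.Agent.Helper2.SW.Merge

/-!
# Project SW: the merge lemma for the poset itself
-/

set_option autoImplicit false

namespace Pool.Agent.Helper2.SW

open Set

section MergeLt

variable {C S J : Type} [Preorder C] [LinearOrder S] {T : Pat J} {Z : S → J → Set (Raw C S)}

omit [Preorder C] in
/-- A tournament `T_j` does not embed in a linear order. -/
theorem not_cp_lt (j : J) (e : ℕ → S) : ¬ T.Cp j (fun x y => x < y) e := by
  classical
  intro h
  have h3 := T.three j
  obtain ⟨v, hv, hmin⟩ := Finset.exists_min_image (Finset.range (T.N j)) e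
    ⟨0, Finset.mem_range.2 (by omega)⟩
  obtain ⟨w, hw, hwv⟩ := T.nosrc j v (Finset.mem_range.1 hv)
  exact absurd (h w v hw (Finset.mem_range.1 hv) hwv)
    (not_lt.2 (hmin w (Finset.mem_range.2 hw)))

theorem merge_lt {X : Set S} {p q : Raw C S} (hp : Valid T Z p) (hq : Valid T Z q)
    (hqX : q.On X) (hle : q.Le lt3 (p.res X)) :
    ∃ r : Raw C S, Valid T Z r ∧ r.Le lt3 p ∧ r.Le lt3 q ∧
      ∀ Y : Set S, p.On Y → q.On Y → r.On Y := by
  refine merge (A := lt3) (fun s x y h h' => lt_asymm h h') hp hq hqX hle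
    (fun s j _ b _ t x _ y _ => Iff.rfl) (fun s _ x _ y _ _ _ hne => lt_or_gt_of_ne hne) ?_
  intro s _ j e _ he _
  exact absurd he (not_cp_lt j e)

end MergeLt

end Pool.Agent.Helper2.SW
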