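import Pool.Agent.Helper2.SW.NBB

/-!
# Project SW: the combinatorial core of the non-existence theorem
-/

set_option autoImplicit false

namespace Pool.Agent.Helper2.SW

open Set

section NB

variable {C I J : Type} [Preorder C] [LinearOrder I] {T : Pat J} {i : J}
  {Z : I → J → Set (Raw C I)} {R : Set I} {Y : ℕ → Set I} {D : Set I}
  {c : ℕ → ℕ → ℕ → Set (Raw C I)}

omit [LinearOrder I] in
theorem XX_subset_Tot {a b : ℕ} (ha : a < T.N i) (hb : b < T.N i) :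
    XX R Y a b ⊆ Tot T i R Y := by
  rintro x ((hx | hx) | (hx | hx))
  · exact Or.inl hx
  · exact Or.inr ⟨a, ha, hx⟩
  · exact Or.inl hx
  · exact Or.inr ⟨b, hb, hx⟩

/-- One step: an extension `q` of the restriction of `p` to the frame `X` is amalgamated with `p`. -/
theorem pstep (hc : IsCopies Z R Y c) {p q : Raw C I} (hp : Valid T Z p)
    (hpT : p.On (Tot T i R Y)) (hD : ∀ s ∈ D, Hits p (Z s i)) {X : Set I}
    (hX : X ⊆ Tot T i R Y)
    (hframe : ∀ s x y, x ∈ X → y ∈ X → x ≠ y → Adj T i R Y D s x y ∨ Adj T i R Y D s y x)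
    (hq : Valid T Z q) (hqX : q.On X) (hqp : q.Le (Adj T i R Y D) (p.res X)) :
    ∃ r, Valid T Z r ∧ r.On (Tot T i R Y) ∧ r.Le (Adj T i R Y D) p ∧
      r.Le (Adj T i R Y D) q := by
  have L := hc.lay
  have hcode : ∀ s, (p.f s ≠ Dat.emp ∨ q.f s ≠ Dat.emp) → ∀ j, ∀ b ∈ Z s j, ∀ t,
      ∀ x ∈ (b.f t).u, ∀ y ∈ (b.f t).u, x < y → Adj T i R Y D t x y := by
    intro s hs j b hb t x hx y hy hxy
    have h1 : s ∈ Tot T i R Y := by
      rcases hs with hs | hs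
      · exact hpT.1 s hs
      · exact hX (hqX.1 s hs)
    have h2 : ∃ v, s ∈ R ∪ Y v := by
      rcases h1 with h1 | ⟨v, -, h1⟩
      · exact ⟨0, Or.inl h1⟩
      · exact ⟨v, Or.inr h1⟩
    obtain ⟨v, hv⟩ := h2
    have h3 := hc.closed v s hv j b hb
    exact (adj_same L (h3.2 t x hx) (h3.2 t y hy)).2 hxy
  obtain ⟨r, h1, h2, h3, -, h4⟩ := merge_gen (adj_asym L) hp hq hqX hqp hcode
    (fun s _ x _ hx y _ hy hne => hframe s x y hx hy hne)
    (by
      intro s _ j _ e he he'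
      obtain ⟨rfl, hs⟩ := adj_emb L (fun v hv => hpT.2 s _ (he v hv)) he'
      obtain ⟨b, hb, hpb⟩ := hD s hs
      exact ⟨b, hb, Or.inl hpb⟩)
  exact ⟨r, h1, h4 _ hpT (hqX.mono hX), h2, h3⟩

theorem frame_same (L : Lay R Y) {v : ℕ} (s x y : I) (hx : x ∈ R ∪ Y v) (hy : y ∈ R ∪ Y v)
    (hne : x ≠ y) : Adj T i R Y D s x y ∨ Adj T i R Y D s y x := by
  rw [adj_same L hx hy, adj_same L hy hx]
  exact lt_or_gt_of_ne hne

theorem frame_XX (L : Lay R Y) {v w : ℕ} (hv : v < T.N i) (hw : w < T.N i)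
    (hvw : T.arc i v w) (he : ¬ (v = 0 ∧ w = 1)) (s x y : I) (hx : x ∈ XX R Y v w)
    (hy : y ∈ XX R Y v w) (hne : x ≠ y) : Adj T i R Y D s x y ∨ Adj T i R Y D s y x := by
  have hvw' : v ≠ w := by
    rintro rfl
    exact T.irr i v hvw
  rcases XX_cases hx hy with h1 | h1 | h1 | h1
  · exact frame_same L s x y h1.1 h1.2 hne
  · exact frame_same L s x y h1.1 h1.2 hne
  · exact Or.inl ((adj_cross L hvw' h1.1 h1.2).2 ⟨hv, hw, hvw, fun h2 h3 => absurd ⟨h2, h3⟩ he⟩)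
  · exact Or.inr ((adj_cross L hvw' h1.2 h1.1).2 ⟨hv, hw, hvw, fun h2 h3 => absurd ⟨h2, h3⟩ he⟩)

/-- From `m` on, the values of the names `0` and `1` are joined. -/
def Thr (T : Pat J) (Z : I → J → Set (Raw C I)) (R : Set I) (Y : ℕ → Set I)
    (c : ℕ → ℕ → ℕ → Set (Raw C I)) (G : ℕ → ℕ → Set (Raw C I)) (m : ℕ) (q : Raw C I) : Prop :=
  ∀ k, m ≤ k → ∀ r' : Raw C I, Valid T Z r' → r'.On (XX R Y 0 1) → r'.Le lt3 q →
    ∃ r'' : Raw C I, Valid T Z r'' ∧ r''.Le lt3 r' ∧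
      ∃ a b, Hits r'' (c 0 k a) ∧ Hits r'' (c 1 k b) ∧ Hits r'' (G a b)

variable {G : ℕ → ℕ → Set (Raw C I)}

theorem Thr.mono {m m' : ℕ} {q q' : Raw C I} (h : Thr T Z R Y c G m q) (hm : m ≤ m')
    (hq : q'.Le lt3 q) : Thr T Z R Y c G m' q' :=
  fun k hk r' h1 h2 h3 => h k (hm.trans hk) r' h1 h2 (h3.trans hq)

theorem no_copies [WellFoundedLT I] (hcop : IsCopies Z R Y c)
    (G : ℕ → ℕ → Set (Raw C I)) (hG : ∀ a b, ∀ p ∈ G a b, p.On R)
    (W : J → Set (Raw C I)) (hW : ∀ j, ∀ p ∈ W j, p.On R)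
    (p0 : Raw C I) (hp0 : Valid T Z p0) (hp0R : p0.On R)
    (H0 : ∀ a k l l' (q : Raw C I), Valid T Z q → q.Le lt3 p0 → Hits q (c a k l) →
      Hits q (c a k l') → l = l')
    (H0' : ∀ a k (q : Raw C I), Valid T Z q → q.Le lt3 p0 →
      ∃ r : Raw C I, Valid T Z r ∧ r.Le lt3 q ∧ ∃ l, Hits r (c a k l))
    (H1 : ∀ q : Raw C I, Valid T Z q → q.Le lt3 p0 → ∃ r : Raw C I, Valid T Z r ∧ r.Le lt3 q ∧
      ∃ m : ℕ, ∀ k, m ≤ k → ∀ r' : Raw C I, Valid T Z r' → r'.Le lt3 r →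
        ∃ r'' : Raw C I, Valid T Z r'' ∧ r''.Le lt3 r' ∧
          ∃ a b, Hits r'' (c 0 k a) ∧ Hits r'' (c 1 k b) ∧ Hits r'' (G a b))
    (H2 : ∀ j (q : Raw C I), Valid T Z q → q.Le lt3 p0 → Hits q (W j) →
      ∀ h : ℕ → ℕ, ¬ T.Cp j (fun a b => Hits q (G a b)) h)
    (H4 : ∀ q : Raw C I, Valid T Z q → q.Le lt3 p0 → ∀ D : Finset I,
      ∃ r : Raw C I, Valid T Z r ∧ r.Le lt3 q ∧ ∃ j, Hits r (W j) ∧ ∀ s ∈ D, Hits r (Z s j)) :
    False := by
  classical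
  have L := hcop.lay
  have hcl : ∀ a b, Closed Z (XX R Y a b) := hcop.closed_XX
  have hRX : ∀ a b, R ⊆ XX R Y a b := root_subset_XX
  -- below every condition with support in `XX 0 1` there is one with a threshold
  have stepA : ∀ q : Raw C I, Valid T Z q → q.On (XX R Y 0 1) → q.Le lt3 p0 →
      ∃ r : Raw C I, Valid T Z r ∧ r.On (XX R Y 0 1) ∧ r.Le lt3 q ∧
        ∃ m, Thr T Z R Y c G m r := by
    intro q hq hqX hq0
    obtain ⟨r, hr, hrq, m, hm⟩ := H1 q hq hq0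
    refine ⟨r.res (XX R Y 0 1), valid_res (hcl 0 1) hr, res_on _ _, res_le_of hrq hqX, m, ?_⟩
    intro k hk r' hr' hr'X hr'r
    obtain ⟨r1, h1, h2, h3, -⟩ := merge_lt hr hr' hr'X hr'r
    obtain ⟨r'', h4, h5, h6⟩ := hm k hk r1 h1 h2
    exact ⟨r'', h4, h5.trans h3, h6⟩
  -- the first condition
  obtain ⟨q1, hq1, hq1X, hq10, m1, hm1⟩ := stepA p0 hp0 (hp0R.mono (hRX 0 1)) (Raw.Le.refl p0)
  have hfin := q1.fin
  obtain ⟨r, hr, hrq1, i, hWi, hDi⟩ := H4 q1 hq1 hq10 hfin.toFinset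
  let D : Set I := {s | q1.f s ≠ Dat.emp}
  let q2 := r.res (XX R Y 0 1)
  have hq2 : Valid T Z q2 := valid_res (hcl 0 1) hr
  have hq2X : q2.On (XX R Y 0 1) := res_on _ _
  have hq21 : q2.Le lt3 q1 := res_le_of hrq1 hq1X
  have hq2W : Hits q2 (W i) := hWi.res fun b hb => (hW i b hb).mono (hRX 0 1)
  have hDX : ∀ s ∈ D, s ∈ XX R Y 0 1 := fun s hs => hq1X.1 s hs
  have hq2D : ∀ s ∈ D, Hits q2 (Z s i) := fun s hs =>
    (hDi s (hfin.mem_toFinset.2 hs)).res (hcl 0 1 s (hDX s hs) i)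
  have hN := T.three i
  -- the conditions below `q2`
  let St : Raw C I → Prop := fun p => Valid T Z p ∧ p.On (Tot T i R Y) ∧
    p.Le (Adj T i R Y D) q2
  have hSt2 : St q2 := ⟨hq2, hq2X.mono (XX_subset_Tot (by omega) (by omega)), Raw.Le.refl _⟩
  have hStD : ∀ p, St p → ∀ s ∈ D, Hits p (Z s i) := by
    intro p hp s hs
    obtain ⟨v, hv⟩ : ∃ v, s ∈ R ∪ Y v := by
      rcases hDX s hs with h1 | h1
      · exact ⟨0, h1⟩
      · exact ⟨1, h1⟩
    exact (hq2D s hs).adj L v hp.2.2 (hcop.closed v s hv i)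
  have hStq1 : ∀ p, St p → p.Le lt3 q1 := by
    intro p hp
    refine Raw.le_of_le hp.2.2 hq21 fun s x hx y hy hxy => ?_
    refine (isoTo_refl (Z := Z) (c := c)).adj_of_lt L (by omega) (by omega) (T.first i) ?_
      (hq1X.2 s x hx) (hq1X.2 s y hy) hxy
    intro _ _ h
    rw [h] at hx
    exact absurd hx (Finset.notMem_empty _)
  have hSt0 : ∀ p, St p → p.Le lt3 p0 := fun p hp => (hStq1 p hp).trans hq10
  -- one step
  have step : ∀ p, St p → ∀ X : Set I, X ⊆ Tot T i R Y →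
      (∀ s x y, x ∈ X → y ∈ X → x ≠ y → Adj T i R Y D s x y ∨ Adj T i R Y D s y x) →
      ∀ q : Raw C I, Valid T Z q → q.On X → q.Le (Adj T i R Y D) (p.res X) →
      ∃ r, St r ∧ r.Le (Adj T i R Y D) p ∧ r.Le (Adj T i R Y D) q := by
    intro p hp X hX hf q hq hqX hqp
    obtain ⟨r, h1, h2, h3, h4⟩ := pstep hcop hp.1 hp.2.1 (hStD p hp) hX hf hq hqX hqp
    exact ⟨r, ⟨h1, h2, h3.trans hp.2.2⟩, h3, h4⟩
  -- links
  let Lk : ℕ → ℕ → ℕ → Raw C I → Prop := fun v w m p =>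
    ∃ σ : Equiv.Perm I, IsoTo Z R Y c v w σ ∧ Thr T Z R Y c G m ((p.res (XX R Y v w)).perm σ)
  have hLk01 : ∀ p, St p → Lk 0 1 m1 p := by
    intro p hp
    refine ⟨Equiv.refl I, isoTo_refl, ?_⟩
    rw [Raw.perm_refl]
    exact hm1.mono le_rfl (res_le_of (hStq1 p hp) hq1X)
  have hLkmono : ∀ v w m m' p p', v < T.N i → w < T.N i → T.arc i v w → ¬ (v = 0 ∧ w = 1) →
      m ≤ m' → p'.Le (Adj T i R Y D) p → Lk v w m p → Lk v w m' p' := by
    rintro v w m m' p p' hv hw hvw he hm hp ⟨σ, hσ, hT⟩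
    refine ⟨σ, hσ, hT.mono hm ?_⟩
    refine (res_mono hp _).perm fun s x hx y hy hxy => ?_
    exact hσ.adj_of_lt L hv hw hvw (fun h1 h2 => absurd ⟨h1, h2⟩ he)
      ((res_on _ p).2 s x hx) ((res_on _ p).2 s y hy) hxy
  have stepC : ∀ v w p, v < T.N i → w < T.N i → T.arc i v w → ¬ (v = 0 ∧ w = 1) → St p →
      ∃ p', St p' ∧ p'.Le (Adj T i R Y D) p ∧ ∃ m, Lk v w m p' := by
    intro v w p hv hw hvw he hp
    have hne : v ≠ w := by
      rintro rfl
      exact T.irr i v hvw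
    obtain ⟨σ, hσ⟩ := hcop.iso v w hne
    have hpX := res_on (XX R Y v w) p
    have h1 : Valid T Z ((p.res (XX R Y v w)).perm σ) :=
      hσ.valid_perm hcop (valid_res (hcl v w) hp.1) hpX
    have h2 : ((p.res (XX R Y v w)).perm σ).On (XX R Y 0 1) := hpX.perm fun x hx => hσ.map_XX hx
    have h3 : ((p.res (XX R Y v w)).perm σ).Le lt3 p0 :=
      hσ.le_root hp0R (res_le_of (hSt0 p hp) (hp0R.mono (hRX v w)))
    obtain ⟨r, hr, hrX, hrq, m, hm⟩ := stepA _ h1 h2 h3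
    have h4 : Valid T Z (r.perm σ.symm) := hσ.valid_perm_symm hcop hr hrX
    have h5 : (r.perm σ.symm).On (XX R Y v w) := hrX.perm fun x hx => hσ.symm_XX hx
    have h6 : (r.perm σ.symm).Le (Adj T i R Y D) (p.res (XX R Y v w)) := by
      have h7 : (r.perm σ.symm).Le (Adj T i R Y D)
          (((p.res (XX R Y v w)).perm σ).perm σ.symm) := by
        refine hrq.perm fun s x hx y hy hxy => ?_
        have h8 := hσ.lt_of_adj L hvw (hσ.symm_XX (h2.2 s x hx)) (hσ.symm_XX (h2.2 s y hy)) hxy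
        rwa [Equiv.apply_symm_apply, Equiv.apply_symm_apply] at h8
      rwa [Raw.perm_symm] at h7
    obtain ⟨p', h7, h8, h9⟩ := step p hp _ (XX_subset_Tot hv hw)
      (frame_XX L hv hw hvw he) _ h4 h5 h6
    refine ⟨p', h7, h8, m, σ, hσ, hm.mono le_rfl ?_⟩
    have h10 : ((p'.res (XX R Y v w)).perm σ).Le lt3 ((r.perm σ.symm).perm σ) := by
      refine (res_le_of h9 h5).perm fun s x hx y hy hxy => ?_
      exact hσ.adj_of_lt L hv hw hvw (fun h1 h2 => absurd ⟨h1, h2⟩ he)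
        (h5.2 s x hx) (h5.2 s y hy) hxy
    rwa [Raw.perm_symm'] at h10
  -- all links
  have allC : ∀ F : Finset (ℕ × ℕ), (∀ e ∈ F, e.1 < T.N i ∧ e.2 < T.N i ∧ T.arc i e.1 e.2 ∧
      ¬ (e.1 = 0 ∧ e.2 = 1)) → ∀ p, St p →
      ∃ p', St p' ∧ p'.Le (Adj T i R Y D) p ∧ ∃ m, ∀ e ∈ F, Lk e.1 e.2 m p' := by
    intro F
    induction F using Finset.induction_on with
    | empty => exact fun _ p hp => ⟨p, hp, Raw.Le.refl _, 0, by simp⟩
    | insert e F he ih =>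
      intro hF p hp
      obtain ⟨p', h1, h2, m, h3⟩ := ih (fun e he => hF e (Finset.mem_insert_of_mem he)) p hp
      obtain ⟨h4, h5, h6, h7⟩ := hF e (Finset.mem_insert_self _ _)
      obtain ⟨p'', g1, g2, m', g3⟩ := stepC e.1 e.2 p' h4 h5 h6 h7 h1
      refine ⟨p'', g1, g2.trans h2, max m m', fun e' he' => ?_⟩
      rcases Finset.mem_insert.1 he' with rfl | he'
      · exact hLkmono _ _ _ _ _ _ h4 h5 h6 h7 (le_max_right _ _) (Raw.Le.refl _) g3
      · obtain ⟨k4, k5, k6, k7⟩ := hF e' (Finset.mem_insert_of_mem he')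
        exact hLkmono _ _ _ _ _ _ k4 k5 k6 k7 (le_max_left _ _) g2 (h3 e' he')
  let E : Finset (ℕ × ℕ) := ((Finset.range (T.N i)) ×ˢ (Finset.range (T.N i))).filter
    fun e => T.arc i e.1 e.2 ∧ ¬ (e.1 = 0 ∧ e.2 = 1)
  obtain ⟨p3, hp3, -, m, hm⟩ := allC E (fun e he => by
    obtain ⟨h1, h2, h3⟩ := Finset.mem_filter.1 he
    obtain ⟨h4, h5⟩ := Finset.mem_product.1 h1
    exact ⟨Finset.mem_range.1 h4, Finset.mem_range.1 h5, h2, h3⟩) q2 hSt2
  have hLk : ∀ v w p, v < T.N i → w < T.N i → T.arc i v w → St p → p.Le (Adj T i R Y D) p3 →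
      Lk v w (max m m1) p := by
    intro v w p hv hw hvw hp hpp
    by_cases he : v = 0 ∧ w = 1
    · obtain ⟨rfl, rfl⟩ := he
      obtain ⟨σ, hσ, hT⟩ := hLk01 p hp
      exact ⟨σ, hσ, hT.mono (le_max_right _ _) (Raw.Le.refl _)⟩
    · refine hLkmono v w m _ p3 p hv hw hvw he (le_max_left _ _) hpp (hm (v, w) ?_)
      exact Finset.mem_filter.2 ⟨Finset.mem_product.2 ⟨Finset.mem_range.2 hv,
        Finset.mem_range.2 hw⟩, hvw, he⟩
  -- the values at one level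
  set K := max m m1 with hK
  have allD : ∀ n : ℕ, n ≤ T.N i → ∃ p, St p ∧ p.Le (Adj T i R Y D) p3 ∧ ∃ h : ℕ → ℕ,
      ∀ v, v < n → Hits p (c v K (h v)) := by
    intro n
    induction n with
    | zero => exact fun _ => ⟨p3, hp3, Raw.Le.refl _, fun _ => 0, fun v hv => absurd hv (by omega)⟩
    | succ n ih =>
      intro hn
      obtain ⟨p, hp, hpp, h, hh⟩ := ih (by omega)
      have hnX : R ∪ Y n ⊆ Tot T i R Y := by
        rintro x (hx | hx)
        · exact Or.inl hx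
        · exact Or.inr ⟨n, by omega, hx⟩
      have hpn : Valid T Z (p.res (R ∪ Y n)) := valid_res (hcop.closed n) hp.1
      obtain ⟨r, hr, hrp, l, hl⟩ := H0' n K _ hpn
        (res_le_of (hSt0 p hp) (hp0R.mono subset_union_left))
      have h1 : (r.res (R ∪ Y n)).Le lt3 (p.res (R ∪ Y n)) := res_le_of hrp (res_on _ _)
      have h2 : (r.res (R ∪ Y n)).Le (Adj T i R Y D) (p.res (R ∪ Y n)) :=
        (le_congr fun s x hx y hy => (adj_same L ((res_on _ p).2 s x hx)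
          ((res_on _ p).2 s y hy))).2 h1
      obtain ⟨p', h3, h4, h5⟩ := step p hp (R ∪ Y n) hnX (frame_same L) _
        (valid_res (hcop.closed n) hr) (res_on _ _) h2
      refine ⟨p', h3, h4.trans hpp, fun v => if v = n then l else h v, fun v hv => ?_⟩
      by_cases hvn : v = n
      · subst hvn
        beta_reduce
        rw [if_pos rfl]
        exact (hl.res (hcop.on v K l)).adj L v h5 (hcop.on v K l)
      · beta_reduce
        rw [if_neg hvn]
        exact (hh v (by omega)).adj L v h4 (hcop.on v K _)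
  obtain ⟨p4, hp4, hp43, h, hh⟩ := allD (T.N i) le_rfl
  -- the arcs
  have hG' : ∀ a b, ∀ q ∈ G a b, q.On (R ∪ Y 0) := fun a b q hq =>
    (hG a b q hq).mono subset_union_left
  have hhp : ∀ p, p.Le (Adj T i R Y D) p4 → ∀ v, v < T.N i → Hits p (c v K (h v)) :=
    fun p hp v hv => (hh v hv).adj L v hp (hcop.on v K _)
  have stepE : ∀ v w p, v < T.N i → w < T.N i → T.arc i v w → St p →
      p.Le (Adj T i R Y D) p4 → ∃ p', St p' ∧ p'.Le (Adj T i R Y D) p ∧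
        Hits p' (G (h v) (h w)) := by
    intro v w p hv hw hvw hp hpp
    obtain ⟨σ, hσ, hT⟩ := hLk v w p hv hw hvw hp (hpp.trans hp43)
    have hpX := res_on (XX R Y v w) p
    have h1 : Valid T Z ((p.res (XX R Y v w)).perm σ) :=
      hσ.valid_perm hcop (valid_res (hcl v w) hp.1) hpX
    have h2 : ((p.res (XX R Y v w)).perm σ).On (XX R Y 0 1) := hpX.perm fun x hx => hσ.map_XX hx
    have h3 : ((p.res (XX R Y v w)).perm σ).Le lt3 p0 :=
      hσ.le_root hp0R (res_le_of (hSt0 p hp) (hp0R.mono (hRX v w)))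
    obtain ⟨r, hr, hrp, a, b, ha, hb, hab⟩ := hT K le_rfl _ h1 h2 (Raw.Le.refl _)
    have h4 : Hits (p.res (XX R Y v w)) (c v K (h v)) := (hhp p hpp v hv).res fun q hq =>
      (hcop.on v K _ q hq).mono subset_union_left
    have h5 : Hits (p.res (XX R Y v w)) (c w K (h w)) := (hhp p hpp w hw).res fun q hq =>
      (hcop.on w K _ q hq).mono subset_union_right
    have h6 : h v = a := H0 0 K _ _ r hr (hrp.trans h3) ((hσ.hits_left hcop h4).mono hrp) ha
    have h7 : h w = b := H0 1 K _ _ r hr (hrp.trans h3) ((hσ.hits_right hcop h5).mono hrp) hb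
    rw [← h6, ← h7] at hab
    have h8 : (r.res R).Le lt3 (p.res R) := by
      have h9 := res_mono hrp R
      rwa [hσ.res_root] at h9
    have h9 : (r.res R).Le (Adj T i R Y D) (p.res R) :=
      (le_congr fun s x hx y hy => (adj_same L (v := 0) (Or.inl ((res_on _ p).2 s x hx))
        (Or.inl ((res_on _ p).2 s y hy)))).2 h8
    obtain ⟨p', g1, g2, g3⟩ := step p hp R (fun x hx => Or.inl hx)
      (fun s x y hx hy hne => frame_same L (v := 0) s x y (Or.inl hx) (Or.inl hy) hne) _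
      (valid_res hcop.root hr) (res_on _ _) h9
    exact ⟨p', g1, g2, (hab.res (hG _ _)).adj L 0 g3 (hG' _ _)⟩
  have allE : ∀ F : Finset (ℕ × ℕ), (∀ e ∈ F, e.1 < T.N i ∧ e.2 < T.N i ∧ T.arc i e.1 e.2) →
      ∃ p, St p ∧ p.Le (Adj T i R Y D) p4 ∧ ∀ e ∈ F, Hits p (G (h e.1) (h e.2)) := by
    intro F
    induction F using Finset.induction_on with
    | empty => exact fun _ => ⟨p4, hp4, Raw.Le.refl _, by simp⟩
    | insert e F he ih =>
      intro hF
      obtain ⟨p, h1, h2, h3⟩ := ih (fun e he => hF e (Finset.mem_insert_of_mem he))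
      obtain ⟨h4, h5, h6⟩ := hF e (Finset.mem_insert_self _ _)
      obtain ⟨p', g1, g2, g3⟩ := stepE e.1 e.2 p h4 h5 h6 h1 h2
      refine ⟨p', g1, g2.trans h2, fun e' he' => ?_⟩
      rcases Finset.mem_insert.1 he' with rfl | he'
      · exact g3
      · exact (h3 e' he').adj L 0 g2 (hG' _ _)
  let E' : Finset (ℕ × ℕ) := ((Finset.range (T.N i)) ×ˢ (Finset.range (T.N i))).filter
    fun e => T.arc i e.1 e.2
  obtain ⟨p5, hp5, hp54, h5⟩ := allE E' (fun e he => by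
    obtain ⟨h1, h2⟩ := Finset.mem_filter.1 he
    obtain ⟨h4, h5⟩ := Finset.mem_product.1 h1
    exact ⟨Finset.mem_range.1 h4, Finset.mem_range.1 h5, h2⟩)
  refine H2 i p5 hp5.1 (hSt0 p5 hp5)
    (hq2W.adj L 0 hp5.2.2 fun b hb => (hW i b hb).mono subset_union_left) h ?_
  intro v w hv hw hvw
  exact h5 (v, w) (Finset.mem_filter.2 ⟨Finset.mem_product.2 ⟨Finset.mem_range.2 hv,
    Finset.mem_range.2 hw⟩, hvw⟩)

end NB

end Pool.Agent.Helper2.SW
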