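import Pool.Agent.Helper2.SW.Perm
import Pool.Agent.Helper2.SW.Defs3

/-!
# Project SW: the adjacency of the poset with many copies

`R` is the root, `Y v` are the copies. The tournament `T_i` is placed on the copies `Y v`,
`v < T.N i`; the arc from `0` to `1` is placed only at the stages in `D`.
-/

set_option autoImplicit false

namespace Pool.Agent.Helper2.SW

open Set

section Adj

variable {I J : Type} [LinearOrder I]

/-- The adjacency relation: the arcs of the tournament `T_i` between the copies, the arc from `0` to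
`1` only at the stages in `D`. -/
def Adj (T : Pat J) (i : J) (R : Set I) (Y : ℕ → Set I) (D : Set I) (s x y : I) : Prop :=
  (x ∈ R ∧ x < y) ∨ (∃ v, x ∈ Y v ∧ y ∈ Y v ∧ x < y) ∨
    ∃ v w, v < T.N i ∧ w < T.N i ∧ T.arc i v w ∧ x ∈ Y v ∧ y ∈ Y w ∧ (v = 0 → w = 1 → s ∈ D)

/-- The root and the copies `v < T.N i`. -/
def Tot (T : Pat J) (i : J) (R : Set I) (Y : ℕ → Set I) : Set I :=
  {x | x ∈ R ∨ ∃ v, v < T.N i ∧ x ∈ Y v}

/-- The order of the root and the copies. -/
structure Lay (R : Set I) (Y : ℕ → Set I) : Prop where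
  lt_root : ∀ a, ∀ x ∈ R, ∀ y ∈ Y a, x < y
  lt_copy : ∀ a b, a < b → ∀ x ∈ Y a, ∀ y ∈ Y b, x < y

variable {T : Pat J} {i : J} {R : Set I} {Y : ℕ → Set I} {D : Set I}

theorem Pat.irr {J : Type} (T : Pat J) (j : J) (v : ℕ) : ¬ T.arc j v v :=
  fun h => T.asym j v v h h

theorem Lay.notR (L : Lay R Y) {x : I} {a : ℕ} (h : x ∈ Y a) : x ∉ R :=
  fun h' => lt_irrefl _ (L.lt_root a x h' x h)

theorem Lay.disj (L : Lay R Y) {x : I} {a b : ℕ} (h : x ∈ Y a) (h' : x ∈ Y b) : a = b := by
  rcases lt_trichotomy a b with h1 | h1 | h1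
  · exact absurd (L.lt_copy a b h1 x h x h') (lt_irrefl _)
  · exact h1
  · exact absurd (L.lt_copy b a h1 x h' x h) (lt_irrefl _)

theorem adj_same (L : Lay R Y) {v : ℕ} {s x y : I} (hx : x ∈ R ∪ Y v) (hy : y ∈ R ∪ Y v) :
    Adj T i R Y D s x y ↔ x < y := by
  constructor
  · rintro (⟨-, h⟩ | ⟨a, -, -, h⟩ | ⟨a, b, -, -, hab, h1, h2, -⟩)
    · exact h
    · exact h
    · have h3 : x ∈ Y v := hx.resolve_left (L.notR h1)
      have h4 : y ∈ Y v := hy.resolve_left (L.notR h2)
      rw [L.disj h1 h3, L.disj h2 h4] at hab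
      exact absurd hab (T.irr i v)
  · intro h
    rcases hx with hx | hx
    · exact Or.inl ⟨hx, h⟩
    · rcases hy with hy | hy
      · exact absurd (L.lt_root v y hy x hx) (not_lt.2 h.le)
      · exact Or.inr (Or.inl ⟨v, hx, hy, h⟩)

theorem adj_cross (L : Lay R Y) {v w : ℕ} (hvw : v ≠ w) {s x y : I} (hx : x ∈ Y v)
    (hy : y ∈ Y w) : Adj T i R Y D s x y ↔
      v < T.N i ∧ w < T.N i ∧ T.arc i v w ∧ (v = 0 → w = 1 → s ∈ D) := by
  constructor
  · rintro (⟨h, -⟩ | ⟨a, h1, h2, -⟩ | ⟨a, b, ha, hb, hab, h1, h2, h3⟩)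
    · exact absurd h (L.notR hx)
    · exact absurd ((L.disj hx h1).trans (L.disj h2 hy)) hvw
    · rw [L.disj hx h1, L.disj hy h2]
      exact ⟨ha, hb, hab, h3⟩
  · rintro ⟨h1, h2, h3, h4⟩
    exact Or.inr (Or.inr ⟨v, w, h1, h2, h3, hx, hy, h4⟩)

theorem adj_asym (L : Lay R Y) (s x y : I) (h : Adj T i R Y D s x y) :
    ¬ Adj T i R Y D s y x := by
  rintro (⟨h1, h1'⟩ | ⟨a, h1, h1', h1''⟩ | ⟨a, b, ha, hb, hab, h1, h1', -⟩)
  · rcases h with ⟨h2, h2'⟩ | ⟨c, h2, h2', h2''⟩ | ⟨c, d, hc, hd, hcd, h2, h2', -⟩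
    · exact lt_asymm h1' h2'
    · exact L.notR h2' h1
    · exact L.notR h2' h1
  · rcases h with ⟨h2, h2'⟩ | ⟨c, h2, h2', h2''⟩ | ⟨c, d, hc, hd, hcd, h2, h2', -⟩
    · exact L.notR h1' h2
    · exact lt_asymm h1'' h2''
    · have h3 := L.disj h1' h2
      have h4 := L.disj h1 h2'
      rw [← h3, ← h4] at hcd
      exact T.irr i a hcd
  · rcases h with ⟨h2, h2'⟩ | ⟨c, h2, h2', h2''⟩ | ⟨c, d, hc, hd, hcd, h2, h2', -⟩
    · exact L.notR h1' h2
    · have h3 := L.disj h1' h2
      have h4 := L.disj h1 h2'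
      rw [h3, h4] at hab
      exact T.irr i c hab
    · have h3 := L.disj h1' h2
      have h4 := L.disj h1 h2'
      rw [h3, h4] at hab
      exact T.asym i _ _ hab hcd

/-- A copy of a tournament `T_j` in the adjacency relation: `j = i` and the stage is in `D`. -/
theorem adj_emb (L : Lay R Y) {s : I} {j : J} {e : ℕ → I}
    (he : ∀ v, v < T.N j → e v ∈ Tot T i R Y) (hcp : T.Cp j (Adj T i R Y D s) e) :
    j = i ∧ s ∈ D := by
  classical
  -- no value in the root
  have h1 : ∀ v, v < T.N j → e v ∉ R := by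
    intro v0 hv0 hv0R
    obtain ⟨v, hv, hmin⟩ := Finset.exists_min_image
      ((Finset.range (T.N j)).filter fun v => e v ∈ R) e
      ⟨v0, Finset.mem_filter.2 ⟨Finset.mem_range.2 hv0, hv0R⟩⟩
    rw [Finset.mem_filter, Finset.mem_range] at hv
    obtain ⟨w, hw, hwv⟩ := T.nosrc j v hv.1
    rcases hcp w v hw hv.1 hwv with ⟨h3, h4⟩ | ⟨a, h3, h4, h5⟩ | ⟨a, b, _, _, _, h3, h4, _⟩
    · exact absurd h4 (not_lt.2 (hmin w (Finset.mem_filter.2 ⟨Finset.mem_range.2 hw, h3⟩)))
    · exact L.notR h4 hv.2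
    · exact L.notR h4 hv.2
  have h2 : ∀ v, ∃ b, v < T.N j → b < T.N i ∧ e v ∈ Y b := by
    intro v
    by_cases hv : v < T.N j
    · obtain ⟨b, hb⟩ := (he v hv).resolve_left (h1 v hv)
      exact ⟨b, fun _ => hb⟩
    · exact ⟨0, fun h => absurd h hv⟩
  choose b hb using h2
  have hsame : ∀ v w, v < T.N j → w < T.N j → T.arc j v w → b v = b w → e v < e w := by
    intro v w hv hw hvw hbb
    have h3 := hcp v w hv hw hvw
    rwa [adj_same L (v := b v) (Or.inr (hb v hv).2) (Or.inr (hbb ▸ (hb w hw).2))] at h3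
  have hdiff : ∀ v w, v < T.N j → w < T.N j → T.arc j v w → b v ≠ b w →
      T.arc i (b v) (b w) ∧ (b v = 0 → b w = 1 → s ∈ D) := by
    intro v w hv hw hvw hbb
    have h3 := hcp v w hv hw hvw
    rw [adj_cross L hbb (hb v hv).2 (hb w hw).2] at h3
    exact h3.2.2
  have hne : ∀ v w, v < T.N j → w < T.N j → v ≠ w → e v ≠ e w := by
    intro v w hv hw hvw h3
    rcases T.tot j v w hv hw hvw with h4 | h4
    · have h5 := hcp v w hv hw h4
      rw [h3] at h5
      exact adj_asym L s _ _ h5 h5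
    · have h5 := hcp w v hw hv h4
      rw [h3] at h5
      exact adj_asym L s _ _ h5 h5
  have key : ∀ n : ℕ, ∀ v w, v < T.N j → w < T.N j → b v = b w → e v < e w →
      ((Finset.range (T.N j)).filter fun z => b z = b v ∧ e v < e z ∧ e z < e w).card = n →
      False := by
    intro n
    induction n using Nat.strong_induction_on with
    | _ n ih =>
      intro v w hv hw hvw hlt hn
      have hvw' : v ≠ w := by
        rintro rfl
        exact lt_irrefl _ hlt
      obtain ⟨z, hz, hzv, hzw, hiff⟩ := T.notwin j v w hv hw hvw'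
      by_cases hvz : T.arc j v z
      · have h3 : ¬ T.arc j w z := hiff.1 hvz
        have h4 : T.arc j z w := (T.tot j w z hw hz (Ne.symm hzw)).resolve_left h3
        by_cases hzb : b z = b v
        · have h5 : e v < e z := hsame v z hv hz hvz hzb.symm
          have h6 : e z < e w := hsame z w hz hw h4 (hzb.trans hvw)
          refine ih _ ?_ v z hv hz hzb.symm h5 rfl
          rw [← hn]
          apply Finset.card_lt_card
          rw [Finset.ssubset_iff_of_subset]
          · refine ⟨z, ?_, ?_⟩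
            · rw [Finset.mem_filter, Finset.mem_range]
              exact ⟨hz, hzb, h5, h6⟩
            · rw [Finset.mem_filter]
              exact fun h => lt_irrefl _ h.2.2.2
          · intro y hy
            rw [Finset.mem_filter] at hy ⊢
            exact ⟨hy.1, hy.2.1, hy.2.2.1, hy.2.2.2.trans h6⟩
        · have h5 := (hdiff v z hv hz hvz (Ne.symm hzb)).1
          have h6 := (hdiff z w hz hw h4 (fun h => hzb (h.trans hvw.symm))).1
          rw [← hvw] at h6
          exact T.asym i _ _ h5 h6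
      · have h3 : T.arc j w z := by
          by_contra h
          exact hvz (hiff.2 h)
        have h4 : T.arc j z v := (T.tot j v z hv hz (Ne.symm hzv)).resolve_left hvz
        by_cases hzb : b z = b v
        · have h5 : e z < e v := hsame z v hz hv h4 hzb
          have h6 : e w < e z := hsame w z hw hz h3 (hvw.symm.trans hzb.symm)
          exact lt_asymm hlt (h6.trans h5)
        · have h5 := (hdiff z v hz hv h4 hzb).1
          have h6 := (hdiff w z hw hz h3 (fun h => hzb (h.symm.trans hvw.symm))).1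
          rw [← hvw] at h6
          exact T.asym i _ _ h5 h6
  have hinj : ∀ v w, v < T.N j → w < T.N j → b v = b w → v = w := by
    intro v w hv hw hbb
    by_contra hvw
    rcases lt_or_gt_of_ne (hne v w hv hw hvw) with h3 | h3
    · exact key _ v w hv hw hbb h3 rfl
    · exact key _ w v hw hv hbb.symm h3 rfl
  have hhom : ∀ v w, v < T.N j → w < T.N j → T.arc j v w → T.arc i (b v) (b w) := by
    intro v w hv hw hvw
    refine (hdiff v w hv hw hvw fun h => ?_).1
    rw [hinj v w hv hw h] at hvw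
    exact T.irr j w hvw
  have hij : i = j := T.anti i j b (fun v hv => (hb v hv).1) hhom
  subst hij
  refine ⟨rfl, ?_⟩
  have h3 := T.three i
  have himg : (Finset.range (T.N i)).image b = Finset.range (T.N i) := by
    apply Finset.eq_of_subset_of_card_le
    · intro x hx
      obtain ⟨y, hy, rfl⟩ := Finset.mem_image.1 hx
      exact Finset.mem_range.2 (hb y (Finset.mem_range.1 hy)).1
    · rw [Finset.card_image_of_injOn]
      intro x hx y hy hxy
      exact hinj x y (Finset.mem_range.1 hx) (Finset.mem_range.1 hy) hxy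
  have hv0 : 0 ∈ (Finset.range (T.N i)).image b := by
    rw [himg]
    exact Finset.mem_range.2 (by omega)
  have hv1 : 1 ∈ (Finset.range (T.N i)).image b := by
    rw [himg]
    exact Finset.mem_range.2 (by omega)
  obtain ⟨v, hv, hbv⟩ := Finset.mem_image.1 hv0
  obtain ⟨w, hw, hbw⟩ := Finset.mem_image.1 hv1
  rw [Finset.mem_range] at hv hw
  have hvw : v ≠ w := by
    rintro rfl
    omega
  have hbb : b v ≠ b w := by omega
  rcases T.tot i v w hv hw hvw with h4 | h4
  · exact (hdiff v w hv hw h4 hbb).2 hbv hbw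
  · have h5 := hhom w v hw hv h4
    rw [hbv, hbw] at h5
    exact absurd h5 (T.asym i _ _ (T.first i))

end Adj

end Pool.Agent.Helper2.SW
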