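import Pool.Agent.Helper2.SW.NBA

/-!
# Project SW: hits, transport of conditions between the copies
-/

set_option autoImplicit false

namespace Pool.Agent.Helper2.SW

open Set

/-! ### Hits -/

section Hits

variable {C I J : Type} [Preorder C] [LinearOrder I] {T : Pat J} {i : J}
  {Z : I → J → Set (Raw C I)} {R : Set I} {Y : ℕ → Set I} {D : Set I}
  {c : ℕ → ℕ → ℕ → Set (Raw C I)}

theorem Hits.mono {p q : Raw C I} {N : Set (Raw C I)} (h : Hits q N) (hpq : p.Le lt3 q) :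
    Hits p N := by
  obtain ⟨b, hb, hqb⟩ := h
  exact ⟨b, hb, hpq.trans hqb⟩

theorem Hits.res {q : Raw C I} {N : Set (Raw C I)} {X : Set I} (h : Hits q N)
    (hN : ∀ b ∈ N, b.On X) : Hits (q.res X) N := by
  obtain ⟨b, hb, hqb⟩ := h
  exact ⟨b, hb, res_le_of hqb (hN b hb)⟩

/-- Going down in the order given by the adjacency relation keeps being below a condition with
support in the root and one copy. -/
theorem lt3_of_adj (L : Lay R Y) {v : ℕ} {p q b : Raw C I} (h : p.Le (Adj T i R Y D) q)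
    (h' : q.Le lt3 b) (hb : b.On (R ∪ Y v)) : p.Le lt3 b :=
  Raw.le_of_le h h' fun s x hx y hy hxy => (adj_same L (hb.2 s x hx) (hb.2 s y hy)).2 hxy

theorem Hits.adj (L : Lay R Y) (v : ℕ) {p q : Raw C I} {N : Set (Raw C I)} (h : Hits q N)
    (hpq : p.Le (Adj T i R Y D) q) (hN : ∀ b ∈ N, b.On (R ∪ Y v)) : Hits p N := by
  obtain ⟨b, hb, hqb⟩ := h
  exact ⟨b, hb, lt3_of_adj L hpq hqb (hN b hb)⟩

end Hits

/-! ### Transport -/

section Transport

variable {C I J : Type} [Preorder C] [LinearOrder I] {T : Pat J} {i : J}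
  {Z : I → J → Set (Raw C I)} {R : Set I} {Y : ℕ → Set I} {D : Set I}
  {c : ℕ → ℕ → ℕ → Set (Raw C I)}

omit [Preorder C] in
theorem IsCopies.lay (h : IsCopies Z R Y c) : Lay R Y := ⟨h.lt_root, h.lt_copy⟩

/-- The root and the copies `a` and `b`. -/
def XX (R : Set I) (Y : ℕ → Set I) (a b : ℕ) : Set I := (R ∪ Y a) ∪ (R ∪ Y b)

omit [Preorder C] in
theorem IsCopies.closed_XX (h : IsCopies Z R Y c) (a b : ℕ) : Closed Z (XX R Y a b) :=
  (h.closed a).union (h.closed b)

omit [LinearOrder I] in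
theorem root_subset_XX (a b : ℕ) : R ⊆ XX R Y a b := fun _ hx => Or.inl (Or.inl hx)

omit [LinearOrder I] in
theorem XX_cases {a b : ℕ} {x y : I} (hx : x ∈ XX R Y a b) (hy : y ∈ XX R Y a b) :
    (x ∈ R ∪ Y a ∧ y ∈ R ∪ Y a) ∨ (x ∈ R ∪ Y b ∧ y ∈ R ∪ Y b) ∨ (x ∈ Y a ∧ y ∈ Y b) ∨
      (x ∈ Y b ∧ y ∈ Y a) := by
  rcases hx with (hx | hx) | (hx | hx) <;> rcases hy with (hy | hy) | (hy | hy)
  · exact Or.inl ⟨Or.inl hx, Or.inl hy⟩
  · exact Or.inl ⟨Or.inl hx, Or.inr hy⟩
  · exact Or.inl ⟨Or.inl hx, Or.inl hy⟩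
  · exact Or.inr (Or.inl ⟨Or.inl hx, Or.inr hy⟩)
  · exact Or.inl ⟨Or.inr hx, Or.inl hy⟩
  · exact Or.inl ⟨Or.inr hx, Or.inr hy⟩
  · exact Or.inl ⟨Or.inr hx, Or.inl hy⟩
  · exact Or.inr (Or.inr (Or.inl ⟨hx, hy⟩))
  · exact Or.inl ⟨Or.inl hx, Or.inl hy⟩
  · exact Or.inl ⟨Or.inl hx, Or.inr hy⟩
  · exact Or.inl ⟨Or.inl hx, Or.inl hy⟩
  · exact Or.inr (Or.inl ⟨Or.inl hx, Or.inr hy⟩)
  · exact Or.inr (Or.inl ⟨Or.inr hx, Or.inl hy⟩)
  · exact Or.inr (Or.inr (Or.inr ⟨hx, hy⟩))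
  · exact Or.inr (Or.inl ⟨Or.inr hx, Or.inl hy⟩)
  · exact Or.inr (Or.inl ⟨Or.inr hx, Or.inr hy⟩)

omit [Preorder C] in
theorem isoTo_refl : IsoTo Z R Y c 0 1 (Equiv.refl I) where
  root _ _ := rfl
  left _ := Iff.rfl
  right _ := Iff.rfl
  mono_left _ _ _ _ h := h
  mono_right _ _ _ _ h := h
  code_left s _ j p := by rw [Raw.perm_refl]; rfl
  code_right s _ j p := by rw [Raw.perm_refl]; rfl
  name_left k l p := by rw [Raw.perm_refl]
  name_right k l p := by rw [Raw.perm_refl]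

namespace IsoTo

variable {a b : ℕ} {σ : Equiv.Perm I} (h : IsoTo Z R Y c a b σ) (L : Lay R Y)

include h

omit [Preorder C] in
theorem symm_root {x : I} (hx : x ∈ R) : σ.symm x = x := by
  rw [Equiv.symm_apply_eq, h.root x hx]

omit [Preorder C] in
theorem mem_root {x : I} : σ x ∈ R ↔ x ∈ R := by
  constructor
  · intro hx
    have h1 := h.symm_root hx
    rw [Equiv.symm_apply_apply] at h1
    rw [h1]
    exact hx
  · intro hx
    rw [h.root x hx]
    exact hx

omit [Preorder C] in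
theorem map_left {x : I} (hx : x ∈ R ∪ Y a) : σ x ∈ R ∪ Y 0 := by
  rcases hx with hx | hx
  · exact Or.inl (h.mem_root.2 hx)
  · exact Or.inr ((h.left x).1 hx)

omit [Preorder C] in
theorem map_right {x : I} (hx : x ∈ R ∪ Y b) : σ x ∈ R ∪ Y 1 := by
  rcases hx with hx | hx
  · exact Or.inl (h.mem_root.2 hx)
  · exact Or.inr ((h.right x).1 hx)

omit [Preorder C] in
theorem map_XX {x : I} (hx : x ∈ XX R Y a b) : σ x ∈ XX R Y 0 1 := by
  rcases hx with hx | hx
  · exact Or.inl (h.map_left hx)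
  · exact Or.inr (h.map_right hx)

omit [Preorder C] in
theorem symm_left {x : I} (hx : x ∈ R ∪ Y 0) : σ.symm x ∈ R ∪ Y a := by
  rcases hx with hx | hx
  · rw [h.symm_root hx]
    exact Or.inl hx
  · right
    rw [h.left, Equiv.apply_symm_apply]
    exact hx

omit [Preorder C] in
theorem symm_right {x : I} (hx : x ∈ R ∪ Y 1) : σ.symm x ∈ R ∪ Y b := by
  rcases hx with hx | hx
  · rw [h.symm_root hx]
    exact Or.inl hx
  · right
    rw [h.right, Equiv.apply_symm_apply]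
    exact hx

omit [Preorder C] in
theorem symm_XX {x : I} (hx : x ∈ XX R Y 0 1) : σ.symm x ∈ XX R Y a b := by
  rcases hx with hx | hx
  · exact Or.inl (h.symm_left hx)
  · exact Or.inr (h.symm_right hx)

omit [Preorder C] in
theorem lt_left {x y : I} (hx : x ∈ R ∪ Y a) (hy : y ∈ R ∪ Y a) : σ x < σ y ↔ x < y := by
  constructor
  · intro hxy
    rcases lt_trichotomy x y with h1 | h1 | h1
    · exact h1
    · rw [h1] at hxy
      exact absurd hxy (lt_irrefl _)
    · exact absurd (h.mono_left y hy x hx h1) (lt_asymm hxy)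
  · exact h.mono_left x hx y hy

omit [Preorder C] in
theorem lt_right {x y : I} (hx : x ∈ R ∪ Y b) (hy : y ∈ R ∪ Y b) : σ x < σ y ↔ x < y := by
  constructor
  · intro hxy
    rcases lt_trichotomy x y with h1 | h1 | h1
    · exact h1
    · rw [h1] at hxy
      exact absurd hxy (lt_irrefl _)
    · exact absurd (h.mono_right y hy x hx h1) (lt_asymm hxy)
  · exact h.mono_right x hx y hy

include L

omit [Preorder C] in
/-- The adjacency relation on the copies `a` and `b` is carried to the order. -/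
theorem lt_of_adj (hab : T.arc i a b) {s x y : I} (hx : x ∈ XX R Y a b) (hy : y ∈ XX R Y a b)
    (hA : Adj T i R Y D s x y) : σ x < σ y := by
  have hne : a ≠ b := by
    rintro rfl
    exact T.irr i a hab
  rcases XX_cases hx hy with h1 | h1 | h1 | h1
  · exact (h.lt_left h1.1 h1.2).2 ((adj_same L h1.1 h1.2).1 hA)
  · exact (h.lt_right h1.1 h1.2).2 ((adj_same L h1.1 h1.2).1 hA)
  · exact L.lt_copy 0 1 Nat.zero_lt_one _ ((h.left x).1 h1.1) _ ((h.right y).1 h1.2)
  · exact absurd ((adj_cross L hne.symm h1.1 h1.2).1 hA).2.2.1 (T.asym i _ _ hab)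

omit [Preorder C] in
theorem adj_of_lt (ha : a < T.N i) (hb : b < T.N i) (hab : T.arc i a b) {s x y : I}
    (hD : a = 0 → b = 1 → s ∈ D) (hx : x ∈ XX R Y a b) (hy : y ∈ XX R Y a b)
    (hxy : σ x < σ y) : Adj T i R Y D s x y := by
  have hne : a ≠ b := by
    rintro rfl
    exact T.irr i a hab
  rcases XX_cases hx hy with h1 | h1 | h1 | h1
  · exact (adj_same L h1.1 h1.2).2 ((h.lt_left h1.1 h1.2).1 hxy)
  · exact (adj_same L h1.1 h1.2).2 ((h.lt_right h1.1 h1.2).1 hxy)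
  · exact (adj_cross L hne h1.1 h1.2).2 ⟨ha, hb, hab, hD⟩
  · exact absurd hxy (lt_asymm (L.lt_copy 0 1 Nat.zero_lt_one _ ((h.left y).1 h1.2) _
      ((h.right x).1 h1.1)))

omit L

/-- Validity is transported. -/
theorem valid_perm (hc : IsCopies Z R Y c) {p : Raw C I} (hp : Valid T Z p)
    (hX : p.On (XX R Y a b)) : Valid T Z (p.perm σ) := by
  refine hp.perm fun s hs j q hq => ?_
  rcases hX.1 s hs with h1 | h1
  · have h2 := hc.closed a s h1 j q hq
    exact ⟨(h.code_left s h1 j q).1 hq, fun t x hx y hy hxy =>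
      (h.lt_left (h2.2 t x hx) (h2.2 t y hy)).1 hxy⟩
  · have h2 := hc.closed b s h1 j q hq
    exact ⟨(h.code_right s h1 j q).1 hq, fun t x hx y hy hxy =>
      (h.lt_right (h2.2 t x hx) (h2.2 t y hy)).1 hxy⟩

theorem valid_perm_symm (hc : IsCopies Z R Y c) {p : Raw C I} (hp : Valid T Z p)
    (hX : p.On (XX R Y 0 1)) : Valid T Z (p.perm σ.symm) := by
  refine hp.perm fun s hs j q hq => ?_
  rcases hX.1 s hs with h1 | h1
  · have h2 := hc.closed 0 s h1 j q hq
    refine ⟨?_, fun t x hx y hy hxy => ?_⟩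
    · rw [h.code_left _ (h.symm_left h1), Raw.perm_symm', Equiv.apply_symm_apply]
      exact hq
    · have h3 := (h.lt_left (h.symm_left (h2.2 t x hx)) (h.symm_left (h2.2 t y hy))).2 hxy
      rwa [Equiv.apply_symm_apply, Equiv.apply_symm_apply] at h3
  · have h2 := hc.closed 1 s h1 j q hq
    refine ⟨?_, fun t x hx y hy hxy => ?_⟩
    · rw [h.code_right _ (h.symm_right h1), Raw.perm_symm', Equiv.apply_symm_apply]
      exact hq
    · have h3 := (h.lt_right (h.symm_right (h2.2 t x hx)) (h.symm_right (h2.2 t y hy))).2 hxy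
      rwa [Equiv.apply_symm_apply, Equiv.apply_symm_apply] at h3

theorem hits_left (hc : IsCopies Z R Y c) {p : Raw C I} {k l : ℕ} (hp : Hits p (c a k l)) :
    Hits (p.perm σ) (c 0 k l) := by
  obtain ⟨q, hq, hpq⟩ := hp
  have h2 := hc.on a k l q hq
  exact ⟨q.perm σ, (h.name_left k l q).1 hq, hpq.perm fun t x hx y hy hxy =>
      (h.lt_left (h2.2 t x hx) (h2.2 t y hy)).1 hxy⟩

theorem hits_right (hc : IsCopies Z R Y c) {p : Raw C I} {k l : ℕ} (hp : Hits p (c b k l)) :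
    Hits (p.perm σ) (c 1 k l) := by
  obtain ⟨q, hq, hpq⟩ := hp
  have h2 := hc.on b k l q hq
  exact ⟨q.perm σ, (h.name_right k l q).1 hq, hpq.perm fun t x hx y hy hxy =>
      (h.lt_right (h2.2 t x hx) (h2.2 t y hy)).1 hxy⟩

/-- A condition on the root is not moved. -/
theorem le_root {p q : Raw C I} (hq : q.On R) (hpq : p.Le lt3 q) : (p.perm σ).Le lt3 q := by
  have h1 : (p.perm σ).Le lt3 (q.perm σ) := hpq.perm fun s x hx y hy hxy => by
    have h2 := h.root x (hq.2 s x hx)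
    have h3 := h.root y (hq.2 s y hy)
    rw [h2, h3] at hxy
    exact hxy
  rwa [Raw.perm_of_fix hq h.root] at h1

omit [Preorder C] in
theorem res_root (p : Raw C I) : ((p.res (XX R Y a b)).perm σ).res R = p.res R := by
  rw [Raw.perm_res (X := R) (fun x => h.mem_root), res_res,
    inter_eq_self_of_subset_right (root_subset_XX a b), Raw.perm_of_fix (res_on R p) h.root]

end IsoTo

end Transport

end Pool.Agent.Helper2.SW
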