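import Pool.Agent.Helper2.SW.MergeLt

/-!
# Project SW: permutations of conditions
-/

set_option autoImplicit false

namespace Pool.Agent.Helper2.SW

open Set

section Dat

variable {S : Type}

theorem Dat.perm_perm (σ τ : Equiv.Perm S) (x : Dat S) :
    (x.perm σ).perm τ = x.perm (σ.trans τ) := by
  apply Dat.ext
  · rfl
  · rfl
  · change (x.u.map σ.toEmbedding).map τ.toEmbedding = x.u.map (σ.trans τ).toEmbedding
    rw [Finset.map_map]
    rfl
  · rfl

theorem Dat.perm_refl (x : Dat S) : x.perm (Equiv.refl S) = x := by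
  apply Dat.ext
  · rfl
  · rfl
  · exact Finset.map_refl
  · rfl

theorem Dat.mem_perm_u {σ : Equiv.Perm S} {x : Dat S} {a : S} :
    a ∈ (x.perm σ).u ↔ σ.symm a ∈ x.u := by
  change a ∈ x.u.map σ.toEmbedding ↔ _
  rw [Finset.mem_map]
  constructor
  · rintro ⟨b, hb, rfl⟩
    simpa using hb
  · exact fun h => ⟨_, h, by simp⟩

theorem Dat.perm_ne_emp {σ : Equiv.Perm S} {x : Dat S} : x.perm σ ≠ Dat.emp ↔ x ≠ Dat.emp := by
  constructor
  · rintro h rfl
    exact h (Dat.perm_emp σ)
  · intro h h'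
    apply h
    have h1 : (x.perm σ).perm σ.symm = Dat.emp := by rw [h', Dat.perm_emp]
    rwa [Dat.perm_perm, Equiv.self_trans_symm, Dat.perm_refl] at h1

/-- A permutation which fixes the indices of `x` fixes `x`. -/
theorem Dat.perm_of_fix {σ : Equiv.Perm S} {x : Dat S} (h : ∀ a ∈ x.u, σ a = a) :
    x.perm σ = x := by
  apply Dat.ext
  · rfl
  · rfl
  · apply Finset.ext
    intro a
    rw [Dat.mem_perm_u]
    constructor
    · intro ha
      have h1 := h _ ha
      rw [Equiv.apply_symm_apply] at h1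
      rw [h1]
      exact ha
    · intro ha
      rw [show σ.symm a = a from by rw [Equiv.symm_apply_eq, h a ha]]
      exact ha
  · funext a k
    change x.r (σ.symm a) k = x.r a k
    by_cases ha : a ∈ x.u
    · rw [show σ.symm a = a from by rw [Equiv.symm_apply_eq, h a ha]]
    · rw [x.out a k fun h' => ha h'.1]
      apply x.out
      intro h'
      have h1 := h _ h'.1
      rw [Equiv.apply_symm_apply] at h1
      rw [h1] at ha
      exact ha h'.1

theorem Dat.Le.perm {σ : Equiv.Perm S} {A A' : S → S → Prop} {x y : Dat S} (h : Dat.Le A x y)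
    (hA : ∀ a ∈ y.u, ∀ b ∈ y.u, A' (σ a) (σ b) → A a b) :
    Dat.Le A' (x.perm σ) (y.perm σ) where
  E := h.E
  n := h.n
  u a ha := Dat.mem_perm_u.2 (h.u (Dat.mem_perm_u.1 ha))
  r a ha k hk := h.r _ (Dat.mem_perm_u.1 ha) k hk
  p a ha b hb hab k hk hk' := by
    have h1 := Dat.mem_perm_u.1 ha
    have h2 := Dat.mem_perm_u.1 hb
    refine h.p _ h1 _ h2 (hA _ h1 _ h2 ?_) k hk hk'
    rw [Equiv.apply_symm_apply, Equiv.apply_symm_apply]
    exact hab

end Dat

namespace Raw

variable {C S : Type}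

@[simp] theorem perm_c (σ : Equiv.Perm S) (p : Raw C S) : (p.perm σ).c = p.c := rfl

@[simp] theorem perm_f (σ : Equiv.Perm S) (p : Raw C S) (s : S) :
    (p.perm σ).f s = (p.f (σ.symm s)).perm σ := rfl

theorem perm_perm (σ τ : Equiv.Perm S) (p : Raw C S) :
    (p.perm σ).perm τ = p.perm (σ.trans τ) := by
  apply Raw.ext
  · rfl
  · funext s
    change ((p.f (σ.symm (τ.symm s))).perm σ).perm τ = (p.f _).perm _
    rw [Dat.perm_perm]
    rfl

theorem perm_refl (p : Raw C S) : p.perm (Equiv.refl S) = p := by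
  apply Raw.ext
  · rfl
  · funext s
    exact Dat.perm_refl _

theorem perm_symm (σ : Equiv.Perm S) (p : Raw C S) : (p.perm σ).perm σ.symm = p := by
  rw [perm_perm, Equiv.self_trans_symm, perm_refl]

theorem perm_symm' (σ : Equiv.Perm S) (p : Raw C S) : (p.perm σ.symm).perm σ = p := by
  rw [perm_perm, Equiv.symm_trans_self, perm_refl]

theorem On.perm {σ : Equiv.Perm S} {p : Raw C S} {X X' : Set S} (h : p.On X)
    (hX : ∀ x ∈ X, σ x ∈ X') : (p.perm σ).On X' := by
  constructor
  · intro s hs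
    have h1 := h.1 _ (Dat.perm_ne_emp.1 hs)
    have h2 := hX _ h1
    rwa [Equiv.apply_symm_apply] at h2
  · intro s x hx
    have h1 := h.2 _ _ (Dat.mem_perm_u.1 hx)
    have h2 := hX _ h1
    rwa [Equiv.apply_symm_apply] at h2

/-- A permutation which fixes the support of `p` fixes `p`. -/
theorem perm_of_fix {σ : Equiv.Perm S} {p : Raw C S} {X : Set S} (h : p.On X)
    (hX : ∀ x ∈ X, σ x = x) : p.perm σ = p := by
  apply Raw.ext
  · rfl
  · funext s
    rw [perm_f]
    by_cases hs : s ∈ X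
    · rw [show σ.symm s = s from by rw [Equiv.symm_apply_eq, hX s hs]]
      exact Dat.perm_of_fix fun a ha => hX a (h.2 s a ha)
    · have h1 : p.f s = Dat.emp := f_eq_emp h hs
      have h2 : p.f (σ.symm s) = Dat.emp := by
        by_contra hne
        have h3 := h.1 _ hne
        have h4 := hX _ h3
        rw [Equiv.apply_symm_apply] at h4
        rw [← h4] at h3
        exact hs h3
      rw [h1, h2, Dat.perm_emp]

theorem perm_congr {σ τ : Equiv.Perm S} {p : Raw C S} {X : Set S} (h : p.On X)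
    (hX : ∀ x ∈ X, σ x = τ x) : p.perm σ = p.perm τ := by
  have h1 : p.perm (σ.trans τ.symm) = p := perm_of_fix h fun x hx => by
    rw [Equiv.trans_apply, hX x hx, Equiv.symm_apply_apply]
  have h2 : (p.perm (σ.trans τ.symm)).perm τ = p.perm τ := by rw [h1]
  rw [perm_perm, Equiv.trans_assoc, Equiv.symm_trans_self, Equiv.trans_refl] at h2
  exact h2

theorem perm_res {σ : Equiv.Perm S} {X X' : Set S} (h : ∀ x, σ x ∈ X' ↔ x ∈ X) (p : Raw C S) :
    (p.perm σ).res X' = (p.res X).perm σ := by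
  have h' : ∀ x, x ∈ X' ↔ σ.symm x ∈ X := by
    intro x
    rw [← h, Equiv.apply_symm_apply]
  apply Raw.ext
  · rfl
  · funext s
    rw [perm_f]
    by_cases hs : s ∈ X'
    · rw [res_f_pos hs, res_f_pos ((h' s).1 hs), perm_f]
      apply Dat.ext
      · rfl
      · rfl
      · apply Finset.ext
        intro a
        rw [Dat.mem_res_u, Dat.mem_perm_u, Dat.mem_perm_u, Dat.mem_res_u, h' a]
      · funext a k
        by_cases ha : a ∈ X'
        · rw [Dat.res_r ha]
          exact (Dat.res_r ((h' a).1 ha) k).symm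
        · have h1 : (((p.f (σ.symm s)).perm σ).res X').r a k = 0 := if_neg ha
          have h2 : (((p.f (σ.symm s)).res X).perm σ).r a k = 0 :=
            if_neg fun h3 => ha ((h' a).2 h3)
          rw [h1, h2]
    · rw [res_f_neg hs, res_f_neg fun h3 => hs ((h' s).2 h3), Dat.perm_emp]

theorem Le.perm [Preorder C] {σ : Equiv.Perm S} {A A' : S → S → S → Prop} {p q : Raw C S}
    (h : p.Le A q) (hA : ∀ s, ∀ a ∈ (q.f s).u, ∀ b ∈ (q.f s).u, A' (σ s) (σ a) (σ b) → A s a b) :
    (p.perm σ).Le A' (q.perm σ) := by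
  refine ⟨h.1, fun s => (h.2 (σ.symm s)).perm fun a ha b hb hab => ?_⟩
  refine hA _ a ha b hb ?_
  rw [Equiv.apply_symm_apply]
  exact hab

end Raw

/-- Validity is preserved by a permutation which carries the codes of the stages of `p` to codes and
reflects the order on their indices. -/
theorem Valid.perm {C S J : Type} [Preorder C] [LT S] {T : Pat J} {Z : S → J → Set (Raw C S)}
    {σ : Equiv.Perm S} {p : Raw C S} (hp : Valid T Z p)
    (hZ : ∀ s, p.f s ≠ Dat.emp → ∀ j, ∀ b ∈ Z s j, b.perm σ ∈ Z (σ s) j ∧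
      ∀ t, ∀ x ∈ (b.f t).u, ∀ y ∈ (b.f t).u, σ x < σ y → x < y) : Valid T Z (p.perm σ) := by
  intro s j h
  have h1 : ∃ h : ℕ → ℕ, T.Cp j (fun a b => (a, b) ∈ (p.f (σ.symm s)).E) h := h
  obtain ⟨b, hb, hpb⟩ := hp _ j h1
  obtain ⟨h2, h3⟩ := hZ _ (cp_ne_emp h1) j b hb
  rw [Equiv.apply_symm_apply] at h2
  exact ⟨b.perm σ, h2, hpb.perm fun t x hx y hy hxy => h3 t x hx y hy hxy⟩

end Pool.Agent.Helper2.SW
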