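import Pool.Agent.Helper2.SW.Defs2

/-!
# Project SW: restrictions of conditions
-/

set_option autoImplicit false

namespace Pool.Agent.Helper2.SW

open Set

/-! ### Restrictions of data -/

namespace Dat

variable {S : Type} {A : S → S → Prop} {X Y : Set S} {x y : Dat S}

@[simp] theorem emp_E : (Dat.emp : Dat S).E = ∅ := rfl

@[simp] theorem emp_n : (Dat.emp : Dat S).n = 0 := rfl

@[simp] theorem emp_u : (Dat.emp : Dat S).u = ∅ := rfl

@[simp] theorem res_E : (x.res X).E = x.E := rfl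

@[simp] theorem res_n : (x.res X).n = x.n := rfl

@[simp] theorem mem_res_u {a : S} : a ∈ (x.res X).u ↔ a ∈ x.u ∧ a ∈ X := by
  classical
  exact Finset.mem_filter

theorem res_r {a : S} (ha : a ∈ X) (k : ℕ) : (x.res X).r a k = x.r a k := if_pos ha

theorem irr (x : Dat S) (a : ℕ) : (a, a) ∉ x.E := fun h => x.asym a a h h

theorem le_res (A : S → S → Prop) (X : Set S) (x : Dat S) : Dat.Le A x (x.res X) where
  E := Finset.Subset.refl _
  n := le_rfl
  u _ ha := (mem_res_u.1 ha).1
  r _ ha k _ := (res_r (mem_res_u.1 ha).2 k).symm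
  p _ _ _ _ _ _ h1 h2 := absurd h2 (not_lt.2 h1)

theorem res_mono (h : Dat.Le A x y) : Dat.Le A (x.res X) (y.res X) where
  E := h.E
  n := h.n
  u _ ha := mem_res_u.2 ⟨h.u (mem_res_u.1 ha).1, (mem_res_u.1 ha).2⟩
  r a ha k hk := by
    obtain ⟨h1, h2⟩ := mem_res_u.1 ha
    rw [res_r h2, res_r h2]
    exact h.r a h1 k hk
  p a ha b hb hab k hk hk' := by
    obtain ⟨h1, h2⟩ := mem_res_u.1 ha
    obtain ⟨h3, h4⟩ := mem_res_u.1 hb
    rw [res_r h2, res_r h4]
    exact h.p a h1 b h3 hab k hk hk'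

theorem res_of_subset (h : ∀ a ∈ x.u, a ∈ X) : x.res X = x := by
  apply Dat.ext
  · rfl
  · rfl
  · apply Finset.ext
    intro a
    rw [mem_res_u]
    exact ⟨fun h' => h'.1, fun h' => ⟨h', h a h'⟩⟩
  · funext a k
    by_cases ha : a ∈ X
    · exact res_r ha k
    · have h1 : (x.res X).r a k = 0 := if_neg ha
      rw [h1, x.out a k fun h' => ha (h a h'.1)]

theorem res_emp (X : Set S) : (Dat.emp : Dat S).res X = Dat.emp :=
  res_of_subset fun _ h => absurd h (Finset.notMem_empty _)

theorem res_res (X Y : Set S) (x : Dat S) : (x.res X).res Y = x.res (X ∩ Y) := by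
  apply Dat.ext
  · rfl
  · rfl
  · apply Finset.ext
    intro a
    rw [mem_res_u, mem_res_u, mem_res_u, mem_inter_iff]
    tauto
  · funext a k
    by_cases ha : a ∈ X
    · by_cases hb : a ∈ Y
      · rw [res_r hb, res_r ha, res_r (show a ∈ X ∩ Y from ⟨ha, hb⟩)]
      · have h1 : ((x.res X).res Y).r a k = 0 := if_neg hb
        have h2 : (x.res (X ∩ Y)).r a k = 0 := if_neg fun h => hb h.2
        rw [h1, h2]
    · have h2 : (x.res (X ∩ Y)).r a k = 0 := if_neg fun h => ha h.1
      have h3 : (x.res X).r a k = 0 := if_neg ha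
      rw [h2]
      by_cases hb : a ∈ Y
      · rw [res_r hb, h3]
      · exact if_neg hb

end Dat

/-! ### Restrictions of conditions -/

namespace Raw

variable {C S : Type} {X Y : Set S} {p q r : Raw C S}

@[simp] theorem res_c : (p.res X).c = p.c := rfl

theorem res_f_pos {s : S} (hs : s ∈ X) : (p.res X).f s = (p.f s).res X := if_pos hs

theorem res_f_neg {s : S} (hs : s ∉ X) : (p.res X).f s = Dat.emp := if_neg hs

theorem On.mono (h : p.On X) (hXY : X ⊆ Y) : p.On Y :=
  ⟨fun s hs => hXY (h.1 s hs), fun s x hx => hXY (h.2 s x hx)⟩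

theorem On.inter (h : p.On X) (h' : p.On Y) : p.On (X ∩ Y) :=
  ⟨fun s hs => ⟨h.1 s hs, h'.1 s hs⟩, fun s x hx => ⟨h.2 s x hx, h'.2 s x hx⟩⟩

theorem on_iff : p.On X ↔ p.supp ⊆ X := by
  constructor
  · rintro h x (hx | ⟨s, hx⟩)
    · exact h.1 x hx
    · exact h.2 s x hx
  · exact fun h => ⟨fun s hs => h (Or.inl hs), fun s x hx => h (Or.inr ⟨s, hx⟩)⟩

theorem on_supp (p : Raw C S) : p.On p.supp := on_iff.2 Subset.rfl

theorem on_univ (p : Raw C S) : p.On univ := ⟨fun _ _ => trivial, fun _ _ _ => trivial⟩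

theorem f_eq_emp (h : p.On X) {s : S} (hs : s ∉ X) : p.f s = Dat.emp := by
  by_contra hne
  exact hs (h.1 s hne)

/-- The support of a condition is finite. -/
theorem supp_finite (p : Raw C S) : p.supp.Finite := by
  classical
  have h1 : p.supp ⊆ {s | p.f s ≠ Dat.emp} ∪
      ⋃ s ∈ {s | p.f s ≠ Dat.emp}, ((p.f s).u : Set S) := by
    rintro x (hx | ⟨s, hx⟩)
    · exact Or.inl hx
    · right
      simp only [mem_iUnion]
      refine ⟨s, ?_, hx⟩
      intro h
      rw [h] at hx
      exact absurd hx (Finset.notMem_empty _)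
  exact (p.fin.union (p.fin.biUnion fun s _ => Finset.finite_toSet _)).subset h1

theorem res_on (X : Set S) (p : Raw C S) : (p.res X).On X := by
  constructor
  · intro s hs
    by_contra hne
    exact hs (res_f_neg hne)
  · intro s x hx
    by_cases hs : s ∈ X
    · rw [res_f_pos hs] at hx
      exact (Dat.mem_res_u.1 hx).2
    · rw [res_f_neg hs] at hx
      exact absurd hx (Finset.notMem_empty _)

theorem res_on_of_on (h : p.On Y) : (p.res X).On Y := by
  constructor
  · intro s hs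
    by_cases hX : s ∈ X
    · refine h.1 s fun h' => hs ?_
      rw [res_f_pos hX, h', Dat.res_emp]
    · exact absurd (res_f_neg hX) hs
  · intro s x hx
    by_cases hs : s ∈ X
    · rw [res_f_pos hs] at hx
      exact h.2 s x (Dat.mem_res_u.1 hx).1
    · rw [res_f_neg hs] at hx
      exact absurd hx (Finset.notMem_empty _)

theorem res_of_on (h : p.On X) : p.res X = p := by
  apply Raw.ext
  · rfl
  · funext s
    by_cases hs : s ∈ X
    · rw [res_f_pos hs]
      exact Dat.res_of_subset (h.2 s)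
    · rw [res_f_neg hs, f_eq_emp h hs]

theorem res_res (X Y : Set S) (p : Raw C S) : (p.res X).res Y = p.res (X ∩ Y) := by
  apply Raw.ext
  · rfl
  · funext s
    by_cases hY : s ∈ Y
    · rw [res_f_pos hY]
      by_cases hX : s ∈ X
      · rw [res_f_pos hX, res_f_pos (show s ∈ X ∩ Y from ⟨hX, hY⟩), Dat.res_res]
      · rw [res_f_neg hX, res_f_neg (fun h => hX h.1), Dat.res_emp]
    · rw [res_f_neg hY, res_f_neg (fun h => hY h.2)]

variable [Preorder C] {A : S → S → S → Prop}

theorem le_res (A : S → S → S → Prop) (X : Set S) (p : Raw C S) : p.Le A (p.res X) := by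
  refine ⟨le_rfl, fun s => ?_⟩
  by_cases hs : s ∈ X
  · rw [res_f_pos hs]
    exact Dat.le_res _ _ _
  · rw [res_f_neg hs]
    exact Dat.Le.emp _ _

theorem res_mono (X : Set S) (h : p.Le A q) : (p.res X).Le A (q.res X) := by
  refine ⟨h.1, fun s => ?_⟩
  by_cases hs : s ∈ X
  · rw [res_f_pos hs, res_f_pos hs]
    exact Dat.res_mono (h.2 s)
  · rw [res_f_neg hs, res_f_neg hs]
    exact Dat.Le.refl _ _

theorem res_le_of_on (h : p.Le A q) (hq : q.On X) : (p.res X).Le A q := by
  have h1 := res_mono X h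
  rwa [res_of_on hq] at h1

/-- If `r ≤ p` for the adjacency relation `A` and `p ≤ b` then `r ≤ b`, if the indices of `b` which
are related by `A'` are related by `A`. -/
theorem le_of_le {A' : S → S → S → Prop} {b : Raw C S} (h : r.Le A p) (h' : p.Le A' b)
    (hA : ∀ s, ∀ x ∈ (b.f s).u, ∀ y ∈ (b.f s).u, A' s x y → A s x y) : r.Le A' b := by
  refine ⟨h.1.trans h'.1, fun s => ?_⟩
  obtain ⟨h1, h2, h3, h4, h5⟩ := h.2 s
  obtain ⟨g1, g2, g3, g4, g5⟩ := h'.2 s
  refine ⟨g1.trans h1, g2.trans h2, g3.trans h3, fun x hx k hk => ?_, ?_⟩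
  · rw [h4 x (g3 hx) k (hk.trans_le g2), g4 x hx k hk]
  · intro x hx y hy hxy k hk hk'
    by_cases hkp : k < (p.f s).n
    · rw [h4 x (g3 hx) k hkp, h4 y (g3 hy) k hkp]
      exact h1 (g5 x hx y hy hxy k hk hkp)
    · exact h5 x (g3 hx) y (g3 hy) (hA s x hx y hy hxy) k (not_lt.1 hkp) hk'

end Raw

/-! ### Valid conditions and closed sets -/

section

variable {C S J : Type} {T : Pat J} {Z : S → J → Set (Raw C S)} {X Y : Set S}

theorem cp_ne_emp {j : J} {x : Dat S} (h : ∃ h : ℕ → ℕ, T.Cp j (fun a b => (a, b) ∈ x.E) h) :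
    x ≠ Dat.emp := by
  rintro rfl
  obtain ⟨h, hh⟩ := h
  have h3 := T.three j
  have := hh 0 1 (by omega) (by omega) (T.first j)
  exact absurd this (Finset.notMem_empty _)

theorem valid_res [Preorder C] [LT S] {p : Raw C S} (hcl : Closed Z X) (hp : Valid T Z p) : Valid T Z (p.res X) := by
  intro s j h
  by_cases hs : s ∈ X
  · rw [Raw.res_f_pos hs] at h
    obtain ⟨b, hb, hpb⟩ := hp s j h
    exact ⟨b, hb, Raw.res_le_of_on hpb (hcl s hs j b hb)⟩
  · rw [Raw.res_f_neg hs] at h
    exact absurd rfl (cp_ne_emp h)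

theorem Closed.inter (hX : Closed Z X) (hY : Closed Z Y) : Closed Z (X ∩ Y) :=
  fun s hs j b hb => (hX s hs.1 j b hb).inter (hY s hs.2 j b hb)

theorem Closed.union (hX : Closed Z X) (hY : Closed Z Y) : Closed Z (X ∪ Y) := by
  rintro s (hs | hs) j b hb
  · exact (hX s hs j b hb).mono subset_union_left
  · exact (hY s hs j b hb).mono subset_union_right

theorem Closed.iUnion {ι : Sort*} {X : ι → Set S} (hX : ∀ i, Closed Z (X i)) :
    Closed Z (⋃ i, X i) := by
  intro s hs j b hb
  obtain ⟨i, hi⟩ := mem_iUnion.1 hs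
  exact (hX i s hi j b hb).mono (subset_iUnion X i)

theorem Closed.cl_subset (hX : Closed Z X) (hYX : Y ⊆ X) : {s | Cl Z Y s} ⊆ X := by
  intro s hs
  have hs' : Cl Z Y s := hs
  induction hs' with
  | base h => exact hYX h
  | step _ hb ht ih => exact Raw.on_iff.1 (hX _ (ih (by assumption)) _ _ hb) ht

theorem closed_cl (Z : S → J → Set (Raw C S)) (X : Set S) : Closed Z {s | Cl Z X s} :=
  fun _ hs _ _ hb => Raw.on_iff.2 fun _ ht => Cl.step hs hb ht

theorem subset_cl (Z : S → J → Set (Raw C S)) (X : Set S) : X ⊆ {s | Cl Z X s} :=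
  fun _ hs => Cl.base hs

end

/-! ### The statements of the specification -/

section Spec

variable {C S J : Type} [Preorder C]

theorem le_res (A : S → S → S → Prop) (X : Set S) (p : Raw C S) : p.Le A (p.res X) :=
  Raw.le_res A X p

theorem res_mono {A : S → S → S → Prop} {p q : Raw C S} (h : p.Le A q) (X : Set S) :
    (p.res X).Le A (q.res X) := Raw.res_mono X h

omit [Preorder C] in
theorem res_of_on {X : Set S} {p : Raw C S} (h : p.On X) : p.res X = p := Raw.res_of_on h

omit [Preorder C] in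
theorem res_on (X : Set S) (p : Raw C S) : (p.res X).On X := Raw.res_on X p

omit [Preorder C] in
/-- the restriction to `X` keeps the supports -/
theorem res_on' {X Y : Set S} {p : Raw C S} (h : p.On Y) : (p.res X).On (X ∩ Y) :=
  (Raw.res_on X p).inter (Raw.res_on_of_on h)

theorem res_le_of {A : S → S → S → Prop} {X : Set S} {p q : Raw C S} (h : p.Le A q)
    (hq : q.On X) : (p.res X).Le A q := Raw.res_le_of_on h hq

omit [Preorder C] in
theorem res_res (X Y : Set S) (p : Raw C S) : (p.res X).res Y = p.res (X ∩ Y) :=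
  Raw.res_res X Y p

omit [Preorder C] in
theorem on_mono {X Y : Set S} {p : Raw C S} (h : X ⊆ Y) (hp : p.On X) : p.On Y := hp.mono h

omit [Preorder C] in
theorem on_iff_supp {X : Set S} {p : Raw C S} : p.On X ↔ p.supp ⊆ X := Raw.on_iff

omit [Preorder C] in
theorem supp_finite (p : Raw C S) : p.supp.Finite := Raw.supp_finite p

theorem Dat.Le.congr {A A' : S → S → Prop} {x y : Dat S}
    (h : ∀ a ∈ y.u, ∀ b ∈ y.u, A' a b → A a b) (hxy : Dat.Le A x y) : Dat.Le A' x y :=
  ⟨hxy.E, hxy.n, hxy.u, hxy.r, fun a ha b hb hab => hxy.p a ha b hb (h a ha b hb hab)⟩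

/-- only the adjacency of the indices of `q` matters -/
theorem le_congr {A A' : S → S → S → Prop} {p q : Raw C S}
    (h : ∀ s, ∀ x ∈ (q.f s).u, ∀ y ∈ (q.f s).u, (A s x y ↔ A' s x y)) : p.Le A q ↔ p.Le A' q :=
  ⟨fun h1 => ⟨h1.1, fun s => (h1.2 s).congr fun a ha b hb => (h s a ha b hb).2⟩,
    fun h1 => ⟨h1.1, fun s => (h1.2 s).congr fun a ha b hb => (h s a ha b hb).1⟩⟩

end Spec

end Pool.Agent.Helper2.SW
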