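import Pool.Agent.Helper2.SW.Ext

/-!
# Project SW: the generic graph and the generic functions at a stage
-/

set_option autoImplicit false

namespace Pool.Agent.Helper2.SW

open Cardinal Set Pool.Agent.Helper33.HM

section

variable {C I : Type} [Preorder C] [LinearOrder I] {T : Pat Wd} {Z : I → Wd → Set (Raw C I)}

/-- An element of a set of conditions which is closed downwards belongs to the generated set. -/
theorem mem_gen_iff {P : Type} [Preorder P] {A : Set P} (hA : ∀ p ∈ A, ∀ q, q ≤ p → q ∈ A) {p : P} :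
    p ∈ RO.gen A ↔ ∀ q, q ≤ p → ∃ r, r ≤ q ∧ r ∈ A := by
  rw [RO.mem_gen]
  refine forall_congr' fun q => imp_congr_right fun _ => exists_congr fun r =>
    and_congr_right fun _ => ?_
  exact ⟨fun ⟨a, ha, hr⟩ => hA a ha r hr, fun h => ⟨r, h, le_rfl⟩⟩

theorem mem_gE {s : I} {a b : ℕ} {p : PS T Z} :
    p ∈ gE T Z s a b ↔ ∀ q, q ≤ p → ∃ r, r ≤ q ∧ (a, b) ∈ (r.1.f s).E :=
  mem_gen_iff fun _ hp _ hq => (hq.2 s).E hp

theorem mem_gR {s x : I} {k l : ℕ} {p : PS T Z} :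
    p ∈ gR T Z s x k l ↔ ∀ q, q ≤ p → ∃ r, r ≤ q ∧
      (x ∈ (r.1.f s).u ∧ k < (r.1.f s).n ∧ (r.1.f s).r x k = l) := by
  refine mem_gen_iff ?_
  rintro p ⟨h1, h2, h3⟩ q hq
  refine ⟨(hq.2 s).u h1, h2.trans_le (hq.2 s).n, ?_⟩
  rw [(hq.2 s).r x h1 k h2]
  exact h3

theorem PS.exists_ext (p : PS T Z) (s i : I) (k : ℕ) :
    ∃ q : PS T Z, q ≤ p ∧ i ∈ (q.1.f s).u ∧ k < (q.1.f s).n := by
  obtain ⟨r, h1, h2, h3⟩ := SW.exists_ext p.2 s i k
  exact ⟨⟨r, h1⟩, h2, h3⟩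

theorem PS.exists_ext2 (p : PS T Z) (s i j : I) (k : ℕ) :
    ∃ q : PS T Z, q ≤ p ∧ i ∈ (q.1.f s).u ∧ j ∈ (q.1.f s).u ∧ k < (q.1.f s).n := by
  obtain ⟨r, h1, h2, h3⟩ := SW.exists_ext2 p.2 s i j k
  exact ⟨⟨r, h1⟩, h2, h3⟩

theorem gR_of {s x : I} {k : ℕ} {p : PS T Z} (hx : x ∈ (p.1.f s).u) (hk : k < (p.1.f s).n) :
    p ∈ gR T Z s x k ((p.1.f s).r x k) := by
  rw [mem_gR]
  intro q hq
  exact ⟨q, le_rfl, (hq.2 s).u hx, hk.trans_le (hq.2 s).n, (hq.2 s).r x hx k hk⟩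

theorem gE_of {s : I} {a b : ℕ} {p : PS T Z} (h : (a, b) ∈ (p.1.f s).E) : p ∈ gE T Z s a b := by
  rw [mem_gE]
  intro q hq
  exact ⟨q, le_rfl, (hq.2 s).E h⟩

theorem gE_asymm (s : I) (a b : ℕ) : gE T Z s a b ⊓ gE T Z s b a = ⊥ := by
  rw [eq_bot_iff]
  intro p hp
  exfalso
  obtain ⟨q, hq, h1⟩ := mem_gE.1 hp.1 p le_rfl
  obtain ⟨r, hr, h2⟩ := mem_gE.1 hp.2 q hq
  exact (r.1.f s).asym a b ((hr.2 s).E h1) h2

theorem fnV_gR (s : I) : fnV (gR T Z s) = ⊤ := by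
  rw [eq_top_iff]
  intro p _
  refine ⟨?_, ?_⟩
  · refine RO.mem_iInf.2 fun ξ => RO.mem_iInf.2 fun k => RO.mem_iInf.2 fun a => RO.mem_iInf.2
      fun b => RO.mem_iInf.2 fun hab => ?_
    rw [RO.mem_compl]
    intro q _ hq
    obtain ⟨r, hr, h1, h2, h3⟩ := mem_gR.1 hq.1 q le_rfl
    obtain ⟨t, ht, h4, h5, h6⟩ := mem_gR.1 hq.2 r hr
    rw [(ht.2 s).r ξ h1 k h2] at h6
    exact hab (h3.symm.trans h6)
  · refine RO.mem_iInf.2 fun ξ => RO.mem_iInf.2 fun k => ?_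
    rw [RO.mem_iSup]
    intro q _
    obtain ⟨r, h2, h3, h4⟩ := q.exists_ext s ξ k
    exact ⟨r, h2, (r.1.f s).r ξ k, gR_of h3 h4⟩

theorem chV_gR (s : I) : chV (gE T Z s) (gR T Z s) = ⊤ := by
  rw [eq_top_iff]
  intro p _
  refine RO.mem_iInf.2 fun ξ => RO.mem_iInf.2 fun η => RO.mem_iInf.2 fun h => ?_
  rw [RO.mem_iSup]
  intro q _
  obtain ⟨r, h2, h3, h4, -⟩ := q.exists_ext2 s ξ η 0
  refine ⟨r, h2, (r.1.f s).n, ?_⟩
  refine RO.mem_iInf.2 fun k => RO.mem_iInf.2 fun hk => ?_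
  rw [RO.mem_iSup]
  intro t ht
  obtain ⟨w, h6, h7, h8, h9⟩ := t.exists_ext2 s ξ η k
  refine ⟨w, h6, (w.1.f s).r ξ k, ?_⟩
  rw [RO.mem_iSup]
  intro v hv
  refine ⟨v, le_rfl, (w.1.f s).r η k, ⟨?_, ?_⟩, ?_⟩
  · exact RO.mem_lower hv (gR_of h7 h9)
  · exact RO.mem_lower hv (gR_of h8 h9)
  · refine RO.mem_lower hv (gE_of ?_)
    have h10 : w ≤ r := h6.trans ht
    exact (h10.2 s).p ξ h3 η h4 h k hk h9

/-- A condition which forces the finite graph `G` has an extension which contains it. -/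
theorem exists_arcs {s : I} (F : Finset (ℕ × ℕ)) {p : PS T Z}
    (hF : ∀ e ∈ F, p ∈ gE T Z s e.1 e.2) : ∃ q, q ≤ p ∧ F ⊆ (q.1.f s).E := by
  classical
  induction F using Finset.induction_on generalizing p with
  | empty => exact ⟨p, le_rfl, by simp⟩
  | insert e F _ ih =>
    obtain ⟨q, hq, h1⟩ := mem_gE.1 (hF e (Finset.mem_insert_self _ _)) p le_rfl
    obtain ⟨r, hr, h2⟩ := ih (p := q) fun e' he' =>
      RO.mem_lower hq (hF e' (Finset.mem_insert_of_mem he'))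
    refine ⟨r, hr.trans hq, ?_⟩
    intro e' he'
    rcases Finset.mem_insert.1 he' with rfl | he'
    · exact (hr.2 s).E h1
    · exact h2 he'

/-- A condition which forces that `h` is a copy of `T_j` at the stage `s` is in `ev s j`. -/
theorem cpV_le_ev (hv : ∀ s j, ∀ b ∈ Z s j, Valid T Z b) (s : I) (j : Wd) (h : ℕ → ℕ) :
    cpV T (gE T Z s) j h ≤ ev T Z s j := by
  classical
  intro p hp
  apply RO.mem_reg
  intro q hq
  set F : Finset (ℕ × ℕ) := ((Finset.range (T.N j) ×ˢ Finset.range (T.N j)).filter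
    fun e => T.arc j e.1 e.2).image fun e => (h e.1, h e.2) with hFdef
  have hF : ∀ e ∈ F, q ∈ gE T Z s e.1 e.2 := by
    intro e he
    rw [hFdef, Finset.mem_image] at he
    obtain ⟨⟨v, w⟩, he, rfl⟩ := he
    rw [Finset.mem_filter, Finset.mem_product, Finset.mem_range, Finset.mem_range] at he
    have h1 := RO.mem_iInf.1 (RO.mem_iInf.1 (RO.mem_iInf.1 hp v) w) ⟨he.1.1, he.1.2, he.2⟩
    exact RO.mem_lower hq h1
  obtain ⟨r, hr, h2⟩ := exists_arcs F hF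
  obtain ⟨b, hb, hle⟩ := r.2 s j ⟨h, fun v w hv hw hvw => h2 (by
    rw [hFdef, Finset.mem_image]
    exact ⟨(v, w), by simp [hv, hw, hvw], rfl⟩)⟩
  refine ⟨r, hr, ?_⟩
  unfold ev
  rw [RO.mem_gen]
  intro t ht
  exact ⟨t, le_rfl, ⟨b, hv s j b hb⟩, hb, (show t.1.Le lt3 r.1 from ht).trans hle⟩

/-- The generic objects of the stage `s` are witnesses. -/
theorem stage_phi (hv : ∀ s j, ∀ b ∈ Z s j, Valid T Z b) (s : I) (U : RO (PS T Z))
    (x y : ℕ → RO (PS T Z)) (h : ∀ j, U ⊓ pre j x y ≤ (ev T Z s j)ᶜ) :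
    U ≤ phi T (gE T Z s) (gR T Z s) x y := by
  unfold phi
  rw [fnV_gR, chV_gR, top_inf_eq, top_inf_eq]
  refine le_iInf fun j => le_iInf fun f => ?_
  rw [le_compl_iff_disjoint_right, disjoint_iff]
  have h1 := h j
  rw [le_compl_iff_disjoint_right, disjoint_iff] at h1
  rw [eq_bot_iff, ← h1, inf_assoc]
  exact inf_le_inf_left _ (inf_le_inf_left _ (cpV_le_ev hv s j f))

end

end Pool.Agent.Helper2.SW
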